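import Pool.Agent.Lib.MP_b5021c_nt.BP.H57.V1

/-!
# Board b5, BpS: closings into class `V(1)` over `ℤ` (row V1Z)
-/

namespace Pool.Agent.B5.BP57

open scoped LaurentPolynomial Topology
open Polynomial Pool.Agent.B5

/-- a mass of the least possible value has a constant coefficient of `w^0`. -/
theorem const_of (hPmf : PmfS) (hSnt : SntS) {O : Type} [CommRing O] [IsDomain O]
    [IsPrincipalIdealRing O] [Coef O] {L : Type} [AddCommGroup L] [Module.Free ℤ L]
    [Module.Finite ℤ L] {T : AO O L} (hT0 : T ≠ 0) (hTn : Npos T)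
    (h : (T.coeff 0).coeff 0 = ((1 + rk (supp T) : ℕ) : O)) (k : ℕ) :
    (T.coeff 0).coeff ((k : ℤ) + 1) = 0 := by
  have hrs := H65.rsh_coeff0 T hTn.1
  obtain ⟨r, hr0, -, -, hrn⟩ := hPmf O (T.coeff 0) 0 (by norm_num) hrs
  have hpm : ∀ a : ℂ, ‖a‖ < 1 → pmn a (T.coeff 0) = (r.eval a).re := by
    intro a ha
    obtain ⟨r', hr0', -, hr2', hrn'⟩ := hPmf O (T.coeff 0) a ha hrs
    have h1 : r' = r := by
      ext k
      rcases k with _ | k
      · rw [hr0, hr0']
      · rw [hrn, hrn']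
    rw [hr2', h1]
  have hr00 : r.eval 0 = ((1 + rk (supp T) : ℕ) : ℂ) := by
    rw [← coeff_zero_eq_eval_zero, hr0, h, map_natCast]
  have hdW : DifferentiableOn ℂ
      (fun z : ℂ => r.eval (z / 15) - ((1 + rk (supp T) : ℕ) : ℂ)) (Metric.ball 0 1) := by
    intro w _
    exact ((r.differentiable.differentiableAt.comp w
      (differentiableAt_id.div_const 15)).sub_const _).differentiableWithinAt
  have hc := H67.cst_re hdW (by
    intro z hz1
    have h15 : ‖z / 15‖ ≤ 1 / 15 := by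
      rw [norm_div]
      have : ‖(15 : ℂ)‖ = 15 := by norm_num
      rw [this]
      linarith
    have h6 := hSnt O L T hT0 hTn (z / 15) h15
    rw [hpm _ (by linarith)] at h6
    rw [Complex.sub_re, Complex.natCast_re]
    push_cast
    linarith) (by
    simp only [zero_div]
    rw [hr00, sub_self, Complex.zero_re])
  have hcomp : r.comp (C (1 / 15 : ℂ) * X) = C ((1 + rk (supp T) : ℕ) : ℂ) := by
    apply eq_of_ball
    intro z hz1
    have h6 := hc z hz1
    simp only [zero_div] at h6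
    rw [hr00, sub_self] at h6
    rw [eval_comp, eval_mul, eval_C, eval_X, eval_C, ← sub_eq_zero, one_div_mul_eq_div]
    exact h6
  have hrc : r = C ((1 + rk (supp T) : ℕ) : ℂ) := by
    apply Polynomial.funext
    intro z
    have h6 := congrArg (fun p : ℂ[X] => p.eval (15 * z)) hcomp
    simp only [eval_comp, eval_mul, eval_C, eval_X] at h6
    rw [← mul_assoc, one_div_mul_cancel (by norm_num), one_mul] at h6
    rw [h6, eval_C]
  have h7 := hrn k
  rw [hrc, coeff_C_succ] at h7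
  have h8 : (Coef.emb ((T.coeff 0).coeff ((k : ℤ) + 1)) : ℂ) = 0 := by
    have := mul_eq_zero.mp h7.symm
    exact this.resolve_left (by norm_num)
  exact emb_inj (by rw [h8, map_zero])

theorem embZ (x : ℤ) : (Coef.emb x : ℂ) = (x : ℂ) := by
  change (Int.castRingHom ℂ) _ = _
  exact eq_intCast _ _

/-- a polynomial whose real part is `≥ 0` in the disc and `0` on the circle, with a real value at
the centre. -/
theorem zero_of_circle {F : ℂ[X]} (h1 : ∀ z : ℂ, ‖z‖ = 1 → (F.eval z).re = 0)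
    (h2 : ∀ z : ℂ, ‖z‖ < 1 → 0 ≤ (F.eval z).re) (h3 : (F.eval 0).im = 0) : F = 0 := by
  have h4 := H05.poisson_re F 0 (by norm_num)
  have h5 : Real.circleAverage (fun z => (1 - ‖(0 : ℂ)‖ ^ 2) / ‖z - 0‖ ^ 2 * (F.eval z).re) 0 1 =
      Real.circleAverage (fun _ => (0 : ℝ)) (0 : ℂ) 1 := by
    apply Real.circleAverage_congr_sphere
    intro z hz
    have hz1 : ‖z‖ = 1 := by simpa using hz
    simp only [h1 z hz1, mul_zero]
  rw [h5, Real.circleAverage_const] at h4
  have h6 : F.eval 0 = 0 := Complex.ext (by rw [← h4]; rfl) (by rw [h3]; rfl)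
  have hc := H67.cst_re (W := fun z => F.eval z) (fun w _ =>
    F.differentiable.differentiableAt.differentiableWithinAt) h2 (by rw [← h4])
  apply eq_of_ball
  intro z hz
  rw [hc z hz, h6, eval_zero]

/-- over `ℤ`: the form of `q` when `v = 1`. -/
theorem q_of_v1 (hPmf : PmfS) (hSnt : SntS) (hLin : E1.LinS) {rL : ℕ} {q : ℤ[X]} {N : ℕ}
    {L : Type} [AddCommGroup L] [Module.Free ℤ L] [Module.Finite ℤ L] {n : ℕ}
    {f : Fin n → (L →+ ℤ)} {T : ∀ i, AO ℤ (Ker (f i))} {r : ℂ[X]}
    (h : MassD ℤ rL q 1 L n f T r) (hN : rL + 1 = 2 * N) (hq : q.coeff 0 = N) :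
    q = C (N : ℤ) ∨ ∃ (d : ℕ) (u : ℤ), 1 ≤ d ∧ (u = 1 ∨ u = -1) ∧
      q = C (N : ℤ) + C u * X ^ d := by
  classical
  have hone : ∀ z : ℂ, ((1 : ℤ[X]).map (Coef.emb : ℤ →+* ℂ)).eval z = 1 := fun z => by
    rw [Polynomial.map_one, eval_one]
  have hre2 : ∀ z : ℂ, (2 * z).re = 2 * z.re := fun z => by simp
  -- `r = 2 q - 1`
  have hF : C 2 * q.map (Coef.emb : ℤ →+* ℂ) - 1 - r = 0 := by
    apply zero_of_circle
    · intro z hz
      have h1 := h.eq z hz (by rw [hone]; exact one_ne_zero)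
      rw [hone, div_one] at h1
      simp only [eval_sub, eval_mul, eval_C, eval_one, Complex.sub_re, Complex.one_re, hre2]
      linarith
    · intro z hz
      have h1 := h.le z hz
      rw [hone, div_one] at h1
      simp only [eval_sub, eval_mul, eval_C, eval_one, Complex.sub_re, Complex.one_re, hre2]
      linarith
    · simp only [eval_sub, eval_mul, eval_C, eval_one]
      rw [← coeff_zero_eq_eval_zero, ← coeff_zero_eq_eval_zero, h.r0, coeff_map, embZ, embZ]
      simp
  have hr : r = C 2 * q.map (Coef.emb : ℤ →+* ℂ) - 1 := (sub_eq_zero.mp hF).symm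
  set p : RO ℤ := ∑ i, (T i).coeff 0 with hp
  have hp0 : p.coeff 0 = 2 * (N : ℤ) - 1 := by
    have h1 := h.r0
    rw [hr, coeff_sub, coeff_C_mul, coeff_map, hq, coeff_one_zero, embZ, embZ] at h1
    exact_mod_cast h1.symm
  have hpk : ∀ k : ℕ, p.coeff ((k : ℤ) + 1) = q.coeff (k + 1) := by
    intro k
    have h1 := h.rn k
    rw [hr, coeff_sub, coeff_C_mul, coeff_map, coeff_one, if_neg (by omega), sub_zero, embZ,
      embZ] at h1
    have h2 := mul_left_cancel₀ (two_ne_zero) h1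
    exact_mod_cast h2.symm
  have hps : ∀ k : ℤ, p.coeff k = ∑ i, ((T i).coeff 0).coeff k := by
    intro k
    rw [hp]
    simp
  -- the means
  have hc0 : ∀ i, 1 + (rk (supp (T i)) : ℤ) ≤ ((T i).coeff 0).coeff 0 := by
    intro i
    have h1 := hSnt ℤ (Ker (f i)) (T i) (h.T0 i) (h.Tn i) 0 (by norm_num)
    obtain ⟨r', hr0', -, hr1', -⟩ := hPmf ℤ ((T i).coeff 0) 0 (by norm_num)
      (H65.rsh_coeff0 (T i) (h.Tn i).1)
    rw [hr1', ← Polynomial.coeff_zero_eq_eval_zero, hr0', embZ, Complex.intCast_re] at h1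
    exact_mod_cast h1
  have hrank := h.rank
  have hsum : ∑ i, ((T i).coeff 0).coeff 0 = 2 * (N : ℤ) - 1 := by rw [← hps, hp0]
  -- the exceptional factor
  have hex : ∃ j : Option (Fin n), (∀ i, some i ≠ j →
      ((T i).coeff 0).coeff 0 = 1 + (rk (supp (T i)) : ℤ)) ∧
      ∀ i, some i = j → ((T i).coeff 0).coeff 0 = (rk (supp (T i)) : ℤ) + 2 := by
    have h1 : ∑ i, (((T i).coeff 0).coeff 0 - (1 + (rk (supp (T i)) : ℤ))) ≤ 1 := by
      rw [Finset.sum_sub_distrib, hsum]
      have h2 : ((∑ i, (1 + rk (supp (T i))) : ℕ) : ℤ) = ∑ i, (1 + (rk (supp (T i)) : ℤ)) := by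
        push_cast; rfl
      rw [← h2]
      omega
    have h3 : ∀ i, 0 ≤ ((T i).coeff 0).coeff 0 - (1 + (rk (supp (T i)) : ℤ)) := fun i => by
      have := hc0 i
      omega
    by_cases hall : ∀ i, ((T i).coeff 0).coeff 0 = 1 + (rk (supp (T i)) : ℤ)
    · exact ⟨none, fun i _ => hall i, fun i hi => absurd hi (by simp)⟩
    · push Not at hall
      obtain ⟨j, hj⟩ := hall
      have hj1 : 1 ≤ ((T j).coeff 0).coeff 0 - (1 + (rk (supp (T j)) : ℤ)) := by
        have := h3 j
        omega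
      have h4 := Finset.add_sum_erase Finset.univ
        (fun i => ((T i).coeff 0).coeff 0 - (1 + (rk (supp (T i)) : ℤ))) (Finset.mem_univ j)
      have h5 : 0 ≤ ∑ i ∈ Finset.univ.erase j,
          (((T i).coeff 0).coeff 0 - (1 + (rk (supp (T i)) : ℤ))) :=
        Finset.sum_nonneg fun i _ => h3 i
      have h6 : ∑ i ∈ Finset.univ.erase j,
          (((T i).coeff 0).coeff 0 - (1 + (rk (supp (T i)) : ℤ))) = 0 := by
        omega
      have h7 := (Finset.sum_eq_zero_iff_of_nonneg fun i _ => h3 i).mp h6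
      refine ⟨some j, fun i hi => ?_, fun i hi => ?_⟩
      · have h8 := h7 i (Finset.mem_erase.mpr ⟨fun h9 => hi (by rw [h9]), Finset.mem_univ i⟩)
        omega
      · have h9 : i = j := Option.some.inj hi
        rw [h9]
        omega
  obtain ⟨j, hj1, hj2⟩ := hex
  have hconst : ∀ i, some i ≠ j → ∀ k : ℕ, ((T i).coeff 0).coeff ((k : ℤ) + 1) = 0 := by
    intro i hi k
    apply const_of hPmf hSnt (h.T0 i) (h.Tn i)
    rw [hj1 i hi]
    push_cast
    rfl
  rcases j with _ | j
  · left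
    ext k
    rcases k with _ | k
    · rw [hq, coeff_C_zero]
    · rw [← hpk, hps, coeff_C_succ]
      exact Finset.sum_eq_zero fun i _ => hconst i (by simp) k
  · have hqj : ∀ k : ℕ, q.coeff (k + 1) = ((T j).coeff 0).coeff ((k : ℤ) + 1) := by
      intro k
      rw [← hpk, hps]
      exact Finset.sum_eq_single j (fun i _ hi => hconst i (fun h1 => hi (Option.some.inj h1)) k)
        (fun h1 => absurd (Finset.mem_univ j) h1)
    have hlin := hLin (Ker (f j)) (T j) (h.Tn j) (hj2 j rfl)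
    by_cases hz : ∀ k : ℕ, q.coeff (k + 1) = 0
    · left
      ext k
      rcases k with _ | k
      · rw [hq, coeff_C_zero]
      · rw [hz, coeff_C_succ]
    · right
      push Not at hz
      obtain ⟨k, hk⟩ := hz
      have h1 := hlin ((k : ℤ) + 1) ((k : ℤ) + 1) (by omega) (by omega) (by rw [← hqj]; exact hk)
        (by rw [← hqj]; exact hk)
      rw [← hqj] at h1
      refine ⟨k + 1, q.coeff (k + 1), by omega, ?_, ?_⟩
      · have h2 := abs_le.mp h1.2
        omega
      · ext l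
        rcases l with _ | l
        · rw [hq, coeff_add, coeff_C_zero, coeff_C_mul, coeff_X_pow, if_neg (by omega), mul_zero,
            add_zero]
        · rw [coeff_add, coeff_C_succ, coeff_C_mul, coeff_X_pow, zero_add]
          by_cases hl : l + 1 = k + 1
          · rw [if_pos hl, mul_one, hl]
          · rw [if_neg hl, mul_zero]
            by_contra h3
            have h4 := hlin ((k : ℤ) + 1) ((l : ℤ) + 1) (by omega) (by omega)
              (by rw [← hqj]; exact hk) (by rw [← hqj]; exact h3)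
            omega

/-- V1Z -/
theorem v1z (hTrg : TrgS) (hPai : PaiS) (hPav : PavS) (hHar : HarS) (hPmf : PmfS)
    (hSnt : SntS) (hE2 : E2S) (hEv : EvRS) (hU : UnitRS) (hM1 : M1S) (hMV : MVS)
    (hLin : E1.LinS) : V1zS := by
  intro P L _ _ _ _ _ phi D S eta m q v N hDD hrk hS hq hv hqz hvz hv0 hq0 hN
  have hre : 2 * (Coef.emb (q.coeff 0) : ℂ).re = Module.finrank ℤ L + 1 := by
    rw [hq0, embZ, Complex.intCast_re]
    have : ((Module.finrank ℤ L : ℝ) + 1) = 2 * N := by exact_mod_cast hN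
    rw [this]
    push_cast
    rfl
  rcases v1 hTrg hPai hPav hHar hPmf hSnt hE2 hEv hU hM1 hMV ℤ P L phi D S eta m q v hDD hrk hS hq
    hv hqz hvz hv0 hre with h1 | ⟨d, u, hd, hu, h1, h2⟩
  · obtain ⟨i0, n, f, T, r, h⟩ :=
      massD hTrg hPai hPav hHar hPmf hE2 hEv hDD hrk hS hq hv hqz hvz hv0
    rw [h1] at h
    rcases q_of_v1 hPmf hSnt hLin h hN hq0 with h3 | ⟨d, u, hd, hu, h3⟩
    · exact Or.inl ⟨h1, h3⟩
    · exact Or.inr ⟨d, u, hd, hu, Or.inl ⟨h1, h3⟩⟩
  · refine Or.inr ⟨d, u, hd, ?_, Or.inr ⟨h1, ?_⟩⟩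
    · rw [embZ, Complex.norm_intCast] at hu
      have h3 : |u| = 1 := by exact_mod_cast hu
      exact eq_or_eq_neg_of_abs_eq h3
    · rw [hq0] at h2
      exact h2

end Pool.Agent.B5.BP57
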