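import Pool.Agent.Lib.MP_b5021c_nt.BP.H57.V1z
import Pool.Agent.Lib.MP_b5021c_nt.IfaceO4V
import Pool.Agent.Lib.MP_b5021c_nt.E.H78.Fcl
import Pool.Agent.Lib.MP_b5021c_nt.B.H40.LoadBase

/-!
# Board b5, row BP_V2: class `V(2)`, rank three
-/

namespace Pool.Agent.B5.BP57

open scoped LaurentPolynomial Topology
open Polynomial Pool.Agent.B5
open Pool.Agent.B5.H40 (exists_normal to_poly uT add_load)

/-- a unit multiple of a class-`V` element which is a polynomial with `p(0) ≠ 0`. -/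
theorem zf_of_unit (hU : UnitRS) {O : Type} [CommRing O] [IsDomain O] [IsPrincipalIdealRing O]
    [Coef O] {N : ℝ} {F : RO O} (hF : ClassV N F) {w : (RO O)ˣ} {p : O[X]}
    (hw : (w : RO O) * F = toLaurent p) (hp : p.coeff 0 ≠ 0) :
    ZF (p.map Coef.emb) ∧ ‖(Coef.emb (p.coeff 0) : ℂ)‖ = N := by
  obtain ⟨hN, n, q, hq, hqN, hqz⟩ := hF
  obtain ⟨k, u, hu, h1⟩ := (hU O _).mp w.isUnit
  have hq0 : q.coeff 0 ≠ 0 := by
    intro h2
    rw [h2, map_zero, norm_zero] at hqN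
    linarith
  have h2 : (LaurentPolynomial.T 0 : RO O) * toLaurent p =
      LaurentPolynomial.T (k + n) * toLaurent (C u * q) := by
    rw [LaurentPolynomial.T_zero, one_mul, ← hw, h1, hq, map_mul, toLaurent_C,
      LaurentPolynomial.T_add]
    ring
  have hu0 : u ≠ 0 := hu.ne_zero
  obtain ⟨-, h3⟩ := H09.nf_unique 0 (k + n) p (C u * q) hp
    (by rw [coeff_C_mul]; exact mul_ne_zero hu0 hq0) h2
  have hun : ‖(Coef.emb u : ℂ)‖ = 1 := by
    obtain ⟨v, rfl⟩ := hu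
    have h4 := Coef.one_le (v : O) v.ne_zero
    have h5 := Coef.one_le ((v⁻¹ : Oˣ) : O) (v⁻¹).ne_zero
    have h6 : ‖(Coef.emb (v : O) : ℂ)‖ * ‖(Coef.emb ((v⁻¹ : Oˣ) : O) : ℂ)‖ = 1 := by
      rw [← norm_mul, ← map_mul, Units.mul_inv, map_one, norm_one]
    nlinarith
  constructor
  · intro z hz h4
    rw [h3, Polynomial.map_mul, eval_mul, map_C, eval_C] at h4
    rcases mul_eq_zero.mp h4 with h5 | h5
    · rw [h5, norm_zero] at hun
      exact zero_ne_one hun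
    · exact hqz z hz h5
  · rw [h3, coeff_C_mul, map_mul, norm_mul, hun, one_mul, hqN]

/-- a load at a ray: polynomial data. -/
theorem ray_poly (hE2 : E2S) (hVZ : VZS) {O : Type} [CommRing O] [IsDomain O]
    [IsPrincipalIdealRing O] [Coef O] {P L : Type} [Fintype P] [DecidableEq P] [AddCommGroup L]
    [Module.Free ℤ L] [Module.Finite ℤ L] {phi : L →+ (P → ℤ)} {D : AO O L} {S : L} {n : ℤ}
    {q : O[X]} (hDD : DD phi D) (hrk : 2 ≤ Module.finrank ℤ L) (hS : Ray D S)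
    (hq : D.coeff 0 = LaurentPolynomial.T n * toLaurent q) (hqz : ZF (q.map Coef.emb)) :
    ∃ (m : ℤ) (f : O[X]), D.coeff S = LaurentPolynomial.T m * toLaurent f ∧ f.coeff 0 ≠ 0 ∧
      (∀ z : ℂ, ‖z‖ ≤ 1 → (q.map (Coef.emb : O →+* ℂ)).eval z ≠ 0) ∧
      (∀ z : ℂ, ‖z‖ = 1 → ‖(f.map (Coef.emb : O →+* ℂ)).eval z‖ ≤
        ‖(q.map (Coef.emb : O →+* ℂ)).eval z‖) ∧
      ∀ z : ℂ, ‖z‖ < 1 → ‖(f.map (Coef.emb : O →+* ℂ)).eval z‖ <
        ‖(q.map (Coef.emb : O →+* ℂ)).eval z‖ := by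
  obtain ⟨hnz, -, -, -, -, hlt⟩ := hE2 O P L phi D hDD hrk
  obtain ⟨hle, hne⟩ := hlt S hS
  have hF : D.coeff S ≠ 0 := hS.1
  obtain ⟨m, f, hm, hf0⟩ := exists_normal (D.coeff S) hF
  rw [hm, hq] at hle hne
  rw [hq] at hnz
  obtain ⟨hnz', hle', hne'⟩ := to_poly n m q f hnz hle hne
  have hqcl : ∀ z : ℂ, ‖z‖ ≤ 1 → (q.map (Coef.emb : O →+* ℂ)).eval z ≠ 0 := by
    intro z hz
    rcases lt_or_eq_of_le hz with h1 | h1
    · exact hqz z h1
    · exact hnz' z h1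
  exact ⟨m, f, hm, hf0, hqcl, hle', hVZ _ _ hqcl hle' hne'⟩

theorem int_of_norm_lt_two {x : ℤ} (h0 : x ≠ 0) (h : ‖(Coef.emb x : ℂ)‖ < 2) :
    x = 1 ∨ x = -1 := by
  rw [embZ, Complex.norm_intCast] at h
  have h1 : |x| < 2 := by exact_mod_cast h
  have h2 := abs_pos.mpr h0
  exact eq_or_eq_neg_of_abs_eq (by omega)

/-- Row BP_V2. -/
theorem bv2 (hE2 : E2S) (hVZ : VZS) (hU : UnitRS) (hZ : V1zS) : Bv2S := by
  intro P L _ _ _ _ _ phi G w p hDD hV hrk _ hw hp0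
  have hDD' : DD phi (cst (w : RO ℤ) * G) :=
    H78.dd_cst w.isUnit (fun z => (w.isUnit.map (evR z)).ne_zero) hDD
  have hD0 : (cst (w : RO ℤ) * G).coeff 0 = LaurentPolynomial.T 0 * toLaurent p := by
    rw [H78.cstm, LaurentPolynomial.T_zero, one_mul, hw]
  have hpne : p.coeff 0 ≠ 0 := by rw [hp0]; norm_num
  obtain ⟨hpz, -⟩ := zf_of_unit hU hV hw hpne
  obtain ⟨S, hS⟩ : ∃ S, Ray (cst (w : RO ℤ) * G) S := by
    by_contra h
    push Not at h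
    obtain ⟨-, -, -, -, hray, -⟩ := hE2 ℤ P L phi _ hDD' (by omega)
    have h1 : {b | Ray (cst (w : RO ℤ) * G) b} = ∅ := Set.eq_empty_of_forall_notMem h
    have h2 : rk (∅ : Set L) = 0 := by
      unfold rk
      rw [Submodule.span_empty]
      exact finrank_bot ℤ L
    rw [h1, h2, hrk] at hray
    omega
  obtain ⟨m, f, hm, hf0, hqcl, hle, hlt⟩ := ray_poly hE2 hVZ hDD' (by omega) hS hD0 hpz
  have hf2 : ‖(Coef.emb (f.coeff 0) : ℂ)‖ < 2 := by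
    have h1 := hlt 0 (by simp)
    rw [← coeff_zero_eq_eval_zero, ← coeff_zero_eq_eval_zero, coeff_map, coeff_map, hp0] at h1
    rw [embZ (2 : ℤ)] at h1
    simpa using h1
  obtain ⟨u, hu⟩ : ∃ u : ℤˣ, (u : ℤ) * f.coeff 0 = -1 := by
    rcases int_of_norm_lt_two hf0 hf2 with h1 | h1
    · exact ⟨-1, by rw [h1]; norm_num⟩
    · exact ⟨1, by rw [h1]; norm_num⟩
  have hu1 : ‖(Coef.emb (u : ℤ) : ℂ)‖ = 1 := by
    rw [embZ, Complex.norm_intCast]
    rcases Int.units_eq_one_or u with h | h <;> rw [h] <;> norm_num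
  have h1 := add_load p f 0 m u 0
  rw [Nat.cast_zero, add_zero, pow_zero, mul_one, ← hm, ← hD0] at h1
  have hz : ZF ((p + C (u : ℤ) * f).map Coef.emb) := by
    intro z hz h0
    rw [Polynomial.map_add, Polynomial.map_mul, map_C, eval_add, eval_mul, eval_C] at h0
    have h2 : (p.map (Coef.emb : ℤ →+* ℂ)).eval z =
        -(Coef.emb (u : ℤ) * (f.map (Coef.emb : ℤ →+* ℂ)).eval z) :=
      eq_neg_of_add_eq_zero_left h0
    have h3 := hlt z hz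
    rw [h2, norm_neg, norm_mul, hu1, one_mul] at h3
    exact lt_irrefl _ h3
  have hv0 : (p + C (u : ℤ) * f).coeff 0 = 1 := by
    rw [coeff_add, coeff_C_mul, hu, hp0]
    norm_num
  have hN : Module.finrank ℤ L + 1 = 2 * 2 := by omega
  rcases hZ P L phi _ S _ 0 p _ 2 hDD' (by omega) hS hD0 h1 hpz hz hv0 (by rw [hp0]; rfl) hN with
    ⟨-, h2⟩ | ⟨d, t, hd, -, ⟨-, h2⟩ | ⟨-, h2⟩⟩
  · exact ⟨1, 0, le_rfl, by rw [h2, C_0, zero_mul, add_zero]; rfl⟩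
  · exact ⟨d, t, hd, by rw [h2]; rfl⟩
  · refine ⟨d, -t, hd, ?_⟩
    rw [h2]
    have h3 : (((2 : ℕ) : ℤ) - 1) * t = t := by push_cast; ring
    rw [h3, C_neg, neg_mul, ← sub_eq_add_neg]
    rfl

end Pool.Agent.B5.BP57
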