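import Pool.Agent.Lib.MP_b5021c_nt.E.H61.Inj
import Pool.Agent.Lib.MP_b5021c_nt.E.H61.Fsp
import Pool.Agent.Lib.MP_b5021c_nt.IfaceE0
import Pool.Agent.Lib.MP_b5021c_nt.IfaceE4
import Pool.Agent.Lib.MP_b5021c_nt.IfaceE5T
import Pool.Agent.Lib.MP_b5021c_nt.IfaceE6
import Pool.Agent.Lib.MP_b5021c_nt.H47.Mut

/-!
# Board b5, BpS: mutual rays with good ports (no facet ports elsewhere)

`ImS phi S0`, `ImS phi S1`: the two rays span an exposed face (`twg`).  If moreover the facets
through `S0` are ports then the ports outside both rays are injective modulo the two rays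
(`inj2g`).  `mugg`: the second ray after the first closing.
-/

namespace Pool.Agent.B5.BP57

open Pool.Agent.B5
open Pool.Agent.B5.H61 (exists_port smul_cancel full_index span_map_mem)
open scoped LaurentPolynomial

section

variable {O : Type} [CommRing O] [IsDomain O] [IsPrincipalIdealRing O] [Coef O]
  {P L : Type} [Fintype P] [DecidableEq P] [AddCommGroup L] [Module.Free ℤ L]
  [Module.Finite ℤ L] {phi : L →+ (P → ℤ)} {D : AO O L}

/-- One half of TWF: exponents in `S0 ∪ S1` outside the plane are in `US`. -/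
theorem twg_aux (hF1 : F1S) {S0 S1 : L} {e0 : (RO O)ˣ} (hD : DD phi D) (hS0 : Ray D S0)
    (hI1 : ImS phi S1) (a : L) (ha : a ∈ supp D)
    (hout : ∀ i, phi S0 i = 0 → phi S1 i = 0 → phi a i = 0)
    (hK : ¬ ∃ k l : ℤ, a = k • S0 + l • S1) : a ∈ US e0 S0 D := by
  by_contra hcon
  have hb0 := hD.bin S0 hS0.1
  have hba := hD.bin a ha
  have hF := hF1 O P L phi D S0 e0 hD.inj hD.bin hb0 hS0.2.1
  obtain ⟨hA, hB⟩ := hF a hcon
  by_cases hd : ∀ i, phi S0 i = 1 → phi a i = 0
  · -- disjoint from `S0`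
    obtain ⟨k, hk⟩ := hI1 a (by
      intro i hi
      rcases hb0 i with h | h
      · exact hout i h hi
      · exact hd i h)
    exact hK ⟨0, k, by rw [hk, zero_smul, zero_add]⟩
  · push Not at hd
    obtain ⟨i, hi, hai⟩ := hd
    have hai1 : phi a i = 1 := (hba i).resolve_left hai
    by_cases hd2 : ∃ i, phi a i = 0 ∧ phi S0 i = 1
    · exact ha (hA ⟨i, hai1, hi⟩ hd2)
    · push Not at hd2
      -- `a` contains `S0`
      have hsub : ∀ j, phi S0 j = 1 → phi a j = 1 := by
        intro j hj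
        rcases hba j with h | h
        · exact absurd hj (hd2 j h)
        · exact h
      have hcon' : a - S0 ∉ US e0 S0 D := by
        intro h
        refine hcon ?_
        have hS : S0 ∈ US e0 S0 D := by
          refine ⟨1, one_ne_zero, ?_⟩
          rw [one_smul]
          exact Submodule.subset_span (Set.mem_insert _ _)
        have := Submodule.add_mem _ h hS
        rwa [sub_add_cancel] at this
      obtain ⟨_, hB'⟩ := hF (a - S0) hcon'
      have hB2 := hB' (by
        intro j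
        rcases hb0 j with h | h
        · exact Or.inr h
        · left
          rw [map_sub, Pi.sub_apply, hsub j h, h, sub_self])
      rw [sub_add_cancel] at hB2
      have ha' : a - S0 ∈ supp D := by
        intro h
        rw [h, zero_add] at hB2
        exact ha ((Units.mul_right_eq_zero e0).mp hB2)
      obtain ⟨k, hk⟩ := hI1 (a - S0) (by
        intro j hj
        rw [map_sub, Pi.sub_apply]
        rcases hb0 j with h | h
        · rw [h, hout j h hj, sub_self]
        · rw [hsub j h, h, sub_self])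
      exact hK ⟨1, k, by rw [one_smul, ← hk]; abel⟩

/-- mutual rays with injective outside ports span a two-dimensional face. -/
theorem twg (hD2 : D2S) (hF1 : F1S) (hF2 : F2S) {S0 S1 : L} {e0 e1 : (RO O)ˣ} (hD : DD phi D)
    (hm : Mut D S0 S1 e0 e1) (hI0 : ImS phi S0) (hI1 : ImS phi S1) :
    (∀ i, phi S0 i = 0 ∨ phi S1 i = 0) ∧
      ∃ lam : L →+ ℤ, lam S0 = 0 ∧ lam S1 = 0 ∧
        ∀ a ∈ supp D, a ≠ 0 → a ≠ S0 → a ≠ S1 → a ≠ S0 + S1 → 0 < lam a := by
  obtain ⟨hS0, hS1, hm0, hm1⟩ := hm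
  classical
  have hdis := hF2 O P L phi D S0 S1 e1 hD.inj hD.bin hS0 hS1 hm1
  refine ⟨hdis, ?_⟩
  have hb0 := hD.bin S0 hS0.1
  have hb1 := hD.bin S1 hS1.1
  obtain ⟨i0, hi0⟩ := exists_port hD.inj hb0 hS0.2.1
  obtain ⟨i1, hi1⟩ := exists_port hD.inj hb1 hS1.2.1
  have hi01 : phi S1 i0 = 0 := by
    rcases hdis i0 with h | h
    · rw [hi0] at h; omega
    · exact h
  have hi10 : phi S0 i1 = 0 := by
    rcases hdis i1 with h | h
    · exact h
    · rw [hi1] at h; omega
  set K : Submodule ℤ L := Submodule.span ℤ {S0, S1} with hK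
  have memK : ∀ a, a ∈ K ↔ ∃ k l : ℤ, a = k • S0 + l • S1 := by
    intro a
    rw [hK, Submodule.mem_span_pair]
    constructor
    · rintro ⟨k, l, h⟩
      exact ⟨k, l, h.symm⟩
    · rintro ⟨k, l, h⟩
      exact ⟨k, l, h.symm⟩
  have hinter : ∀ a ∈ supp D, a ∈ K → a = 0 ∨ a = S0 ∨ a = S1 ∨ a = S0 + S1 := by
    intro a ha haK
    obtain ⟨k, l, hkl⟩ := (memK a).mp haK
    have hba := hD.bin a ha
    have hk : phi a i0 = k := by
      rw [hkl, map_add, map_zsmul, map_zsmul, Pi.add_apply, Pi.smul_apply, Pi.smul_apply, hi0,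
        hi01]
      simp
    have hl : phi a i1 = l := by
      rw [hkl, map_add, map_zsmul, map_zsmul, Pi.add_apply, Pi.smul_apply, Pi.smul_apply, hi10,
        hi1]
      simp
    rcases hba i0 with h2 | h2 <;> rcases hba i1 with h3 | h3
    · left
      rw [hkl, ← hk, ← hl, h2, h3]; simp
    · right; right; left
      rw [hkl, ← hk, ← hl, h2, h3]; simp
    · right; left
      rw [hkl, ← hk, ← hl, h2, h3]; simp
    · right; right; right
      rw [hkl, ← hk, ← hl, h2, h3]; simp
  set A : Finset L := D.coeff.support.filter (fun a => a ∉ K) with hA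
  have memA : ∀ a, a ∈ A ↔ a ∈ supp D ∧ a ∉ K := by
    intro a
    simp only [hA, Finset.mem_filter, Finsupp.mem_support_iff, supp, Set.mem_ofPred_eq]
  rcases hD2 L A K with ⟨lam, hlK, hlA⟩ | ⟨c, ⟨a0, ha0, hca0⟩, hc⟩
  · refine ⟨lam, hlK S0 ((memK _).mpr ⟨1, 0, by simp⟩), hlK S1 ((memK _).mpr ⟨0, 1, by simp⟩),
      ?_⟩
    intro a ha h0 h1' h2 h3
    refine hlA a ((memA a).mpr ⟨ha, fun haK => ?_⟩)
    rcases hinter a ha haK with h | h | h | h
    · exact h0 h
    · exact h1' h
    · exact h2 h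
    · exact h3 h
  · exfalso
    obtain ⟨al, be, hab⟩ := (memK _).mp hc
    -- exponents with `c a ≠ 0` lie in `S0 ∪ S1`
    have hout : ∀ a ∈ A, c a ≠ 0 → ∀ i, phi S0 i = 0 → phi S1 i = 0 → phi a i = 0 := by
      intro a ha hca i hi hi'
      have h2 : ∑ x ∈ A, (c x : ℤ) * phi x i = 0 := by
        have := congrArg (fun x => phi x i) hab
        simp only [map_add, map_zsmul, Pi.add_apply, Pi.smul_apply, hi, hi', smul_zero, add_zero,
          map_sum, Finset.sum_apply, map_nsmul] at this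
        rw [← this]
        refine Finset.sum_congr rfl fun x _ => ?_
        rw [nsmul_eq_mul]
      have h3 : ∀ x ∈ A, 0 ≤ (c x : ℤ) * phi x i := by
        intro x hx
        have := hD.bin x ((memA x).mp hx).1 i
        rcases this with h | h <;> rw [h] <;> simp
      have h4 := (Finset.sum_eq_zero_iff_of_nonneg h3).mp h2 a ha
      rcases mul_eq_zero.mp h4 with h | h
      · exact absurd (by exact_mod_cast h) hca
      · exact h
    have hin0 : ∀ a ∈ A, c a ≠ 0 → a ∈ US e0 S0 D := by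
      intro a ha hca
      refine twg_aux hF1 hD hS0 hI1 a ((memA a).mp ha).1
        (hout a ha hca) (fun h => ((memA a).mp ha).2 ((memK a).mpr h))
    have hin1 : ∀ a ∈ A, c a ≠ 0 → a ∈ US e1 S1 D := by
      intro a ha hca
      refine twg_aux hF1 hD hS1 hI0 a ((memA a).mp ha).1
        (fun i h h' => hout a ha hca i h' h) ?_
      rintro ⟨k, l, h⟩
      exact ((memA a).mp ha).2 ((memK a).mpr ⟨l, k, by rw [h, add_comm]⟩)
    have hsum0 : ∑ a ∈ A, c a • a ∈ US e0 S0 D := by
      refine Submodule.sum_mem _ fun a ha => ?_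
      by_cases hca : c a = 0
      · rw [hca, zero_smul]; exact Submodule.zero_mem _
      · rw [← natCast_zsmul]
        exact Submodule.smul_mem _ _ (hin0 a ha hca)
    have hsum1 : ∑ a ∈ A, c a • a ∈ US e1 S1 D := by
      refine Submodule.sum_mem _ fun a ha => ?_
      by_cases hca : c a = 0
      · rw [hca, zero_smul]; exact Submodule.zero_mem _
      · rw [← natCast_zsmul]
        exact Submodule.smul_mem _ _ (hin1 a ha hca)
    have satUS : ∀ (e : (RO O)ˣ) (S : L) (n : ℤ) (x : L), n ≠ 0 → n • x ∈ US e S D →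
        x ∈ US e S D := by
      rintro e S n x hn ⟨m, hm, hmx⟩
      exact ⟨m * n, mul_ne_zero hm hn, by rw [mul_smul]; exact hmx⟩
    have selfUS : ∀ (e : (RO O)ˣ) (S : L), S ∈ US e S D := by
      intro e S
      refine ⟨1, one_ne_zero, ?_⟩
      rw [one_smul]
      exact Submodule.subset_span (Set.mem_insert _ _)
    have hbe : be = 0 := by
      by_contra hbe
      refine hm0 (satUS e0 S0 be S1 hbe ?_)
      have := Submodule.sub_mem _ hsum0 (Submodule.smul_mem _ al (selfUS e0 S0))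
      rw [hab] at this
      rwa [add_sub_cancel_left] at this
    have hal : al = 0 := by
      by_contra hal
      refine hm1 (satUS e1 S1 al S0 hal ?_)
      have := Submodule.sub_mem _ hsum1 (Submodule.smul_mem _ be (selfUS e1 S1))
      rw [hab] at this
      rwa [add_sub_cancel_right] at this
    rw [hal, hbe, zero_smul, zero_smul, add_zero] at hab
    -- positivity
    have ha0' := (memA a0).mp ha0
    have ha0ne : a0 ≠ 0 := fun h => ha0'.2 (by rw [h]; exact Submodule.zero_mem _)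
    obtain ⟨i, hi⟩ := exists_port hD.inj (hD.bin a0 ha0'.1) ha0ne
    have h2 : ∑ x ∈ A, (c x : ℤ) * phi x i = 0 := by
      have := congrArg (fun x => phi x i) hab
      simp only [map_sum, Finset.sum_apply, map_nsmul, Pi.smul_apply, map_zero,
        Pi.zero_apply] at this
      rw [← this]
      refine Finset.sum_congr rfl fun x _ => ?_
      rw [nsmul_eq_mul]
    have h3 : ∀ x ∈ A, 0 ≤ (c x : ℤ) * phi x i := by
      intro x hx
      have := hD.bin x ((memA x).mp hx).1 i
      rcases this with h | h <;> rw [h] <;> simp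
    have h4 := (Finset.sum_eq_zero_iff_of_nonneg h3).mp h2 a0 ha0
    rw [hi, mul_one] at h4
    exact hca0 (by exact_mod_cast h4)

/-- a facet through a face which sees `b`. -/
theorem fspg (hD3 : D3S) (hRk : RkS) (hspn : rk (supp D) = Module.finrank ℤ L)
    {K : Submodule ℤ L} {lam : L →+ ℤ} (hsat : Sat K) (hlam : ∀ a ∈ K, lam a = 0)
    (hpos : ∀ a ∈ supp D, a ∉ K → 0 < lam a)
    (hrk : rk {a | a ∈ supp D ∧ a ∈ K} = Module.finrank ℤ K) {b : L} (hb : b ∉ K) :
    ∃ mu : L →+ ℤ, FacF (supp D) mu ∧ (∀ a ∈ K, mu a = 0) ∧ mu b ≠ 0 := by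
  classical
  -- the quotient lattice
  have htf : ∀ (n : ℤ) (q : L ⧸ K), n ≠ 0 → n • q = 0 → q = 0 := by
    intro n q hn hq
    obtain ⟨a, rfl⟩ := Submodule.Quotient.mk_surjective K q
    have h1 : (Submodule.Quotient.mk (n • a) : L ⧸ K) = 0 := hq
    rw [Submodule.Quotient.mk_eq_zero] at h1
    rw [Submodule.Quotient.mk_eq_zero]
    exact hsat n a hn h1
  have : Module.Finite ℤ (L ⧸ K) := inferInstance
  have : Module.IsTorsionFree ℤ (L ⧸ K) := by
    refine Module.isTorsionFree_iff_smul_eq_zero.mpr ?_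
    intro n q hnq
    by_cases hn : n = 0
    · exact Or.inl hn
    · exact Or.inr (htf n q hn hnq)
  have : Module.Free ℤ (L ⧸ K) := inferInstance
  set f : L →+ (L ⧸ K) := K.mkQ.toAddMonoidHom with hf
  have hf0 : ∀ a, f a = 0 ↔ a ∈ K := fun a => Submodule.Quotient.mk_eq_zero K
  have hfs : Function.Surjective f := Submodule.mkQ_surjective K
  set A : Finset (L ⧸ K) := (D.coeff.support.filter (fun a => a ∉ K)).image f with hA
  have memA : ∀ q, q ∈ A ↔ ∃ a, a ∈ supp D ∧ a ∉ K ∧ f a = q := by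
    intro q
    simp only [hA, Finset.mem_image, Finset.mem_filter, Finsupp.mem_support_iff, supp,
      Set.mem_ofPred_eq, and_assoc]
  -- the positive functional
  have hle : K ≤ LinearMap.ker lam.toIntLinearMap := fun a ha => hlam a ha
  have hposQ : ∃ lam' : (L ⧸ K) →+ ℤ, ∀ q ∈ A, 0 < lam' q := by
    refine ⟨(K.liftQ lam.toIntLinearMap hle).toAddMonoidHom, ?_⟩
    intro q hq
    obtain ⟨a, ha, haK, rfl⟩ := (memA q).mp hq
    exact hpos a ha haK
  obtain ⟨k1, kmono, kle, kinj, kimg, kun, ksing, kins, kspan, kprod⟩ := hRk L L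
  obtain ⟨q1, qmono, qle, qinj, qimg, qun, qsing, qins, qspan, qprod⟩ := hRk (L ⧸ K) (L ⧸ K)
  -- supp D spans up to torsion
  have hDtop : ∀ x : L, ∃ n : ℤ, n ≠ 0 ∧ n • x ∈ Submodule.span ℤ (supp D) := by
    intro x
    refine full_index ⊤ (supp D) (fun _ _ => Submodule.mem_top) ?_ x Submodule.mem_top
    rw [hspn, finrank_top]
  have hAfull : rk (A : Set (L ⧸ K)) = Module.finrank ℤ (L ⧸ K) := by
    refine le_antisymm (qle _) ?_
    have h1 : rk (Set.univ : Set (L ⧸ K)) = Module.finrank ℤ (L ⧸ K) := by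
      unfold rk
      rw [Submodule.span_univ, finrank_top]
    rw [← h1]
    refine qspan _ _ ?_
    intro q _
    obtain ⟨x, rfl⟩ := hfs q
    obtain ⟨n, hn, hnx⟩ := hDtop x
    refine ⟨n, hn, ?_⟩
    have h2 : f (n • x) ∈ Submodule.map f.toIntLinearMap (Submodule.span ℤ (supp D)) :=
      Submodule.mem_map.mpr ⟨_, hnx, rfl⟩
    rw [Submodule.map_span] at h2
    rw [map_zsmul] at h2
    refine (Submodule.span_le.mpr ?_) h2
    rintro _ ⟨a, ha, rfl⟩
    by_cases haK : a ∈ K
    · have : f.toIntLinearMap a = 0 := (hf0 a).mpr haK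
      rw [this]
      exact Submodule.zero_mem _
    · exact Submodule.subset_span ((memA _).mpr ⟨a, ha, haK, rfl⟩)
  have hfb : f b ≠ 0 := fun h => hb ((hf0 b).mp h)
  obtain ⟨lam', hl0, hle0, hlr⟩ := hD3 (L ⧸ K) A (f b) hposQ hAfull hfb
  set mu : L →+ ℤ := lam'.comp f with hmu
  have hmub : mu b ≠ 0 := hle0
  have hmu0 : mu ≠ 0 := by
    intro h
    exact hmub (by rw [h]; rfl)
  have hmuK : ∀ a ∈ K, mu a = 0 := by
    intro a ha
    change lam' (f a) = 0
    rw [(hf0 a).mpr ha, map_zero]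
  have hNn : Nn mu D := by
    intro a ha
    by_cases haK : a ∈ K
    · exact (hmuK a haK).ge
    · exact hl0 _ ((memA _).mpr ⟨a, Finsupp.mem_support_iff.mp ha, haK, rfl⟩)
  set T : Set L := {a | a ∈ supp D ∧ mu a = 0} with hT
  have hspanT : ∀ x ∈ Ker mu, ∃ n : ℤ, n ≠ 0 ∧ n • x ∈ Submodule.span ℤ T := by
    intro x hx
    have hx0 : lam' (f x) = 0 := hx
    have hlam'0 : lam' ≠ 0 := by
      intro h
      exact hle0 (by rw [h]; rfl)
    obtain ⟨n1, hn1, hn1x⟩ := full_index (Ker lam') {q | q ∈ A ∧ lam' q = 0}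
      (fun q hq => hq.2) (by have := q1 lam' hlam'0; omega) (f x) hx0
    have hsub : Submodule.span ℤ {q | q ∈ A ∧ lam' q = 0} ≤ Submodule.span ℤ (f '' T) := by
      refine Submodule.span_mono ?_
      rintro q ⟨hq, hq0⟩
      obtain ⟨a, ha, haK, rfl⟩ := (memA q).mp hq
      exact ⟨a, ⟨ha, hq0⟩, rfl⟩
    obtain ⟨y, hy, hyx⟩ := span_map_mem f T (hsub hn1x)
    have hK : n1 • x - y ∈ K := by
      rw [← hf0, map_sub, map_zsmul, hyx, sub_self]
    obtain ⟨n2, hn2, hn2x⟩ := full_index K {a | a ∈ supp D ∧ a ∈ K} (fun a ha => ha.2) hrk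
      (n1 • x - y) hK
    refine ⟨n2 * n1, mul_ne_zero hn2 hn1, ?_⟩
    have h3 : (n2 * n1) • x = n2 • (n1 • x - y) + n2 • y := by
      rw [smul_sub, mul_smul]
      abel
    rw [h3]
    refine Submodule.add_mem _ ?_ (Submodule.smul_mem _ _ hy)
    refine (Submodule.span_mono ?_) hn2x
    rintro a ⟨ha, haK⟩
    exact ⟨ha, hmuK a haK⟩
  have hrT : rk T + 1 = Module.finrank ℤ L := by
    have h1 := k1 mu hmu0
    have h2 : rk ((Ker mu : Submodule ℤ L) : Set L) = Module.finrank ℤ (Ker mu) := by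
      unfold rk
      rw [Submodule.span_eq]
    have h3 : rk ((Ker mu : Submodule ℤ L) : Set L) ≤ rk T := kspan _ _ hspanT
    have h4 : rk T ≤ rk ((Ker mu : Submodule ℤ L) : Set L) := kmono _ _ (fun a ha => ha.2)
    omega
  exact ⟨mu, ⟨hmu0, fun a ha => hNn a (Finsupp.mem_support_iff.mpr ha), hrT⟩, hmuK, hmub⟩

/-- the facets through `S0` are ports: the ports outside two adjacent disjoint rays are injective
modulo the two rays. -/
theorem inj2g (hD3 : D3S) (hRk : RkS) {S0 S1 : L} (hD : DD phi D) (hS0 : Ray D S0)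
    (hS1 : Ray D S1) (hdis : ∀ i, phi S0 i = 0 ∨ phi S1 i = 0) {lam : L →+ ℤ}
    (hl0 : lam S0 = 0) (hl1 : lam S1 = 0)
    (hl : ∀ a ∈ supp D, a ≠ 0 → a ≠ S0 → a ≠ S1 → a ≠ S0 + S1 → 0 < lam a)
    (hpt : ∀ mu : L →+ ℤ, FacF (supp D) mu → mu S0 = 0 →
      ∃ (i : P) (m : ℤ), 0 < m ∧ ∀ a, mu a = m * phi a i) (b : L)
    (hb : ∀ i, phi S0 i = 0 → phi S1 i = 0 → phi b i = 0) :
    ∃ k l : ℤ, b = k • S0 + l • S1 := by
  classical
  have hb0 := hD.bin S0 hS0.1
  have hb1 := hD.bin S1 hS1.1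
  obtain ⟨i0, hi0⟩ := exists_port hD.inj hb0 hS0.2.1
  obtain ⟨i1, hi1⟩ := exists_port hD.inj hb1 hS1.2.1
  have hi01 : phi S1 i0 = 0 := by
    rcases hdis i0 with h | h
    · rw [hi0] at h; omega
    · exact h
  have hi10 : phi S0 i1 = 0 := by
    rcases hdis i1 with h | h
    · exact h
    · rw [hi1] at h; omega
  set K : Submodule ℤ L := Submodule.span ℤ {S0, S1} with hK
  have memK : ∀ a, a ∈ K ↔ ∃ k l : ℤ, a = k • S0 + l • S1 := by
    intro a
    rw [hK, Submodule.mem_span_pair]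
    constructor
    · rintro ⟨k, l, h⟩
      exact ⟨k, l, h.symm⟩
    · rintro ⟨k, l, h⟩
      exact ⟨k, l, h.symm⟩
  have hS0K : S0 ∈ K := (memK _).mpr ⟨1, 0, by simp⟩
  have hS1K : S1 ∈ K := (memK _).mpr ⟨0, 1, by simp⟩
  have hsat : Sat K := by
    intro n a hn ha
    obtain ⟨k, l, hkl⟩ := (memK _).mp ha
    have hk : n * phi a i0 = k := by
      have := congrArg (fun x => phi x i0) hkl
      simp only [map_add, map_zsmul, Pi.add_apply, Pi.smul_apply, hi0, hi01, smul_eq_mul,
        mul_one, mul_zero, add_zero] at this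
      exact this
    have hl' : n * phi a i1 = l := by
      have := congrArg (fun x => phi x i1) hkl
      simp only [map_add, map_zsmul, Pi.add_apply, Pi.smul_apply, hi1, hi10, smul_eq_mul,
        mul_one, mul_zero, zero_add] at this
      exact this
    have h2 : n • (a - (phi a i0 • S0 + phi a i1 • S1)) = 0 := by
      rw [smul_sub, smul_add, smul_smul, smul_smul, hk, hl', hkl, sub_self]
    exact (memK a).mpr ⟨_, _, sub_eq_zero.mp (smul_cancel hn h2)⟩
  have hrk : rk {a | a ∈ supp D ∧ a ∈ K} = Module.finrank ℤ K := by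
    have h1 : Submodule.span ℤ {a | a ∈ supp D ∧ a ∈ K} = K := by
      refine le_antisymm (Submodule.span_le.mpr fun a ha => ha.2) ?_
      refine Submodule.span_le.mpr ?_
      intro a ha
      rcases ha with h | h
      · rw [h]; exact Submodule.subset_span ⟨hS0.1, hS0K⟩
      · rw [Set.mem_singleton_iff.mp h]; exact Submodule.subset_span ⟨hS1.1, hS1K⟩
    unfold rk
    rw [h1]
  refine (memK b).mp ?_
  by_contra hbK
  obtain ⟨mu, hmu, hmK, hmb⟩ := fspg hD3 hRk hD.spn (K := K) (lam := lam) hsat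
    (fun a ha => by
      obtain ⟨k, l, hkl⟩ := (memK a).mp ha
      rw [hkl, map_add, map_zsmul, map_zsmul, hl0, hl1, smul_zero, smul_zero, add_zero])
    (fun a ha haK => hl a ha (fun h => haK (by rw [h]; exact Submodule.zero_mem _))
      (fun h => haK (by rw [h]; exact hS0K)) (fun h => haK (by rw [h]; exact hS1K))
      (fun h => haK (by rw [h]; exact Submodule.add_mem _ hS0K hS1K)))
    hrk hbK
  obtain ⟨i, m, hm, hmi⟩ := hpt mu hmu (hmK S0 hS0K)
  have hz : ∀ a, mu a = 0 → phi a i = 0 := fun a ha => by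
    rw [hmi] at ha
    exact (mul_eq_zero.mp ha).resolve_left hm.ne'
  apply hmb
  rw [hmi, hb i (hz _ (hmK S0 hS0K)) (hz _ (hmK S1 hS1K)), mul_zero]

/-- the second ray after the first closing. -/
theorem mugg (hD2 : D2S) (hF1 : F1S) (hF2 : F2S) (hMco : McoS) {S0 S1 : L} {e0 e1 : (RO O)ˣ}
    (hD : DD phi D) (hm : Mut D S0 S1 e0 e1) (hI0 : ImS phi S0) (hI1 : ImS phi S1) {i0 : P}
    (h0 : co phi i0 S0 = 1) {S1' : Ker (co phi i0)} (hS1 : (S1' : L) = S1) {kap : (RO O)ˣ}
    (hk : kap ≠ 1) :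
    Ray (cl (co phi i0) S0 h0 (kap * e0) D) S1' ∧
      (cl (co phi i0) S0 h0 (kap * e0) D).coeff 0 =
        D.coeff 0 + ((kap * e0 : (RO O)ˣ) : RO O) * D.coeff S0 ∧
      (e1 : RO O) * (cl (co phi i0) S0 h0 (kap * e0) D).coeff S1' =
        (1 - (kap : RO O)) * ((e0 : RO O) * D.coeff S0) ∧
      (e0 : RO O) * D.coeff S0 = (e1 : RO O) * D.coeff S1 := by
  obtain ⟨hdis, hE1, hE01, -⟩ := hMco O P L phi D S0 S1 e0 e1 hD.inj hD.bin hm
  obtain ⟨-, lam, hl0, hl1, hlam⟩ := twg hD2 hF1 hF2 hD hm hI0 hI1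
  obtain ⟨hr0, hr1, hm0, hm1⟩ := hm
  have hi0 : phi S0 i0 = 1 := h0
  have hi1 : phi S1 i0 = 0 := by
    rcases hdis i0 with h | h
    · rw [hi0] at h
      exact absurd h one_ne_zero
    · exact h
  -- coefficients of the closed element
  have hco : ∀ a : Ker (co phi i0), (cl (co phi i0) S0 h0 (kap * e0) D).coeff a =
      D.coeff (a : L) + ((kap * e0 : (RO O)ˣ) : RO O) * D.coeff ((a : L) + S0) := by
    intro a
    exact H47.cl_coeff_bin (co phi i0) S0 h0 (kap * e0) D (fun a ha => hD.bin a ha i0) a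
  have hkey : (e1 : RO O) * (cl (co phi i0) S0 h0 (kap * e0) D).coeff S1' =
      (1 - (kap : RO O)) * ((e0 : RO O) * D.coeff S0) := by
    rw [hco, hS1, mul_add, hE1, Units.val_mul]
    have h1 : (e1 : RO O) * ((kap : RO O) * (e0 : RO O) * D.coeff (S1 + S0)) =
        (kap : RO O) * ((e0 : RO O) * (e1 : RO O) * D.coeff (S0 + S1)) := by
      rw [add_comm S1 S0]
      ring
    rw [h1, hE01]
    ring
  have hkey0 : (cl (co phi i0) S0 h0 (kap * e0) D).coeff 0 =
      D.coeff 0 + ((kap * e0 : (RO O)ˣ) : RO O) * D.coeff S0 := by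
    rw [hco]
    have h1 : ((0 : Ker (co phi i0)) : L) = 0 := rfl
    rw [h1, zero_add]
  have hne : (1 - (kap : RO O)) * ((e0 : RO O) * D.coeff S0) ≠ 0 := by
    refine mul_ne_zero ?_ (mul_ne_zero e0.ne_zero hr0.1)
    rw [sub_ne_zero]
    intro h
    apply hk
    apply Units.ext
    rw [Units.val_one]
    exact h.symm
  have hT0 : (cl (co phi i0) S0 h0 (kap * e0) D).coeff S1' ≠ 0 := by
    intro h
    apply hne
    rw [← hkey, h, mul_zero]
  refine ⟨⟨hT0, ?_, lam.comp (incl _), ?_, ?_⟩, hkey0, hkey, hE1.symm⟩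
  · intro h
    have h2 := hS1
    rw [h] at h2
    exact hr1.2.1 h2.symm
  · change lam (S1' : L) = 0
    rw [hS1, hl1]
  · intro a ha ha0 haT
    change 0 < lam (a : L)
    have haK : phi (a : L) i0 = 0 := a.2
    have ha0' : (a : L) ≠ 0 := fun h => ha0 (Subtype.ext h)
    have haT' : (a : L) ≠ S1 := fun h => haT (Subtype.ext (h.trans hS1.symm))
    have h1 : (cl (co phi i0) S0 h0 (kap * e0) D).coeff a ≠ 0 := ha
    rw [hco] at h1
    by_cases h2 : D.coeff (a : L) = 0
    · rw [h2, zero_add] at h1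
      have h3 : (a : L) + S0 ∈ supp D := right_ne_zero_of_mul h1
      have h4 := hlam _ h3 (by
          intro h
          have := congrArg (fun b => phi b i0) h
          simp only [map_add, Pi.add_apply, haK, hi0, map_zero, Pi.zero_apply] at this
          omega) (by
          intro h
          exact ha0' (by
            have := add_right_cancel (h.trans (zero_add S0).symm)
            exact this)) (by
          intro h
          have := congrArg (fun b => phi b i0) h
          simp only [map_add, Pi.add_apply, haK, hi0, hi1] at this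
          omega) (by
          intro h
          rw [add_comm S0 S1] at h
          exact haT' (add_right_cancel h))
      rw [map_add, hl0, add_zero] at h4
      exact h4
    · refine hlam _ h2 ha0' ?_ haT' ?_
      · intro h
        rw [h, hi0] at haK
        exact one_ne_zero haK
      · intro h
        rw [h, map_add, Pi.add_apply, hi0, hi1] at haK
        exact one_ne_zero haK

/-- the ports outside both rays on the first kernel. -/
theorem im2g (hD2 : D2S) (hF1 : F1S) (hF2 : F2S) (hD3 : D3S) (hRk : RkS) {S0 S1 : L}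
    {e0 e1 : (RO O)ˣ} (hD : DD phi D) (hm : Mut D S0 S1 e0 e1) (hI0 : ImS phi S0)
    (hI1 : ImS phi S1)
    (hpt : ∀ mu : L →+ ℤ, FacF (supp D) mu → mu S0 = 0 →
      ∃ (i : P) (m : ℤ), 0 < m ∧ ∀ a, mu a = m * phi a i) {i0 : P}
    (h0 : co phi i0 S0 = 1) {S1' : Ker (co phi i0)} (hS1 : (S1' : L) = S1) :
    ImS (phO phi S0 i0) S1' ∧ ∃ i1, co (phO phi S0 i0) i1 S1' = 1 := by
  obtain ⟨hdis, lam, hl0, hl1, hlam⟩ := twg hD2 hF1 hF2 hD hm hI0 hI1
  obtain ⟨hr0, hr1, hm0, hm1⟩ := hm
  have hi0 : phi S0 i0 = 1 := h0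
  have hi1 : phi S1 i0 = 0 := by
    rcases hdis i0 with h | h
    · rw [hi0] at h
      exact absurd h one_ne_zero
    · exact h
  constructor
  · intro b hb
    have hbK : phi (b : L) i0 = 0 := b.2
    obtain ⟨k, l, hkl⟩ := inj2g hD3 hRk hD hr0 hr1 hdis hl0 hl1 hlam hpt (b : L) (by
      intro i h0 h1
      have h2 : phO phi S0 i0 S1' i = 0 := by
        change (if phi S0 i = 0 then phi (S1' : L) i else 0) = 0
        rw [if_pos h0, hS1, h1]
      have h3 := hb i h2
      change (if phi S0 i = 0 then phi (b : L) i else 0) = 0 at h3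
      rwa [if_pos h0] at h3)
    have hk0 : k = 0 := by
      have h1 := congrArg (fun b => phi b i0) hkl
      simp only [map_add, Pi.add_apply, map_zsmul, Pi.smul_apply, hi0, hi1, hbK, smul_eq_mul] at h1
      omega
    refine ⟨l, Subtype.ext ?_⟩
    rw [hkl, hk0, zero_smul, zero_add]
    change l • S1 = l • (S1' : L)
    rw [hS1]
  · have h1 : ∃ i, phi S1 i ≠ 0 := by
      by_contra hcon
      push Not at hcon
      apply hr1.2.1
      apply hD.inj
      rw [map_zero]
      funext i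
      exact hcon i
    obtain ⟨i, hi⟩ := h1
    have h2 : phi S0 i = 0 := (hdis i).resolve_right hi
    have h3 : phi S1 i = 1 := (hD.bin S1 hr1.1 i).resolve_left hi
    refine ⟨i, ?_⟩
    change (if phi S0 i = 0 then phi (S1' : L) i else 0) = 1
    rw [if_pos h2, hS1, h3]

end

end Pool.Agent.B5.BP57
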