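import Pool.Agent.Lib.MP_b5021c_nt.BP.H57.Ofac
import Pool.Agent.Lib.MP_b5021c_nt.BP.H57.Twg
import Pool.Agent.Lib.MP_b5021c_nt.BP.H57.Bv2
import Pool.Agent.Lib.MP_b5021c_nt.BP.H90.T2s
import Pool.Agent.Lib.MP_b5021c_nt.E.H09.Bcd
import Pool.Agent.Lib.MP_b5021c_nt.IfaceL2
import Pool.Agent.Lib.MP_b5021c_nt.IfaceE3V

/-!
# Board b5, BpS, row ETA: the closing `w^S0 = eta e0`, `eta = e^(i pi/3)`, is in `DD` over `Eis`

`E` of class `V(N)` over `ℤ`, `w E_0 = p`, `w e0 E_S0 = -g`, `p(0) = N`, `g(0) = 1`, a drop at the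
load `e0`.
-/

namespace Pool.Agent.B5.BP57

open scoped LaurentPolynomial
open Polynomial Pool.Agent.B5
open Pool.Agent.MP_b5021c_nt (Eis)
open Pool.Agent.MP_b5021c_nt.Ire (bc)
open Pool.Agent.B5.H25.Bch
open Pool.Agent.B5.BP90 (Et pE pE_inj embN et_im_ne)

/-! ## Units and divisors -/

theorem C_injL {O : Type} [CommRing O] {a b : O}
    (h : (LaurentPolynomial.C a : RO O) = LaurentPolynomial.C b) : a = b := by
  rw [← toLaurent_C, ← toLaurent_C] at h
  exact C_injective (toLaurent_injective h)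

section Gen

variable {O : Type} [CommRing O] [IsDomain O] [IsPrincipalIdealRing O] [Coef O]

/-- a divisor of a class-`V` element and of an element with a unit lowest coefficient. -/
theorem unit_of_two (hE1 : E1S) (hMV : MVS) (hM1 : M1S) (hU : UnitRS) {x Q F : RO O} {N : ℝ}
    (hQ : ClassV N Q) (hz : ∀ z : Circle, evR z Q ≠ 0) (hx : x ∣ Q) (hxF : x ∣ F) {w : (RO O)ˣ}
    {r : O[X]} (hF : (w : RO O) * F = toLaurent r) (hr : ‖(Coef.emb (r.coeff 0) : ℂ)‖ = 1) :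
    IsUnit x := by
  obtain ⟨y, rfl⟩ := hx
  obtain ⟨y', rfl⟩ := hxF
  obtain ⟨N1, -, hN1, -, -⟩ := (hE1 O).1 _ _ _ hQ
  have h1 : N1 = 1 := low_classVO hU hF hr hN1
  obtain ⟨h2, h3⟩ := (hMV O).1 _ _ hN1
  refine hM1 O x h2 (by rw [h3, h1]) fun z h4 => hz z ?_
  rw [map_mul, h4, zero_mul]

/-- polynomial data of a ray, up to units. -/
theorem ray_polyU (hE2 : E2S) (hVZ : VZS) {P L : Type} [Fintype P] [DecidableEq P]
    [AddCommGroup L] [Module.Free ℤ L] [Module.Finite ℤ L] {phi : L →+ (P → ℤ)} {D : AO O L}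
    {S : L} {w u : (RO O)ˣ} {q f : O[X]} (hDD : DD phi D) (hrk : 2 ≤ Module.finrank ℤ L)
    (hS : Ray D S) (hq : (w : RO O) * D.coeff 0 = toLaurent q)
    (hf : (w : RO O) * ((u : RO O) * D.coeff S) = -toLaurent f) (hqz : ZF (q.map Coef.emb)) :
    (∀ z : ℂ, ‖z‖ ≤ 1 → (q.map (Coef.emb : O →+* ℂ)).eval z ≠ 0) ∧
      (∀ z : ℂ, ‖z‖ = 1 → ‖(f.map (Coef.emb : O →+* ℂ)).eval z‖ ≤
        ‖(q.map (Coef.emb : O →+* ℂ)).eval z‖) ∧
      ∀ z : ℂ, ‖z‖ < 1 → ‖(f.map (Coef.emb : O →+* ℂ)).eval z‖ <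
        ‖(q.map (Coef.emb : O →+* ℂ)).eval z‖ := by
  obtain ⟨hnz, -, -, -, -, hlt⟩ := hE2 O P L phi D hDD hrk
  obtain ⟨hle, hne⟩ := hlt S hS
  have hun : ∀ (z : Circle) (v : (RO O)ˣ), ‖evR z (v : RO O)‖ = 1 := fun z v =>
    H36.norm_evR_unit z _ v.isUnit
  have e1 : ∀ z : Circle, ‖evR z (D.coeff 0)‖ = ‖evR z (LaurentPolynomial.T 0 * toLaurent q)‖ := by
    intro z
    rw [LaurentPolynomial.T_zero, one_mul, ← hq, map_mul, norm_mul, hun, one_mul]
  have e2 : ∀ z : Circle, ‖evR z (D.coeff S)‖ = ‖evR z (LaurentPolynomial.T 0 * toLaurent f)‖ := by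
    intro z
    rw [LaurentPolynomial.T_zero, one_mul, ← norm_neg (evR z (toLaurent f)), ← map_neg, ← hf,
      map_mul, map_mul, norm_mul, norm_mul, hun, hun, one_mul, one_mul]
  have hnz' : ∀ z : Circle, evR z (LaurentPolynomial.T 0 * toLaurent q) ≠ 0 := by
    intro z
    rw [← norm_pos_iff, ← e1, norm_pos_iff]
    exact hnz z
  obtain ⟨h1, h2, h3⟩ := H40.to_poly 0 0 q f hnz' (fun z => by rw [← e1, ← e2]; exact hle z) (by
    obtain ⟨z, hz⟩ := hne
    exact ⟨z, by rw [← e1, ← e2]; exact hz⟩)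
  have hqcl : ∀ z : ℂ, ‖z‖ ≤ 1 → (q.map (Coef.emb : O →+* ℂ)).eval z ≠ 0 := by
    intro z hz
    rcases lt_or_eq_of_le hz with h4 | h4
    · exact hqz z h4
    · exact h1 z h4
  exact ⟨hqcl, h2, hVZ _ _ hqcl h2 h3⟩

/-- a unit times an element with a polynomial multiple: normal form. -/
theorem nf_of_unit (hU : UnitRS) {w : (RO O)ˣ} {F : RO O} {v : O[X]}
    (h : (w : RO O) * F = toLaurent v) :
    ∃ (m : ℤ) (s : Oˣ), F = LaurentPolynomial.T m * toLaurent (C (s : O) * v) := by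
  obtain ⟨k, u, hu, h1⟩ := (hU O _).mp (w⁻¹).isUnit
  obtain ⟨s, rfl⟩ := hu
  refine ⟨k, s, ?_⟩
  have h2 : F = ((w⁻¹ : (RO O)ˣ) : RO O) * toLaurent v := by
    rw [← h, ← mul_assoc, Units.inv_mul, one_mul]
  rw [h2, h1, map_mul, toLaurent_C]
  ring

theorem norm_unit (s : Oˣ) : ‖(Coef.emb (s : O) : ℂ)‖ = 1 := by
  have h4 := Coef.one_le (s : O) s.ne_zero
  have h5 := Coef.one_le ((s⁻¹ : Oˣ) : O) (s⁻¹).ne_zero
  have h6 : ‖(Coef.emb (s : O) : ℂ)‖ * ‖(Coef.emb ((s⁻¹ : Oˣ) : O) : ℂ)‖ = 1 := by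
    rw [← norm_mul, ← map_mul, Units.mul_inv, map_one, norm_one]
  nlinarith

/-- class `V` from polynomial data. -/
theorem classV_of (hU : UnitRS) {w : (RO O)ˣ} {F : RO O} {v : O[X]}
    (h : (w : RO O) * F = toLaurent v) (h1 : 1 ≤ ‖(Coef.emb (v.coeff 0) : ℂ)‖)
    (hz : ZF (v.map Coef.emb)) : ClassV ‖(Coef.emb (v.coeff 0) : ℂ)‖ F := by
  obtain ⟨m, s, hF⟩ := nf_of_unit hU h
  refine ⟨h1, m, C (s : O) * v, hF, ?_, ?_⟩
  · rw [coeff_C_mul, map_mul, norm_mul, norm_unit, one_mul]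
  · intro z hz1
    rw [Polynomial.map_mul, map_C, eval_mul, eval_C]
    refine mul_ne_zero ?_ (hz z hz1)
    rw [← norm_pos_iff, norm_unit]
    exact one_pos

/-- full rank of a closing at a load different from that of a mutual pair. -/
theorem full_of_mut (hLMN : LMNS) (hUS : RkUSS) (hRk : RkS) {P L : Type} [Fintype P]
    [DecidableEq P] [AddCommGroup L] [Module.Free ℤ L] [Module.Finite ℤ L]
    {phi : L →+ (P → ℤ)} {D : AO O L} {S0 S1 : L} {e0 e1 k0 : (RO O)ˣ} (hD : DD phi D)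
    (hm : Mut D S0 S1 e0 e1) (hk : k0 ≠ e0) {i0 : P} (h0 : co phi i0 S0 = 1) :
    rk (supp (cl (co phi i0) S0 h0 k0 D)) = Module.finrank ℤ (Ker (co phi i0)) := by
  have h1 := hLMN O P L phi D S0 S1 e0 e1 k0 hD.inj hD.bin hm.r0 hm.r1 hm.m0 hm.m1 hk
  have h2 := hUS O P L phi D S0 i0 h0 k0 hD.inj hD.bin (hD.bin S0 hm.r0.1)
  have h3 := finrank_kerO hRk h0
  have h4 : rk (supp D) ≤ Module.finrank ℤ (US k0 S0 D) := by
    unfold rk
    exact Submodule.finrank_mono (Submodule.span_le.mpr h1)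
  have h5 := (hRk (Ker (co phi i0)) (Ker (co phi i0))).2.2.1 (supp (cl (co phi i0) S0 h0 k0 D))
  rw [hD.spn] at h4
  omega

/-- a drop at the load of a mutual pair. -/
theorem drop_of_mut (hUS : RkUSS) (hRk : RkS) {P L : Type} [Fintype P]
    [DecidableEq P] [AddCommGroup L] [Module.Free ℤ L] [Module.Finite ℤ L]
    {phi : L →+ (P → ℤ)} {D : AO O L} {S0 S1 : L} {e0 e1 : (RO O)ˣ} (hD : DD phi D)
    (hm : Mut D S0 S1 e0 e1) {i0 : P} (h0 : co phi i0 S0 = 1) :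
    rk (supp (cl (co phi i0) S0 h0 e0 D)) < Module.finrank ℤ (Ker (co phi i0)) := by
  have h2 := hUS O P L phi D S0 i0 h0 e0 hD.inj hD.bin (hD.bin S0 hm.r0.1)
  have h3 := finrank_kerO hRk h0
  by_contra hcon
  push Not at hcon
  apply hm.m0
  have h4 : Module.finrank ℤ (US e0 S0 D) = Module.finrank ℤ L := by
    have h5 := Submodule.finrank_le (US e0 S0 D)
    omega
  obtain ⟨n, hn, hn1⟩ := H61.full_index (⊤ : Submodule ℤ L) ((US e0 S0 D : Submodule ℤ L) : Set L)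
    (fun _ _ => Submodule.mem_top) (by
      rw [finrank_top]
      unfold rk
      rw [Submodule.span_eq]
      exact h4) S1 Submodule.mem_top
  rw [Submodule.span_eq] at hn1
  obtain ⟨m, hm', hm1⟩ := hn1
  exact ⟨m * n, mul_ne_zero hm' hn, by rw [mul_smul]; exact hm1⟩

end Gen

/-! ## Over `Eis` -/

theorem et_mul {et : Eis} (he : Et et) : et * (1 - et) = 1 := by
  apply emb_inj
  rw [map_mul, map_sub, map_one]
  obtain ⟨h1, h2⟩ := he
  apply Complex.ext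
  · simp only [Complex.mul_re, Complex.sub_re, Complex.one_re, Complex.sub_im, Complex.one_im, h1]
    nlinarith
  · simp only [Complex.mul_im, Complex.sub_re, Complex.one_re, Complex.sub_im, Complex.one_im, h1]
    ring

theorem et_norm {et : Eis} (he : Et et) : ‖(Coef.emb et : ℂ)‖ = 1 := by
  obtain ⟨h1, h2⟩ := he
  have h3 : ‖(Coef.emb et : ℂ)‖ ^ 2 = 1 := by
    rw [← Complex.normSq_eq_norm_sq, Complex.normSq_apply, h1]
    nlinarith
  have h4 := norm_nonneg (Coef.emb et : ℂ)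
  nlinarith

theorem et_sub_norm {et : Eis} (he : Et et) : ‖(Coef.emb (1 - et) : ℂ)‖ = 1 := by
  have h1 := congrArg (fun x : Eis => ‖(Coef.emb x : ℂ)‖) (et_mul he)
  simp only [map_mul, norm_mul, map_one, norm_one, et_norm he, one_mul] at h1
  exact h1

theorem et_ne_one {et : Eis} (he : Et et) : et ≠ 1 := by
  rintro rfl
  have h1 := he.re
  rw [map_one, Complex.one_re] at h1
  norm_num at h1

theorem pE_eval (p : ℤ[X]) (z : ℂ) : ((pE p).map (Coef.emb : Eis →+* ℂ)).eval z =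
    (p.map (Coef.emb : ℤ →+* ℂ)).eval z := by
  rw [pE, Polynomial.map_map, emb_comp]

theorem pE_coeff (p : ℤ[X]) (n : ℕ) : (pE p).coeff n = ((p.coeff n : ℤ) : Eis) := by
  rw [pE, coeff_map]; rfl

/-- the value at the load `eta`. -/
theorem eta_val {et : Eis} (he : Et et) {N : ℕ} {v : Eis[X]} (hv : v.coeff 0 = ((N : ℤ) : Eis) - et) :
    (N : ℝ) - 1 / 2 ≤ ‖(Coef.emb (v.coeff 0) : ℂ)‖ := by
  have h1 := Complex.re_le_norm (Coef.emb (v.coeff 0) : ℂ)
  rw [hv, map_sub, embN, Complex.sub_re, he.re] at h1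
  rw [hv, map_sub, embN]
  simpa using h1

section

variable {P L : Type} [Fintype P] [DecidableEq P] [AddCommGroup L] [Module.Free ℤ L]
  [Module.Finite ℤ L] {phi : L →+ (P → ℤ)} {E : AO ℤ L} {S0 : L} {i0 : P}

/-- the constant coefficient of the closing. -/
theorem eta_v0 {w e0 : (RO ℤ)ˣ} {p g : ℤ[X]} {et : Eis} {k0 : (RO Eis)ˣ}
    (hk0 : (k0 : RO Eis) = LaurentPolynomial.C et * bcR (e0 : RO ℤ))
    (hp : (w : RO ℤ) * E.coeff 0 = toLaurent p)
    (hg : (w : RO ℤ) * ((e0 : RO ℤ) * E.coeff S0) = -toLaurent g) :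
    ((bcU w : (RO Eis)ˣ) : RO Eis) * ((bc E).coeff 0 + (k0 : RO Eis) * (bc E).coeff S0) =
      toLaurent (pE p - C et * pE g) := by
  have h1 := congrArg bcR hp
  have h2 := congrArg bcR hg
  rw [map_mul, bcR_L] at h1
  rw [map_mul, map_mul, map_neg, bcR_L] at h2
  rw [H09.bcU_val, bc_co, bc_co, hk0, map_sub, map_mul, toLaurent_C]
  linear_combination h1 + LaurentPolynomial.C et * h2

/-- zero-free: the apex at the load `eta`. -/
theorem eta_zf {et : Eis} (he : Et et) {p g : ℤ[X]}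
    (hlt : ∀ z : ℂ, ‖z‖ < 1 → ‖(g.map (Coef.emb : ℤ →+* ℂ)).eval z‖ <
      ‖(p.map (Coef.emb : ℤ →+* ℂ)).eval z‖) :
    ZF ((pE p - C et * pE g).map Coef.emb) := by
  intro z hz h0
  rw [Polynomial.map_sub, Polynomial.map_mul, map_C, eval_sub, eval_mul, eval_C, pE_eval,
    pE_eval] at h0
  have h2 := hlt z hz
  rw [sub_eq_zero.mp h0, norm_mul, et_norm he, one_mul] at h2
  exact lt_irrefl _ h2

/-- ETA: the closing at the load `eta e0`. -/
theorem eta_dd (hFD : FDS) (hE2 : E2S) (hVZ : VZS) (hU : UnitRS) (hMV : MVS)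
    (hE1 : E1S) (hMm : MmulS) (hG0 : G0S) (hC0 : Coeff0S) (hW : WWfS) (hRF : RayFacS)
    (hQst : QstS) (hQra : QraS) (hMin : MinS) (hB5 : B5aS) (hRk : RkS) (hKm : KmuS)
    (hQc : Qc3S) (hDv : Dv3S) (hNd : Nd3vS) {h0 : co phi i0 S0 = 1} {N : ℕ} {w e0 : (RO ℤ)ˣ}
    {p g : ℤ[X]} {et : Eis} (he : Et et) {k0 : (RO Eis)ˣ}
    (hk0 : (k0 : RO Eis) = LaurentPolynomial.C et * bcR (e0 : RO ℤ)) (hD : DD phi E)
    (hN : 2 ≤ N) (hrk2 : 2 ≤ Module.finrank ℤ L) (hcv : ClassV N (E.coeff 0)) (hS : Ray E S0)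
    (hI : ImS phi S0) (hp : (w : RO ℤ) * E.coeff 0 = toLaurent p) (hp0 : p.coeff 0 = N)
    (hg : (w : RO ℤ) * ((e0 : RO ℤ) * E.coeff S0) = -toLaurent g) (hg0 : g.coeff 0 = 1)
    (hdrop : rk (supp (cl (co phi i0) S0 h0 e0 E)) < Module.finrank ℤ (Ker (co phi i0)))
    (hfull : rk (supp (cl (co phi i0) S0 h0 k0 (bc E))) = Module.finrank ℤ (Ker (co phi i0)))
    {R : Ker (co phi i0)} (hR : Ray (cl (co phi i0) S0 h0 k0 (bc E)) R) {w' : (RO Eis)ˣ}
    {r : Eis[X]} (hr : (w' : RO Eis) * (cl (co phi i0) S0 h0 k0 (bc E)).coeff R = toLaurent r)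
    (hr0 : ‖(Coef.emb (r.coeff 0) : ℂ)‖ = 1)
    (hc : ∀ x : RO Eis, (∀ a, x ∣ (cl (co phi i0) S0 h0 k0 (bc E)).coeff a) → IsUnit x) :
    DD (phO phi S0 i0) (cl (co phi i0) S0 h0 k0 (bc E)) := by
  classical
  have hpne : p.coeff 0 ≠ 0 := by rw [hp0]; exact_mod_cast (by omega : N ≠ 0)
  have hN' : (2 : ℝ) ≤ N := by exact_mod_cast hN
  obtain ⟨hpz, -⟩ := zf_of_unit hU hcv hp hpne
  obtain ⟨hpcl, hle, hlt⟩ := ray_polyU hE2 hVZ hD hrk2 hS hp hg hpz
  have hDb : DD phi (bc E) := dd_bc hD (by omega)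
  have hSb : Ray (bc E) S0 := (H09.ray_bc E S0).mpr hS
  have hv0 := eta_v0 (E := E) hk0 hp hg
  obtain ⟨v, hv⟩ : ∃ v : Eis[X], v = pE p - C et * pE g := ⟨_, rfl⟩
  have hvz : ZF (v.map Coef.emb) := by rw [hv]; exact eta_zf he hlt
  rw [← hv] at hv0
  have hvc : v.coeff 0 = ((N : ℤ) : Eis) - et := by
    rw [hv, coeff_sub, coeff_C_mul, pE_coeff, pE_coeff, hp0, hg0]
    push_cast
    ring
  have hvn := eta_val he hvc
  have hvne : v.coeff 0 ≠ 0 := by
    intro h1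
    rw [h1, map_zero, norm_zero] at hvn
    linarith
  have hV := classV_of hU hv0 (by linarith) hvz
  have hne : (bc E).coeff 0 + (k0 : RO Eis) * (bc E).coeff S0 ≠ 0 := ((hMV Eis).1 _ _ hV).1
  obtain ⟨c, n, G, fd⟩ := hFD Eis P L phi (bc E) S0 i0 k0 h0 ⟨hDb, hrk2, hSb, h0, hne⟩
  have hcu : IsUnit c := by
    apply hc
    intro a
    rw [fd.eq, H78.cstm]
    exact dvd_mul_right _ _
  have hs : snp phi S0 i0 G = ∅ := by
    by_contra hcon
    have hsn : (snp phi S0 i0 G).Nonempty := Finset.nonempty_iff_ne_empty.mpr hcon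
    obtain ⟨m, s, hnf⟩ := nf_of_unit hU hv0
    have hne' : bcU e0 ≠ k0 := by
      intro h1
      apply et_ne_one he
      have h2 : (k0 : RO Eis) = bcR (e0 : RO ℤ) := by rw [← h1]; rfl
      rw [hk0] at h2
      have h3 : (bcR (e0 : RO ℤ)) ≠ 0 := (bcU e0).ne_zero
      have h4 : (LaurentPolynomial.C et : RO Eis) = LaurentPolynomial.C 1 := by
        rw [map_one]
        exact mul_right_cancel₀ h3 (by rw [h2, one_mul])
      exact C_injL h4
    have hdr : rk (supp (cl (co phi i0) S0 h0 (bcU e0) (bc E))) <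
        Module.finrank ℤ (Ker (co phi i0)) := by
      rw [H09.cl_bc, supp_bc]
      exact hdrop
    obtain ⟨t, ht0, -, ht⟩ := tsgO hQst hQra hMin hC0 hB5 hRk hKm hQc hDv fd
      ((hMm Eis).2.2 c hcu) hsn hfull hne' hdr hnf (by
        intro z0 hz0 hdv
        have h1 : (C (Coef.emb (s : Eis) : ℂ) * v.map (Coef.emb : Eis →+* ℂ)) =
            (C (s : Eis) * v).map (Coef.emb : Eis →+* ℂ) := by
          rw [Polynomial.map_mul, map_C]
        rw [← h1] at hdv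
        have hsu : IsUnit (C (Coef.emb (s : Eis) : ℂ)) := by
          rw [isUnit_C, isUnit_iff_ne_zero, ← norm_pos_iff, norm_unit]
          exact one_pos
        have hdv2 : (X - C z0) ^ 2 ∣ v.map (Coef.emb : Eis →+* ℂ) :=
          (hsu.dvd_mul_left).mp hdv
        refine hNd (p.map (Coef.emb : ℤ →+* ℂ)) (v.map (Coef.emb : Eis →+* ℂ)) z0 hpcl ?_ ?_ hz0
          hdv2
        · intro z hz
          rw [hv, Polynomial.map_sub, Polynomial.map_mul, map_C, eval_sub, eval_mul, eval_C,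
            pE_eval, pE_eval, sub_mul, Complex.sub_re]
          have h2 : ((p.map (Coef.emb : ℤ →+* ℂ)).eval z *
              (starRingEnd ℂ) ((p.map (Coef.emb : ℤ →+* ℂ)).eval z)).re =
              ‖(p.map (Coef.emb : ℤ →+* ℂ)).eval z‖ ^ 2 := by
            rw [Complex.mul_conj, Complex.normSq_eq_norm_sq, Complex.ofReal_re]
          have h3 := Complex.re_le_norm (Coef.emb et * (g.map (Coef.emb : ℤ →+* ℂ)).eval z *
              (starRingEnd ℂ) ((p.map (Coef.emb : ℤ →+* ℂ)).eval z))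
          rw [norm_mul, norm_mul, et_norm he, one_mul, RCLike.norm_conj] at h3
          have h4 := hle z hz
          rw [h2]
          nlinarith [norm_nonneg ((p.map (Coef.emb : ℤ →+* ℂ)).eval z),
            mul_le_mul_of_nonneg_right h4 (norm_nonneg ((p.map (Coef.emb : ℤ →+* ℂ)).eval z))]
        · intro h2
          apply hvne
          have h3 := congrArg (fun f : ℂ[X] => f.coeff 0) h2
          simp only [coeff_map, coeff_zero] at h3
          exact emb_inj (h3.trans (map_zero _).symm))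
    -- the apex at the load one
    have h5 : ((bcU w : (RO Eis)ˣ) : RO Eis) * ((bc E).coeff 0 +
        ((bcU e0 : (RO Eis)ˣ) : RO Eis) * (bc E).coeff S0) = toLaurent (pE p - pE g) := by
      have h1 := congrArg bcR hp
      have h2 := congrArg bcR hg
      rw [map_mul, bcR_L] at h1
      rw [map_mul, map_mul, map_neg, bcR_L] at h2
      rw [H09.bcU_val, H09.bcU_val, bc_co, bc_co, map_sub]
      linear_combination h1 + h2
    obtain ⟨y, hy⟩ : ∃ y : RO Eis, y = ((bcU e0 : (RO Eis)ˣ) : RO Eis) *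
        ((k0⁻¹ : (RO Eis)ˣ) : RO Eis) := ⟨_, rfl⟩
    rw [← hy] at ht
    have hy1 : LaurentPolynomial.C et * y = 1 := by
      rw [hy, H09.bcU_val, ← mul_assoc, ← hk0, Units.mul_inv]
    obtain ⟨k, τ, hτ, hτ0⟩ := H40.exists_normal t ht0
    have h6 : (LaurentPolynomial.T 0 : RO Eis) * toLaurent (C et * (pE p - pE g)) =
        LaurentPolynomial.T k * toLaurent (C (et - 1) * τ * v) := by
      rw [LaurentPolynomial.T_zero, one_mul, map_mul, toLaurent_C, ← h5, ht, map_mul, map_mul,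
        toLaurent_C, ← hv0, map_sub, map_one]
      have h7 : LaurentPolynomial.C et * (1 - y) = LaurentPolynomial.C et - 1 := by
        rw [mul_sub, hy1, mul_one]
      rw [hτ]
      linear_combination (((bcU w : (RO Eis)ˣ) : RO Eis) * (LaurentPolynomial.T k * toLaurent τ *
        ((bc E).coeff 0 + (k0 : RO Eis) * (bc E).coeff S0))) * h7
    have e1 : (C et * (pE p - pE g)).coeff 0 = et * (((N : ℤ) : Eis) - 1) := by
      rw [coeff_C_mul, coeff_sub, pE_coeff, pE_coeff, hp0, hg0]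
      push_cast
      rfl
    have e2 : (C (et - 1) * τ * v).coeff 0 = (et - 1) * τ.coeff 0 * v.coeff 0 := by
      rw [mul_coeff_zero, mul_coeff_zero, coeff_C_zero]
    have hn1 : ‖(Coef.emb (et * (((N : ℤ) : Eis) - 1)) : ℂ)‖ = (N : ℝ) - 1 := by
      rw [map_mul, norm_mul, et_norm he, one_mul, map_sub, embN, map_one]
      have h8 : ((N : ℤ) : ℂ) - 1 = (((N : ℝ) - 1 : ℝ) : ℂ) := by push_cast; ring
      rw [h8, Complex.norm_real, Real.norm_eq_abs, abs_of_nonneg (by linarith)]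
    have hne1 : (C et * (pE p - pE g)).coeff 0 ≠ 0 := by
      rw [e1]
      intro h8
      rw [h8, map_zero, norm_zero] at hn1
      linarith
    have hne2 : (C (et - 1) * τ * v).coeff 0 ≠ 0 := by
      rw [e2]
      exact mul_ne_zero (mul_ne_zero (sub_ne_zero.mpr (et_ne_one he)) hτ0) hvne
    obtain ⟨-, h8⟩ := H09.nf_unique 0 k _ _ hne1 hne2 h6
    have h9 := congrArg (fun f : Eis[X] => ‖(Coef.emb (f.coeff 0) : ℂ)‖) h8
    simp only [e1, e2] at h9
    rw [hn1, map_mul, map_mul, norm_mul, norm_mul] at h9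
    have h10 : ‖(Coef.emb (et - 1) : ℂ)‖ = 1 := by
      rw [← et_sub_norm he, ← norm_neg, ← map_neg, neg_sub]
    rw [h10, one_mul] at h9
    have h11 := Coef.one_le (τ.coeff 0) hτ0
    nlinarith
  exact (one_facO hG0 hC0 hMm hE1 hMV hU hW hRF fd hI hfull hs hV hR hr hr0 hc).2

/-- ETA for a mutual pair. -/
theorem eta_mut (hFD : FDS) (hE2 : E2S) (hVZ : VZS) (hU : UnitRS) (hMV : MVS)
    (hE1 : E1S) (hM1 : M1S) (hMm : MmulS) (hG0 : G0S) (hC0 : Coeff0S) (hW : WWfS)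
    (hRF : RayFacS) (hQst : QstS) (hQra : QraS) (hMin : MinS) (hB5 : B5aS) (hRk : RkS)
    (hKm : KmuS) (hQc : Qc3S) (hDv : Dv3S) (hNd : Nd3vS) (hLMN : LMNS) (hUS : RkUSS)
    (hD2 : D2S) (hF1 : F1S) (hF2 : F2S) (hMco : McoS) {h0 : co phi i0 S0 = 1} {N : ℕ}
    {w e0 e1 : (RO ℤ)ˣ} {S1 : L} {p g : ℤ[X]} {et : Eis} (he : Et et) {k0 : (RO Eis)ˣ}
    (hk0 : (k0 : RO Eis) = LaurentPolynomial.C et * bcR (e0 : RO ℤ)) {k1 : (RO Eis)ˣ}
    (hk1 : (k1 : RO Eis) = LaurentPolynomial.C et * bcR (e1 : RO ℤ)) (hD : DD phi E)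
    (hN : 2 ≤ N) (hrk2 : 2 ≤ Module.finrank ℤ L) (hcv : ClassV N (E.coeff 0))
    (hm : Mut E S0 S1 e0 e1)
    (hI : ImS phi S0) (hI1 : ImS phi S1) (hp : (w : RO ℤ) * E.coeff 0 = toLaurent p)
    (hp0 : p.coeff 0 = N)
    (hg : (w : RO ℤ) * ((e0 : RO ℤ) * E.coeff S0) = -toLaurent g) (hg0 : g.coeff 0 = 1)
    {S1' : Ker (co phi i0)} (hS1 : (S1' : L) = S1) :
    DD (phO phi S0 i0) (cl (co phi i0) S0 h0 k0 (bc E)) ∧
      Ray (cl (co phi i0) S0 h0 k0 (bc E)) S1' ∧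
      ((bcU w : (RO Eis)ˣ) : RO Eis) * (cl (co phi i0) S0 h0 k0 (bc E)).coeff 0 =
        toLaurent (pE p - C et * pE g) ∧
      ((bcU w : (RO Eis)ˣ) : RO Eis) *
        ((k1 : RO Eis) * (cl (co phi i0) S0 h0 k0 (bc E)).coeff S1') = -toLaurent (pE g) ∧
      ClassV ‖(Coef.emb (((N : ℤ) : Eis) - et) : ℂ)‖
        ((cl (co phi i0) S0 h0 k0 (bc E)).coeff 0) := by
  have hDb : DD phi (bc E) := dd_bc hD (by omega)
  have hmb : Mut (bc E) S0 S1 (bcU e0) (bcU e1) := (H09.mut_bc E S0 S1 e0 e1).mpr hm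
  obtain ⟨kap, hkap⟩ : ∃ kap : (RO Eis)ˣ, kap * bcU e0 = k0 := ⟨k0 * (bcU e0)⁻¹, by group⟩
  have hkapv : (kap : RO Eis) = LaurentPolynomial.C et := by
    have h1 : (kap : RO Eis) * bcR (e0 : RO ℤ) = LaurentPolynomial.C et * bcR (e0 : RO ℤ) := by
      rw [← hk0, ← hkap]; rfl
    exact mul_right_cancel₀ (bcU e0).ne_zero h1
  have hkap1 : kap ≠ 1 := by
    intro h1
    apply et_ne_one he
    apply C_injL
    rw [← hkapv, h1, Units.val_one, map_one]
  obtain ⟨hR, hR0, hR1, -⟩ := mugg hD2 hF1 hF2 hMco hDb hmb hI hI1 (i0 := i0) h0 hS1 hkap1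
  rw [hkap] at hR hR0 hR1
  have hne : k0 ≠ bcU e0 := by
    intro h1
    apply hkap1
    rw [← mul_eq_right (a := kap) (b := bcU e0), hkap, h1]
  have hfull := full_of_mut hLMN hUS hRk hDb hmb hne (i0 := i0) h0
  have hdrop := drop_of_mut hUS hRk hD hm (i0 := i0) h0
  have hv0 := eta_v0 (E := E) hk0 hp hg
  rw [← hR0] at hv0
  have hgb : ((bcU w : (RO Eis)ˣ) : RO Eis) *
      (((bcU e0 : (RO Eis)ˣ) : RO Eis) * (bc E).coeff S0) = -toLaurent (pE g) := by
    have h2 := congrArg bcR hg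
    rw [map_mul, map_mul, map_neg, bcR_L] at h2
    rw [H09.bcU_val, H09.bcU_val, bc_co]
    exact h2
  have hetc : LaurentPolynomial.C et * (1 - LaurentPolynomial.C et) = (1 : RO Eis) := by
    rw [← map_one LaurentPolynomial.C, ← map_sub, ← map_mul, et_mul he]
  have hv1 : ((bcU w : (RO Eis)ˣ) : RO Eis) *
      ((k1 : RO Eis) * (cl (co phi i0) S0 h0 k0 (bc E)).coeff S1') = -toLaurent (pE g) := by
    rw [← hgb, hk1]
    rw [hkapv] at hR1
    have h3 : bcR (e1 : RO ℤ) = ((bcU e1 : (RO Eis)ˣ) : RO Eis) := rfl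
    rw [h3]
    linear_combination (((bcU w : (RO Eis)ˣ) : RO Eis) * LaurentPolynomial.C et) * hR1 +
      (((bcU w : (RO Eis)ˣ) : RO Eis) *
        (((bcU e0 : (RO Eis)ˣ) : RO Eis) * (bc E).coeff S0)) * hetc
  have hpne : p.coeff 0 ≠ 0 := by rw [hp0]; exact_mod_cast (by omega : N ≠ 0)
  have hN' : (2 : ℝ) ≤ N := by exact_mod_cast hN
  obtain ⟨hpz, -⟩ := zf_of_unit hU hcv hp hpne
  obtain ⟨hpcl, hle, hlt⟩ := ray_polyU hE2 hVZ hD hrk2 hm.r0 hp hg hpz
  have hvc : (pE p - C et * pE g).coeff 0 = ((N : ℤ) : Eis) - et := by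
    rw [coeff_sub, coeff_C_mul, pE_coeff, pE_coeff, hp0, hg0]
    push_cast
    ring
  have hvn := eta_val he hvc
  have hcl := classV_of hU hv0 (by linarith) (eta_zf he hlt)
  rw [hvc] at hcl
  refine ⟨?_, hR, hv0, hv1, hcl⟩
  refine eta_dd hFD hE2 hVZ hU hMV hE1 hMm hG0 hC0 hW hRF hQst hQra hMin hB5 hRk hKm hQc hDv
    hNd he hk0 hD hN hrk2 hcv hm.r0 hI hp hp0 hg hg0 hdrop hfull hR (w' := -bcU w * k1)
    (r := pE g) ?_ ?_ ?_
  · rw [Units.val_mul, Units.val_neg]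
    linear_combination -hv1
  · rw [pE_coeff, hg0, embN]
    norm_num
  · intro x hx
    have hx0 := hx 0
    have hx1 := hx S1'
    -- `x` divides the unit multiples of `g` and `p`
    have hxg : x ∣ toLaurent (pE g) := by
      have h1 : x ∣ ((bcU w : (RO Eis)ˣ) : RO Eis) *
          ((k1 : RO Eis) * (cl (co phi i0) S0 h0 k0 (bc E)).coeff S1') :=
        (hx1.mul_left _).mul_left _
      rw [hv1] at h1
      exact (dvd_neg.mp h1)
    have hxp : x ∣ bcR (E.coeff 0) := by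
      have h1 : x ∣ ((bcU w : (RO Eis)ˣ) : RO Eis) *
          (cl (co phi i0) S0 h0 k0 (bc E)).coeff 0 := hx0.mul_left _
      rw [hv0, map_sub, map_mul] at h1
      have h2 : x ∣ toLaurent (pE p) := by
        have h3 := dvd_add h1 (hxg.mul_left (toLaurent (C et)))
        rwa [sub_add_cancel] at h3
      have h4 := congrArg bcR hp
      rw [map_mul, bcR_L] at h4
      rw [← h4] at h2
      exact (IsUnit.dvd_mul_left (bcU w).isUnit).mp h2
    have hz := (hE2 Eis P L phi (bc E) hDb hrk2).1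
    rw [bc_co] at hz
    refine unit_of_two hE1 hMV hM1 hU (classV_bc hcv) hz hxp hxg (w := 1) (r := pE g) ?_ ?_
    · rw [Units.val_one, one_mul]
    · rw [pE_coeff, hg0, embN]
      norm_num

end

end Pool.Agent.B5.BP57
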