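import Pool.Agent.Lib.MP_b5021c_nt.BP.H57.Eta

/-!
# Board b5, BpS, row IND: the closing at a mutual partner with one w-drop is in `DD` on its lattice

`V_T = E(w^T = e_T)` of w-rank `finrank - 1`, no small factor, a ray `x` with the coefficient of `b`
up to a unit.
-/

namespace Pool.Agent.B5.BP57

open scoped LaurentPolynomial
open Polynomial Pool.Agent.B5

section

variable {O : Type} [CommRing O] [IsDomain O] [IsPrincipalIdealRing O] [Coef O] {P L : Type}
  [Fintype P] [DecidableEq P] [AddCommGroup L] [Module.Free ℤ L] [Module.Finite ℤ L]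
  {phi : L →+ (P → ℤ)} {E : AO O L}

/-- IND, core: a closing without small factors, one factor (`hone`), restricted to its lattice. -/
theorem ind_one (hR : ResWDS) (hRS : ResStS) {T : L} {iT : P} {eT : (RO O)ˣ}
    {hT : co phi iT T = 1} {c : RO O} {n : ℕ} {G : Fin n → AO O (Ker (co phi iT))}
    (fd : FD phi E T iT eT hT c n G) (hI : ImS phi T)
    (hone : IsUnit c ∧ ∃ l, (∀ i, i = l) ∧ cl (co phi iT) T hT eT E = cst c * G l)
    {x : Ker (co phi iT)} (hx : Ray (cl (co phi iT) T hT eT E) x) :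
    ∃ (P' L' : Type) (_ : Fintype P') (_ : DecidableEq P') (_ : AddCommGroup L')
      (_ : Module.Free ℤ L') (_ : Module.Finite ℤ L') (phi' : L' →+ (P' → ℤ)) (E' : AO O L')
      (S' : L') (u : (RO O)ˣ), DD phi' E' ∧
        Module.finrank ℤ L' = rk (supp (cl (co phi iT) T hT eT E)) ∧ Ray E' S' ∧
        (cl (co phi iT) T hT eT E).coeff 0 = (u : RO O) * E'.coeff 0 ∧
        (cl (co phi iT) T hT eT E).coeff x = (u : RO O) * E'.coeff S' := by
  classical
  obtain ⟨hcu, l, -, hVG⟩ := hone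
  obtain ⟨cu, rfl⟩ := hcu
  obtain ⟨U, hUs, hUr, hDD⟩ := res_facO hR hRS hI fd l
  have hsup : supp (cl (co phi iT) T hT eT E) = supp (G l) := by
    rw [hVG, H78.supp_cst_mul fd.c0]
  have hxU : x ∈ U := hUs x (by rw [← hsup]; exact hx.1)
  have hco : ∀ a, (cl (co phi iT) T hT eT E).coeff a = (cu : RO O) * (G l).coeff a := by
    intro a
    rw [hVG, H78.cstm]
  obtain ⟨hx0, hxne, lam, hlx, hlam⟩ := hx
  refine ⟨P, U, inferInstance, inferInstance, inferInstance, inferInstance, inferInstance,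
    (phO phi T iT).comp (incl U), res U (G l), ⟨x, hxU⟩, cu, hDD, ?_, ?_, hco 0, hco x⟩
  · rw [hUr, ← hsup]
  · refine ⟨?_, ?_, lam.comp (incl U), hlx, ?_⟩
    · intro h1
      have h2 : (G l).coeff x = 0 := h1
      apply hx0
      rw [hco, h2, mul_zero]
    · intro h1
      exact hxne (congrArg (fun y : U => (y : Ker (co phi iT))) h1)
    · intro a ha a0 ax
      change 0 < lam (a : Ker (co phi iT))
      refine hlam _ ?_ (fun h1 => a0 (Subtype.ext h1)) (fun h1 => ax (Subtype.ext h1))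
      rw [hsup]
      exact ha

/-- IND, core, for a ray `x` whose coefficient is prime to the constant coefficient. -/
theorem ind_core (hG0 : G0S) (hC0 : Coeff0S) (hMm : MmulS) (hW : WWfS) (hRF : RayFacS)
    (hR : ResWDS) (hRS : ResStS) {T : L} {iT : P} {eT : (RO O)ˣ}
    {hT : co phi iT T = 1} {c : RO O} {n : ℕ} {G : Fin n → AO O (Ker (co phi iT))}
    (fd : FD phi E T iT eT hT c n G) (hI : ImS phi T) (hs : snp phi T iT G = ∅)
    {x : Ker (co phi iT)} (hx : Ray (cl (co phi iT) T hT eT E) x)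
    (hc : ∀ d : RO O, d ∣ (cl (co phi iT) T hT eT E).coeff 0 →
      d ∣ (cl (co phi iT) T hT eT E).coeff x → IsUnit d) :
    ∃ (P' L' : Type) (_ : Fintype P') (_ : DecidableEq P') (_ : AddCommGroup L')
      (_ : Module.Free ℤ L') (_ : Module.Finite ℤ L') (phi' : L' →+ (P' → ℤ)) (E' : AO O L')
      (S' : L') (u : (RO O)ˣ), DD phi' E' ∧
        Module.finrank ℤ L' = rk (supp (cl (co phi iT) T hT eT E)) ∧ Ray E' S' ∧
        (cl (co phi iT) T hT eT E).coeff 0 = (u : RO O) * E'.coeff 0 ∧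
        (cl (co phi iT) T hT eT E).coeff x = (u : RO O) * E'.coeff S' :=
  ind_one hR hRS fd hI (one_facP hG0 hC0 hMm hW hRF fd hI hs hx hc) hx

end

section

variable {P L : Type} [Fintype P] [DecidableEq P] [AddCommGroup L] [Module.Free ℤ L]
  [Module.Finite ℤ L] {phi : L →+ (P → ℤ)} {E : AO ℤ L}

/-- IND -/
theorem ind_dd (hG0 : G0S) (hC0 : Coeff0S) (hMm : MmulS) (hE1 : E1S) (hMV : MVS) (hM1 : M1S)
    (hU : UnitRS) (hE2 : E2S) (hVZ : VZS) (hW : WWfS) (hRF : RayFacS) (hR : ResWDS)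
    (hRS : ResStS) (hRk : RkS) {T : L} {iT : P} {eT : (RO ℤ)ˣ} {hT : co phi iT T = 1} {c : RO ℤ}
    {n : ℕ} {G : Fin n → AO ℤ (Ker (co phi iT))} (fd : FD phi E T iT eT hT c n G)
    (hI : ImS phi T) (hs : snp phi T iT G = ∅) {N : ℕ} (hN : 3 ≤ N)
    (hcv : ClassV N (E.coeff 0)) (hrL : Module.finrank ℤ L + 1 = 2 * N) {w : (RO ℤ)ˣ}
    {p g : ℤ[X]} (hp : (w : RO ℤ) * E.coeff 0 = toLaurent p) (hp0 : p.coeff 0 = N)
    (hg : (w : RO ℤ) * ((eT : RO ℤ) * E.coeff T) = -toLaurent g) (hg0 : g.coeff 0 = 1)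
    (hrk : rk (supp (cl (co phi iT) T hT eT E)) + 1 = Module.finrank ℤ (Ker (co phi iT)))
    {x : Ker (co phi iT)} (hx : Ray (cl (co phi iT) T hT eT E) x) {w1 : (RO ℤ)ˣ}
    (hx1 : (w1 : RO ℤ) * (cl (co phi iT) T hT eT E).coeff x = toLaurent g) :
    ∃ (P' L' : Type) (_ : Fintype P') (_ : DecidableEq P') (_ : AddCommGroup L')
      (_ : Module.Free ℤ L') (_ : Module.Finite ℤ L') (phi' : L' →+ (P' → ℤ)) (E' : AO ℤ L')
      (S' : L') (w' w1' : (RO ℤ)ˣ), DD phi' E' ∧ ClassV ((N - 1 : ℕ) : ℝ) (E'.coeff 0) ∧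
        Module.finrank ℤ L' + 1 = 2 * (N - 1) ∧ Ray E' S' ∧
        (w' : RO ℤ) * E'.coeff 0 = toLaurent (p - g) ∧ (p - g).coeff 0 = ((N - 1 : ℕ) : ℤ) ∧
        (w1' : RO ℤ) * E'.coeff S' = toLaurent g := by
  classical
  have hN1 : ((N - 1 : ℕ) : ℝ) = (N : ℝ) - 1 := by
    rw [Nat.cast_sub (by omega)]
    push_cast
    ring
  have hN1z : ((N - 1 : ℕ) : ℤ) = (N : ℤ) - 1 := by
    rw [Nat.cast_sub (by omega)]
    push_cast
    ring
  have hN3 : (3 : ℝ) ≤ N := by exact_mod_cast hN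
  have hpne : p.coeff 0 ≠ 0 := by rw [hp0]; exact_mod_cast (by omega : N ≠ 0)
  obtain ⟨hpz, -⟩ := zf_of_unit hU hcv hp hpne
  obtain ⟨hpcl, hle, hlt⟩ := ray_polyU hE2 hVZ fd.cc.dd fd.cc.two fd.cc.ray hp hg hpz
  have hV0 : (w : RO ℤ) * (E.coeff 0 + (eT : RO ℤ) * E.coeff T) = toLaurent (p - g) := by
    rw [mul_add, hp, hg, map_sub, sub_eq_add_neg]
  have hpg0 : (p - g).coeff 0 = ((N - 1 : ℕ) : ℤ) := by
    rw [coeff_sub, hp0, hg0, hN1z]
  have hzf : ZF ((p - g).map Coef.emb) := by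
    intro z hz h0
    rw [Polynomial.map_sub, eval_sub] at h0
    have h2 := hlt z hz
    rw [sub_eq_zero.mp h0] at h2
    exact lt_irrefl _ h2
  have hnorm : ‖(Coef.emb ((p - g).coeff 0) : ℂ)‖ = ((N - 1 : ℕ) : ℝ) := by
    rw [hpg0, embZ]
    push_cast
    rw [Complex.norm_natCast]
  have hcl := classV_of hU hV0 (by rw [hnorm, hN1]; linarith) hzf
  rw [hnorm] at hcl
  have hG0s := hG0 ℤ P L phi E T iT eT hT fd.cc
  have hcl0 : (cl (co phi iT) T hT eT E).coeff 0 = E.coeff 0 + (eT : RO ℤ) * E.coeff T := by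
    have h1 := H47.cl_coeff_bin (co phi iT) T hT eT E (fun a ha => fd.cc.dd.bin a ha iT) 0
    have h2 : ((0 : Ker (co phi iT)) : L) = 0 := rfl
    rw [h1, h2, zero_add]
  have hz := (hE2 ℤ P L phi E fd.cc.dd fd.cc.two).1
  obtain ⟨hcu, l, -, hVG⟩ := one_fac0 hG0 hC0 hMm hE1 hMV hU hW hRF fd hI hs hcl hx hx1
    (by rw [hg0, embZ]; norm_num) (by
      intro y hy
      have hyg : y ∣ toLaurent g := by
        rw [← hx1]
        exact (hy x).mul_left _
      have hyp : y ∣ E.coeff 0 := by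
        have h1 : y ∣ toLaurent (p - g) := by
          rw [← hV0, ← hcl0]
          exact (hy 0).mul_left _
        rw [map_sub] at h1
        have h2 : y ∣ toLaurent p := by
          have h3 := dvd_add h1 hyg
          rwa [sub_add_cancel] at h3
        rw [← hp] at h2
        exact (IsUnit.dvd_mul_left w.isUnit).mp h2
      refine unit_of_two hE1 hMV hM1 hU hcv hz hyp hyg (w := 1) (r := g) ?_ ?_
      · rw [Units.val_one, one_mul]
      · rw [hg0, embZ]; norm_num)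
  obtain ⟨cu, rfl⟩ := hcu
  obtain ⟨U, hUs, hUr, hDD⟩ := res_facO hR hRS hI fd l
  have hsup : supp (cl (co phi iT) T hT eT E) = supp (G l) := by
    rw [hVG, H78.supp_cst_mul fd.c0]
  have hker := finrank_kerO hRk hT
  have hxU : x ∈ U := hUs x (by rw [← hsup]; exact hx.1)
  have hco : ∀ a, (cl (co phi iT) T hT eT E).coeff a = (cu : RO ℤ) * (G l).coeff a := by
    intro a
    rw [hVG, H78.cstm]
  obtain ⟨hx0, hxne, lam, hlx, hlam⟩ := hx
  have hE0 : ((w * cu : (RO ℤ)ˣ) : RO ℤ) * (res U (G l)).coeff 0 = toLaurent (p - g) := by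
    have h1 : (res U (G l)).coeff 0 = (G l).coeff 0 := rfl
    rw [h1, Units.val_mul, mul_assoc, ← hco, hcl0, hV0]
  refine ⟨P, U, inferInstance, inferInstance, inferInstance, inferInstance, inferInstance,
    (phO phi T iT).comp (incl U), res U (G l), ⟨x, hxU⟩, w * cu, w1 * cu, hDD, ?_, ?_, ?_, hE0,
    hpg0, ?_⟩
  · have h1 := classV_of hU hE0 (by rw [hnorm, hN1]; linarith) hzf
    rw [hnorm] at h1
    exact h1
  · rw [hUr, ← hsup]
    omega
  · refine ⟨?_, ?_, lam.comp (incl U), hlx, ?_⟩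
    · intro h1
      have h2 : (G l).coeff x = 0 := h1
      apply hx0
      rw [hco, h2, mul_zero]
    · intro h1
      exact hxne (congrArg (fun y : U => (y : Ker (co phi iT))) h1)
    · intro a ha a0 ax
      change 0 < lam (a : Ker (co phi iT))
      refine hlam _ ?_ (fun h1 => a0 (Subtype.ext h1)) (fun h1 => ax (Subtype.ext h1))
      rw [hsup]
      exact ha
  · have h1 : (res U (G l)).coeff ⟨x, hxU⟩ = (G l).coeff x := rfl
    rw [h1, Units.val_mul, mul_assoc, ← hco, hx1]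

end

end Pool.Agent.B5.BP57
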