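import Pool.Agent.Lib.MP_b5021c_nt.IfaceBPR
import Pool.Agent.Lib.MP_b5021c_nt.BP.H57.Ind
import Pool.Agent.Lib.MP_b5021c_nt.BP.H71.Tl

/-!
# Board b5, BpS: from the w-level data (`Xt`, `Gl`, `Nb`, `Kw`) to `FD`, `snp`, ranks (helper57)
-/

namespace Pool.Agent.B5.BP57

open scoped LaurentPolynomial
open Polynomial Pool.Agent.B5 Pool.Agent.B5.BPR

section

variable {P L : Type} [Fintype P] [DecidableEq P] [AddCommGroup L] [Module.Free ℤ L]
  [Module.Finite ℤ L] {phi : L →+ (P → ℤ)} {E : AO ℤ L} {N : ℕ} {p f : ℤ[X]} {S : L} {i : P}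
  {e : (RO ℤ)ˣ}

theorem Xt.two (hX : Xt N p phi E) : 2 ≤ Module.finrank ℤ L := by
  have h1 := hX.rkL
  have h2 := hX.n3
  omega

/-- polynomial data of a ray at its good load. -/
theorem gl_poly (hE2 : E2S) (hVZ : VZS) (hU : UnitRS) (hX : Xt N p phi E)
    (hS : Gl phi E S i e f) :
    (∀ z : ℂ, ‖z‖ ≤ 1 → (p.map (Coef.emb : ℤ →+* ℂ)).eval z ≠ 0) ∧
      (∀ z : ℂ, ‖z‖ = 1 → ‖(f.map (Coef.emb : ℤ →+* ℂ)).eval z‖ ≤
        ‖(p.map (Coef.emb : ℤ →+* ℂ)).eval z‖) ∧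
      ∀ z : ℂ, ‖z‖ < 1 → ‖(f.map (Coef.emb : ℤ →+* ℂ)).eval z‖ <
        ‖(p.map (Coef.emb : ℤ →+* ℂ)).eval z‖ := by
  have hp : ((1 : (RO ℤ)ˣ) : RO ℤ) * E.coeff 0 = toLaurent p := by
    rw [Units.val_one, one_mul, hX.e0]
  have hpne : p.coeff 0 ≠ 0 := by
    rw [hX.p0]
    have h2 := hX.n3
    exact_mod_cast (by omega : N ≠ 0)
  obtain ⟨hpz, -⟩ := zf_of_unit hU hX.cv hp hpne
  exact ray_polyU (u := e) hE2 hVZ hX.dd (Xt.two hX) hS.ray hp
    (by rw [Units.val_one, one_mul]; exact hS.eq) hpz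

/-- the value of a ray is less than `N`. -/
theorem gl_lt (hE2 : E2S) (hVZ : VZS) (hU : UnitRS) (hX : Xt N p phi E)
    (hS : Gl phi E S i e f) : f.coeff 0 < N := by
  obtain ⟨-, -, h3⟩ := gl_poly hE2 hVZ hU hX hS
  have h4 := h3 0 (by rw [norm_zero]; exact one_pos)
  have e1 : ∀ q : ℤ[X], (q.map (Coef.emb : ℤ →+* ℂ)).eval 0 = ((q.coeff 0 : ℤ) : ℂ) := by
    intro q
    rw [← coeff_zero_eq_eval_zero, coeff_map, embZ]
  rw [e1, e1, hX.p0, Complex.norm_intCast, Complex.norm_intCast] at h4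
  have h5 : |((f.coeff 0 : ℤ) : ℝ)| < |(((N : ℤ) : ℤ) : ℝ)| := h4
  have h6 : ((f.coeff 0 : ℤ) : ℝ) < ((N : ℤ) : ℝ) := by
    rw [abs_of_nonneg (by positivity : (0 : ℝ) ≤ (((N : ℤ) : ℤ) : ℝ))] at h5
    exact lt_of_le_of_lt (le_abs_self _) h5
  exact_mod_cast h6

theorem gl_apex (hX : Xt N p phi E) (hS : Gl phi E S i e f) :
    E.coeff 0 + (e : RO ℤ) * E.coeff S = toLaurent (p - f) := by
  rw [hX.e0, hS.eq, map_sub, sub_eq_add_neg]

theorem gl_zf (hE2 : E2S) (hVZ : VZS) (hU : UnitRS) (hX : Xt N p phi E)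
    (hS : Gl phi E S i e f) : ZF ((p - f).map Coef.emb) := by
  obtain ⟨-, -, h3⟩ := gl_poly hE2 hVZ hU hX hS
  intro z hz h0
  rw [Polynomial.map_sub, eval_sub] at h0
  have h2 := h3 z hz
  rw [sub_eq_zero.mp h0] at h2
  exact lt_irrefl _ h2

/-- the closing at the good load. -/
theorem gl_cc (hE2 : E2S) (hVZ : VZS) (hU : UnitRS) (hX : Xt N p phi E)
    (hS : Gl phi E S i e f) : CC phi E S i e := by
  refine ⟨hX.dd, Xt.two hX, hS.ray, hS.po, ?_⟩
  rw [gl_apex hX hS]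
  intro h0
  have h1 := toLaurent_injective (h0.trans (map_zero _).symm)
  have h2 := gl_lt hE2 hVZ hU hX hS
  have h3 := congrArg (fun q : ℤ[X] => q.coeff 0) h1
  simp only [coeff_sub, coeff_zero, hX.p0] at h3
  omega

/-- the class of the apex. -/
theorem gl_class (hE2 : E2S) (hVZ : VZS) (hU : UnitRS) (hX : Xt N p phi E)
    (hS : Gl phi E S i e f) :
    ClassV ((N : ℝ) - f.coeff 0) (E.coeff 0 + (e : RO ℤ) * E.coeff S) := by
  have h2 := gl_lt hE2 hVZ hU hX hS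
  have h3 : ((f.coeff 0 : ℤ) : ℝ) + 1 ≤ ((N : ℤ) : ℝ) := by exact_mod_cast h2
  have h4 : ‖(Coef.emb ((p - f).coeff 0) : ℂ)‖ = (N : ℝ) - f.coeff 0 := by
    rw [coeff_sub, hX.p0, embZ, Complex.norm_intCast]
    push_cast
    push_cast at h3
    rw [abs_of_nonneg (by linarith)]
  have hap : ((1 : (RO ℤ)ˣ) : RO ℤ) * (E.coeff 0 + (e : RO ℤ) * E.coeff S) =
      toLaurent (p - f) := by
    rw [Units.val_one, one_mul, gl_apex hX hS]
  have h5 := classV_of hU hap (by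
    rw [h4]
    push_cast at h3
    linarith) (gl_zf hE2 hVZ hU hX hS)
  rw [h4] at h5
  exact h5

/-- no binomial divisor: no small factor which is not pure. -/
theorem snp_of_nb (hSm : SmallS) {h : co phi i S = 1} {c : RO ℤ} {n : ℕ}
    {G : Fin n → AO ℤ (Ker (co phi i))} (fd : FD phi E S i e h c n G) (hNb : Nb phi E S i e) :
    snp phi S i G = ∅ := by
  classical
  by_contra hcon
  obtain ⟨l, hl⟩ := Finset.nonempty_iff_ne_empty.mpr hcon
  have hl2 : ¬ 1 < M ((G l).coeff 0) := by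
    unfold snp at hl
    exact (Finset.mem_filter.mp hl).2.1
  obtain ⟨hu, ⟨b, hb, -, e', he'⟩, -⟩ := hSm ℤ P L phi E S i e h c n G fd l hl2
  refine hNb h b e'⁻¹ hb ?_
  rw [fd.eq]
  refine Dvd.dvd.mul_left ?_ _
  refine dvd_trans ?_ (Finset.dvd_prod_of_mem G (Finset.mem_univ l))
  rw [he']
  exact dvd_mul_left _ _

/-- `Kw` in terms of the closing. -/
theorem kw_iff (hD : DD phi E) (h : co phi i S = 1) (mu : L →+ ℤ) :
    Kw phi E S i e mu ↔ mu S = 0 ∧ ∀ a ∈ supp (cl (co phi i) S h e E), mu (a : L) = 0 := by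
  have hb : ∀ a ∈ supp E, co phi i a = 0 ∨ co phi i a = 1 := fun a ha => hD.bin a ha i
  unfold Kw Tot.KT
  constructor
  · rintro ⟨h0, h1⟩
    refine ⟨h0, fun a ha => ?_⟩
    by_contra hne
    apply ha
    rw [H47.cl_coeff_bin (co phi i) S h e E hb a]
    exact h1 (a : L) a.2 hne
  · rintro ⟨h0, h1⟩
    refine ⟨h0, fun x hx hne => ?_⟩
    by_contra hcon
    apply hne
    refine h1 (⟨x, hx⟩ : Ker (co phi i)) ?_
    intro h2
    apply hcon
    rw [H47.cl_coeff_bin (co phi i) S h e E hb] at h2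
    exact h2

/-- a functional of the kernel as a functional of `L` which is zero at `S`. -/
theorem ext_ker (h : co phi i S = 1) (nu : Ker (co phi i) →+ ℤ) :
    ∃ mu : L →+ ℤ, mu S = 0 ∧ (∀ a : Ker (co phi i), mu (a : L) = nu a) ∧ (nu ≠ 0 → mu ≠ 0) ∧
      ∀ b : L, mu b = nu (prj (co phi i) S h b) := by
  refine ⟨nu.comp (prj (co phi i) S h), ?_, ?_, ?_, fun b => rfl⟩
  · change nu (prj (co phi i) S h S) = 0
    have h1 : prj (co phi i) S h S = 0 := by
      apply Subtype.ext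
      rw [prj_coe, h, one_smul, sub_self]
      rfl
    rw [h1, map_zero]
  · intro a
    change nu (prj (co phi i) S h (a : L)) = nu a
    congr 1
    apply Subtype.ext
    rw [prj_coe]
    have h1 : co phi i (a : L) = 0 := a.2
    rw [h1, zero_smul, sub_zero]
  · intro hne h0
    apply hne
    apply AddMonoidHom.ext
    intro a
    have h1 : (nu.comp (prj (co phi i) S h)) (a : L) = 0 := by rw [h0]; rfl
    have h2 : nu (prj (co phi i) S h (a : L)) = nu a := by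
      congr 1
      apply Subtype.ext
      rw [prj_coe]
      have h1 : co phi i (a : L) = 0 := a.2
      rw [h1, zero_smul, sub_zero]
    rw [← h2]
    exact h1

/-- full: no killing functional. -/
theorem full_of_kw (hK : KmuS) (hRk : RkS) (hD : DD phi E) (h : co phi i S = 1)
    (hf : ∀ mu : L →+ ℤ, Kw phi E S i e mu → mu = 0) :
    rk (supp (cl (co phi i) S h e E)) = Module.finrank ℤ (Ker (co phi i)) := by
  have h1 := (hRk (Ker (co phi i)) (Ker (co phi i))).2.2.1 (supp (cl (co phi i) S h e E))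
  by_contra hne
  obtain ⟨nu, hnu, hk⟩ := hK _ (supp (cl (co phi i) S h e E)) (lt_of_le_of_ne h1 hne)
  obtain ⟨mu, m1, m2, m3, -⟩ := ext_ker h nu
  apply m3 hnu
  exact hf mu ((kw_iff hD h mu).mpr ⟨m1, fun a ha => by rw [m2]; exact hk a ha⟩)

/-- a killing functional: a drop. -/
theorem drop_of_kw (hRk : RkS) (hD : DD phi E) (h : co phi i S = 1) {mu : L →+ ℤ} (hmu : mu ≠ 0)
    (hk : Kw phi E S i e mu) :
    rk (supp (cl (co phi i) S h e E)) + 1 ≤ Module.finrank ℤ (Ker (co phi i)) := by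
  obtain ⟨h0, h1⟩ := (kw_iff hD h mu).mp hk
  refine Tl.rk_lt_finrank (mu.comp (incl (Ker (co phi i)))) (fun a ha => h1 a ha) ?_
  intro h2
  apply hmu
  apply AddMonoidHom.ext
  intro x
  have h3 : mu ((prj (co phi i) S h x : Ker (co phi i)) : L) = 0 := by
    have := congrArg (fun F : Ker (co phi i) →+ ℤ => F (prj (co phi i) S h x)) h2
    exact this
  rw [prj_coe, map_sub, map_zsmul, h0, smul_zero, sub_zero] at h3
  rw [h3]
  rfl

/-- exactly one killing functional. -/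
theorem one_of_kw (hK : KmuS) (hRk : RkS) (hD : DD phi E) (h : co phi i S = 1) {mu : L →+ ℤ}
    (hmu : mu ≠ 0) (hk : Kw phi E S i e mu) {b : L}
    (hone : ∀ nu : L →+ ℤ, Kw phi E S i e nu → nu b = 0 → nu = 0) :
    rk (supp (cl (co phi i) S h e E)) + 1 = Module.finrank ℤ (Ker (co phi i)) := by
  have h1 := drop_of_kw hRk hD h hmu hk
  by_contra hne
  have h2 := Tl.rk_insert_le (prj (co phi i) S h b) (supp (cl (co phi i) S h e E))
  obtain ⟨nu, hnu, hkk⟩ := hK _ (insert (prj (co phi i) S h b)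
    (supp (cl (co phi i) S h e E))) (by omega)
  obtain ⟨mu', m1, m2, m3, m4⟩ := ext_ker h nu
  apply m3 hnu
  refine hone mu' ((kw_iff hD h mu').mpr ⟨m1, fun a ha => ?_⟩) ?_
  · rw [m2]
    exact hkk a (Set.mem_insert_of_mem _ ha)
  · rw [m4]
    exact hkk _ (Set.mem_insert _ _)

end

end Pool.Agent.B5.BP57
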