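import Pool.Agent.Lib.MP_b5021c_nt.BP.H57.Eta
import Pool.Agent.Lib.MP_b5021c_nt.B.H93.Cev
import Pool.Agent.Lib.MP_b5021c_nt.IfaceEF
import Pool.Agent.Lib.MP_b5021c_nt.UF.H83.Cno

/-!
# Board b5, BpS, row T2N: the second closing at `eta`, full rank, no small factor

`H` in `DD` over `Eis`, rank `2N - 2`, `w H_0 = v`, `v(0) = N - eta`, `w u H_b = -bt`,
`bt(0) = 1`: the closing `w^b = u` is `c G`, `G` in `DD`, z-free and primitive, `c` of measure one.
-/

namespace Pool.Agent.B5.BP57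

open scoped LaurentPolynomial
open Polynomial Pool.Agent.B5
open Pool.Agent.MP_b5021c_nt (Eis)
open Pool.Agent.MP_b5021c_nt.Ire (bc)
open Pool.Agent.B5.H25.Bch
open Pool.Agent.B5.BP90 (Et pE pE_inj embN et_im_ne)
open Pool.Agent.B5.H93 (nE_cast three_le_nE classV_const)

/-! ## Numbers -/

theorem sqrt_n2 {N : ℕ} (hN : 3 ≤ N) : Nat.sqrt (4 * (N * N + 3 - 3 * N)) = 2 * N - 3 := by
  obtain ⟨k, rfl⟩ : ∃ k, N = k + 3 := ⟨N - 3, by omega⟩
  have h1 : 4 * ((k + 3) * (k + 3) + 3 - 3 * (k + 3)) = (2 * (k + 3) - 3) * (2 * (k + 3) - 3) + 3 := by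
    have h2 : (k + 3) * (k + 3) + 3 - 3 * (k + 3) = k * k + 3 * k + 3 := by
      have h3 : (k + 3) * (k + 3) = k * k + 6 * k + 9 := by ring
      omega
    have h3 : 2 * (k + 3) - 3 = 2 * k + 3 := by omega
    rw [h2, h3]
    ring
  rw [h1]
  refine Nat.sqrt_add_eq _ ?_
  omega

/-- a content or a second big factor loses rank. -/
theorem num_two {N x y : ℕ} (hN : 3 ≤ N) (hx : 3 ≤ x) (hy : 3 ≤ y)
    (h : x * y = N * N + 3 - 3 * N) : Nat.sqrt (4 * x) + Nat.sqrt (4 * y) < 2 * N - 3 := by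
  obtain ⟨m, rfl⟩ : ∃ m, N = m + 3 := ⟨N - 3, by omega⟩
  have h2 : (m + 3) * (m + 3) + 3 - 3 * (m + 3) = m * m + 3 * m + 3 := by
    have h3 : (m + 3) * (m + 3) = m * m + 6 * m + 9 := by ring
    omega
  rw [h2] at h
  obtain ⟨A, hA⟩ : ∃ A, A = Nat.sqrt (4 * x) := ⟨_, rfl⟩
  obtain ⟨B, hB⟩ : ∃ B, B = Nat.sqrt (4 * y) := ⟨_, rfl⟩
  have hA1 : A * A ≤ 4 * x := by rw [hA]; exact Nat.sqrt_le (4 * x)
  have hB1 : B * B ≤ 4 * y := by rw [hB]; exact Nat.sqrt_le (4 * y)
  have hA3 : 3 ≤ A := by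
    rw [hA, Nat.le_sqrt]
    omega
  have hB3 : 3 ≤ B := by
    rw [hB, Nat.le_sqrt]
    omega
  rw [← hA, ← hB]
  by_contra hcon
  have hsum : 2 * m + 3 ≤ A + B := by omega
  have hAB : (A * B) * (A * B) ≤ 16 * (m * m + 3 * m + 3) := by
    calc (A * B) * (A * B) = (A * A) * (B * B) := by ring
      _ ≤ (4 * x) * (4 * y) := Nat.mul_le_mul hA1 hB1
      _ = 16 * (x * y) := by ring
      _ = _ := by rw [h]
  have h3 : 3 * (A + B) ≤ A * B + 9 := by
    obtain ⟨a, rfl⟩ : ∃ a, A = a + 3 := ⟨A - 3, by omega⟩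
    obtain ⟨b, rfl⟩ : ∃ b, B = b + 3 := ⟨B - 3, by omega⟩
    nlinarith [Nat.zero_le (a * b)]
  have h4 : 6 * m ≤ A * B := by omega
  have h5 : (6 * m) * (6 * m) ≤ 16 * (m * m + 3 * m + 3) := (Nat.mul_le_mul h4 h4).trans hAB
  have h6 : m ≤ 3 := by nlinarith
  have hxy : x ≤ 7 ∧ y ≤ 7 := by
    have h8 : m * m + 3 * m + 3 ≤ 21 := by nlinarith
    constructor <;> nlinarith
  obtain ⟨hx7, hy7⟩ := hxy
  have h9 : 9 ≤ x * y := Nat.mul_le_mul hx hy
  rw [h] at h9
  have hm2 : 2 ≤ m := by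
    by_contra h10
    interval_cases m <;> omega
  have hcase : (x = 3 ∧ y = 7 ∧ m = 3) ∨ (x = 7 ∧ y = 3 ∧ m = 3) := by
    clear hA hB hA1 hB1 hcon hsum hAB h3 h4 h5
    interval_cases m <;> interval_cases x <;> omega
  rcases hcase with ⟨rfl, rfl, rfl⟩ | ⟨rfl, rfl, rfl⟩
  · have h10 : A ≤ 3 := by nlinarith
    have h11 : B ≤ 5 := by nlinarith
    omega
  · have h10 : A ≤ 5 := by nlinarith
    have h11 : B ≤ 3 := by nlinarith
    omega

theorem num_one {N x y : ℕ} (hN : 3 ≤ N) (hx : 3 ≤ x)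
    (h : x * y = N * N + 3 - 3 * N) : Nat.sqrt (4 * y) < 2 * N - 3 := by
  obtain ⟨m, rfl⟩ : ∃ m, N = m + 3 := ⟨N - 3, by omega⟩
  have h2 : (m + 3) * (m + 3) + 3 - 3 * (m + 3) = m * m + 3 * m + 3 := by
    have h3 : (m + 3) * (m + 3) = m * m + 6 * m + 9 := by ring
    omega
  rw [h2] at h
  have h3 : 3 * y ≤ m * m + 3 * m + 3 := by
    rw [← h]
    exact Nat.mul_le_mul_right y hx
  rw [Nat.sqrt_lt]
  have h4 : 2 * (m + 3) - 3 = 2 * m + 3 := by omega
  rw [h4]
  nlinarith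

theorem n2_odd {N : ℕ} (hN : 3 ≤ N) : Odd (N * N + 3 - 3 * N) := by
  obtain ⟨m, rfl⟩ : ∃ m, N = m + 3 := ⟨N - 3, by omega⟩
  have h2 : (m + 3) * (m + 3) + 3 - 3 * (m + 3) = m * m + 3 * m + 3 := by
    have h3 : (m + 3) * (m + 3) = m * m + 6 * m + 9 := by ring
    omega
  rw [h2]
  rcases Nat.even_or_odd m with ⟨k, rfl⟩ | ⟨k, rfl⟩
  · exact ⟨2 * k * k + 3 * k + 1, by ring⟩
  · exact ⟨2 * k * k + 5 * k + 3, by ring⟩

theorem bev_dvd {N x : ℕ} (hN : 3 ≤ N) (hx : 3 ≤ x) (h : x ∣ N * N + 3 - 3 * N) :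
    Bev x = Nat.sqrt (4 * x) := by
  have h12 : x ≠ 12 := by
    rintro rfl
    have h1 := n2_odd hN
    obtain ⟨k, hk⟩ := h
    rw [hk, Nat.odd_mul] at h1
    exact absurd h1.1 (by decide)
  unfold Bev
  rw [if_neg (by omega), if_neg h12]

/-- the norm of `N - eta - 1`. -/
theorem nE_al {et : Eis} (he : Et et) {N : ℕ} (hN : 3 ≤ N) :
    nE (((N : ℤ) : Eis) - et - 1) = N * N + 3 - 3 * N := by
  have h1 : ((nE (((N : ℤ) : Eis) - et - 1) : ℕ) : ℝ) = ((N * N + 3 - 3 * N : ℕ) : ℝ) := by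
    rw [nE_cast, ← Complex.normSq_eq_norm_sq, Complex.normSq_apply, map_sub, map_sub, embN,
      map_one]
    have h2 : 3 * N ≤ N * N + 3 := by nlinarith
    rw [Nat.cast_sub h2]
    obtain ⟨h3, h4⟩ := he
    simp only [Complex.sub_re, Complex.intCast_re, Complex.one_re, Complex.sub_im,
      Complex.intCast_im, Complex.one_im, h3]
    push_cast
    nlinarith
  exact_mod_cast h1

/-! ## Factors -/

section

variable {P L : Type} [Fintype P] [DecidableEq P] [AddCommGroup L] [Module.Free ℤ L]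
  [Module.Finite ℤ L] {phi : L →+ (P → ℤ)}

/-- The rank of a factor (any closing with injective outside ports). -/
theorem fac_rkE (hEv : EvS) (hR : ResWDS) (hRS : ResStS) {D : AO Eis L} {S : L} {i0 : P}
    {eta : (RO Eis)ˣ} {h : co phi i0 S = 1} {c : RO Eis} {n : ℕ}
    {G : Fin n → AO Eis (Ker (co phi i0))} (hI : ImS phi S) (fd : FD phi D S i0 eta h c n G)
    (i : Fin n) {ga : Eis} (hV : ClassV ‖(Coef.emb ga : ℂ)‖ ((G i).coeff 0)) :
    rk (supp (G i)) ≤ Bev (nE ga) := by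
  obtain ⟨U, hsat, hU, hUr, hirr, hun, hrk⟩ := hR Eis (Ker (co phi i0)) (G i) (fd.irr i).ne_zero
  have hDD : DD ((phO phi S i0).comp (incl U)) (res U (G i)) :=
    ⟨(injO hI h).comp fun _ _ hh => Subtype.ext hh, fun a ha => binO (a : Ker (co phi i0))
      (fd.ww i _ ha), (hRS Eis (Ker (co phi i0)) (G i) U hsat hU).mp (fd.st i), hun (fd.un i),
      hirr (fd.irr i), by rw [hrk, hUr]⟩
  have hV' : ClassV ‖(Coef.emb ga : ℂ)‖ ((res U (G i)).coeff 0) := hV
  have h1 := hEv ga P U _ _ hDD hV'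
  rw [hUr] at h1
  exact_mod_cast h1

/-- An extremal element of class `V` over `Eis` is z-free. -/
theorem zfree_ext (hFcl : FclS) (hEv : EvS) (hEvm : EvmS) {D : AO Eis L} (hD : DD phi D)
    {ga : Eis} (hV : ClassV ‖(Coef.emb ga : ℂ)‖ (D.coeff 0)) (h1 : 1 ≤ Module.finrank ℤ L)
    (hr : Bev (nE ga) ≤ Module.finrank ℤ L) : ZFree D := by
  rcases hFcl Eis P L phi D _ hD hV h1 with h2 | ⟨N', b, D', hN', hD', hV', hr'⟩
  · exact h2
  · exfalso
    obtain ⟨ga', hga'⟩ := classV_const hV'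
    rw [← hga'] at hV' hN'
    have h3 := hEv ga' (Option P) (L × ℤ) (phC phi b) D' hD' hV'
    have h4 : nE ga' ≤ nE ga := by
      have h5 : ((nE ga' : ℕ) : ℝ) ≤ ((nE ga : ℕ) : ℝ) := by
        rw [nE_cast, nE_cast]
        exact pow_le_pow_left₀ (norm_nonneg _) hN' 2
      exact_mod_cast h5
    have h6 := hEvm.1 h4
    have h7 : Module.finrank ℤ (L × ℤ) ≤ Bev (nE ga') := by exact_mod_cast h3
    omega

/-- T2N: extremal second closing. -/
theorem t2n (hG1 : G1pS) (hR : ResWDS) (hRS : ResStS) (hEv : EvS) (hEvm : EvmS)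
    (hFcl : FclS) (hE1 : E1S) (hMV : MVS) (hMm : MmulS) (hU : UnitRS) (hE2 : E2S) (hVZ : VZS)
    (hRk : RkS) (hCno : Cno.CnoS) {H : AO Eis L} {b : L} {j : P} {u : (RO Eis)ˣ}
    {hj : co phi j b = 1} {c : RO Eis} {n : ℕ} {G : Fin n → AO Eis (Ker (co phi j))}
    (fd : FD phi H b j u hj c n G) (hs : snp phi b j G = ∅) (hI : ImS phi b)
    {et : Eis} (he : Et et) {N : ℕ} (hN : 3 ≤ N) (hr : Module.finrank ℤ L + 2 = 2 * N)
    {NV : ℝ} (hcv : ClassV NV (H.coeff 0)) {w : (RO Eis)ˣ} {v bt : Eis[X]}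
    (hv : (w : RO Eis) * H.coeff 0 = toLaurent v)
    (hv0 : v.coeff 0 = ((N : ℤ) : Eis) - et)
    (hb : (w : RO Eis) * ((u : RO Eis) * H.coeff b) = -toLaurent bt) (hb0 : bt.coeff 0 = 1)
    (hfull : rk (supp (cl (co phi j) b hj u H)) = Module.finrank ℤ (Ker (co phi j))) :
    ∃ G0 : AO Eis (Ker (co phi j)), DD (phO phi b j) G0 ∧ ZFree G0 ∧ Prim G0 ∧
      cl (co phi j) b hj u H = cst c * G0 ∧ ClassV 1 c ∧
      ((IsUnit c ∧ v - bt = C (((N : ℤ) : Eis) - et - 1)) ∨
        ∃ (d : ℕ) (s : Eisˣ) (G' R : AO Eis (Ker (co phi j))), 1 ≤ d ∧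
          v - bt = C (((N : ℤ) : Eis) - et - 1) * (1 - C (s : Eis) * X ^ d) ∧
          cl (co phi j) b hj u H = cst (toLaurent (1 - C (s : Eis) * X ^ d)) * G' ∧
          (∃ w : (RO Eis)ˣ, G' = cst (w : RO Eis) * G0) ∧ ZFree G' ∧ Prim G' ∧
          (w : RO Eis) * G'.coeff 0 = toLaurent (C (((N : ℤ) : Eis) - et - 1)) ∧
          ∀ a : Ker (co phi j), H.coeff (a : L) =
            G'.coeff a + toLaurent (1 - C (s : Eis) * X ^ d) * R.coeff a) := by
  classical
  obtain ⟨al, hal⟩ : ∃ al : Eis, al = ((N : ℤ) : Eis) - et - 1 := ⟨_, rfl⟩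
  have hN3 : (3 : ℝ) ≤ N := by exact_mod_cast hN
  have hker := finrank_kerO hRk hj
  -- the apex
  have hv0ne : v.coeff 0 ≠ 0 := by
    intro h1
    have h2 := eta_val he hv0
    rw [h1, map_zero, norm_zero] at h2
    linarith
  obtain ⟨hvz, -⟩ := zf_of_unit hU hcv hv hv0ne
  obtain ⟨hvcl, hle, hlt⟩ := ray_polyU hE2 hVZ fd.cc.dd fd.cc.two fd.cc.ray hv hb hvz
  have hap : (w : RO Eis) * (H.coeff 0 + (u : RO Eis) * H.coeff b) = toLaurent (v - bt) := by
    rw [mul_add, hv, hb, map_sub, sub_eq_add_neg]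
  have hap0 : (v - bt).coeff 0 = al := by rw [coeff_sub, hv0, hb0, hal]
  have haz : ZF ((v - bt).map Coef.emb) := by
    intro z hz h0
    rw [Polynomial.map_sub, eval_sub] at h0
    have h2 := hlt z hz
    rw [sub_eq_zero.mp h0] at h2
    exact lt_irrefl _ h2
  have hnE : nE al = N * N + 3 - 3 * N := by rw [hal]; exact nE_al he hN
  have hn2 : 3 ≤ N * N + 3 - 3 * N := by
    have : 3 * N ≤ N * N := Nat.mul_le_mul_right N hN
    omega
  have halr : (N : ℝ) - 3 / 2 ≤ ‖(Coef.emb al : ℂ)‖ := by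
    have h1 := Complex.re_le_norm (Coef.emb al : ℂ)
    rw [hal, map_sub, map_sub, embN, map_one, Complex.sub_re, Complex.sub_re, he.re,
      Complex.one_re, Complex.intCast_re] at h1
    rw [hal, map_sub, map_sub, embN, map_one]
    push_cast at h1 ⊢
    linarith
  have hal0 : al ≠ 0 := by
    intro h1
    rw [h1, map_zero, norm_zero] at halr
    linarith
  have hcl := classV_of hU hap (by rw [hap0]; linarith) haz
  rw [hap0] at hcl
  -- the factors
  have hcls := hcl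
  rw [fd.v00] at hcls
  obtain ⟨Nc, Np, h1, h2, hNN⟩ := (hE1 Eis).1 _ _ _ hcls
  obtain ⟨h3, h4⟩ := Clo.classV_prod hE1 hMV hMm (fun i => (G i).coeff 0) Finset.univ Np h2
  have hex : ∀ i, ∃ ga : Eis, ‖(Coef.emb ga : ℂ)‖ = M ((G i).coeff 0) :=
    fun i => classV_const (h3 i (Finset.mem_univ i))
  choose ga hga using hex
  obtain ⟨gc, hgc⟩ := classV_const h1
  have hbig := bigO hI fd hs
  have h3le : ∀ i, 3 ≤ nE (ga i) := by
    intro i
    apply three_le_nE
    rw [hga i]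
    exact hbig i
  have hcn : nE gc * ∏ i, nE (ga i) = nE al := by
    have h5 : ((nE gc * ∏ i, nE (ga i) : ℕ) : ℝ) = ((nE al : ℕ) : ℝ) := by
      have h6 : ((∏ i, nE (ga i) : ℕ) : ℝ) = (∏ i, M ((G i).coeff 0)) ^ 2 := by
        rw [Nat.cast_prod, ← Finset.prod_pow]
        refine Finset.prod_congr rfl fun i _ => ?_
        rw [nE_cast, hga i]
      rw [Nat.cast_mul, h6, nE_cast gc, nE_cast al, hgc, hNN, h4]
      ring
    exact_mod_cast h5
  rw [hnE] at hcn
  have hbigU : big G = Finset.univ := by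
    unfold big
    exact Finset.filter_true_of_mem fun i _ => hbig i
  have hrkle := hG1 Eis P L phi H b j u hj c n G fd
    (fun i b _ hp _ => absurd hp (nopureO hI fd i))
  rw [hs, hbigU, Finset.card_empty, add_zero] at hrkle
  have hrki : ∀ i, rk (supp (G i)) ≤ Bev (nE (ga i)) := fun i =>
    fac_rkE hEv hR hRS hI fd i (by rw [hga i]; exact h3 i (Finset.mem_univ i))
  have hsum := hEvm.2.2.2 (Fin n) Finset.univ (fun i => nE (ga i)) (fun i _ => h3le i)
  have hsum' : ∀ s : Finset (Fin n), ∑ i ∈ s, Bev (nE (ga i)) ≤ Bbg (∏ i ∈ s, nE (ga i)) :=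
    fun s => hEvm.2.2.2 (Fin n) s (fun i => nE (ga i)) (fun i _ => h3le i)
  have hle2 := Finset.sum_le_sum fun i (_ : i ∈ Finset.univ) => hrki i
  have hne : (Finset.univ : Finset (Fin n)).Nonempty := by
    rw [Finset.nonempty_iff_ne_empty]
    intro h5
    rw [h5, Finset.sum_empty] at hrkle
    omega
  obtain ⟨l, -⟩ := hne
  have hprodpos : ∀ s : Finset (Fin n), 1 ≤ ∏ i ∈ s, nE (ga i) := by
    intro s
    apply Nat.succ_le_of_lt
    apply Finset.prod_pos
    intro i _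
    have := h3le i
    omega
  -- `Bbg` of a divisor
  have hBbg : ∀ y : ℕ, 1 ≤ y → y ∣ N * N + 3 - 3 * N → (y = 1 ∨ 3 ≤ y) →
      Bbg y ≤ Nat.sqrt (4 * y) := by
    intro y _ hy h5
    unfold Bbg
    rcases h5 with h5 | h5
    · rw [if_pos h5]
      exact Nat.zero_le _
    · rw [if_neg (by omega), bev_dvd hN h5 hy]
  have hp13 : ∀ s : Finset (Fin n), (∏ i ∈ s, nE (ga i)) = 1 ∨ 3 ≤ ∏ i ∈ s, nE (ga i) := by
    intro s
    rcases Finset.eq_empty_or_nonempty s with he | ⟨i, hi⟩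
    · left
      rw [he, Finset.prod_empty]
    · right
      exact (h3le i).trans (Nat.le_of_dvd (hprodpos s) (Finset.dvd_prod_of_mem _ hi))
  -- no content
  have hgc1 : nE gc = 1 := by
    have hgcc : nE gc = 1 ∨ 3 ≤ nE gc := by
      have h5 : 1 ≤ ‖(Coef.emb gc : ℂ)‖ := by rw [hgc]; exact h1.1
      rcases lt_or_eq_of_le h5 with h6 | h6
      · exact Or.inr (three_le_nE h6)
      · left
        have h7 : ((nE gc : ℕ) : ℝ) = ((1 : ℕ) : ℝ) := by
          rw [nE_cast, ← h6]; norm_num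
        exact_mod_cast h7
    rcases hgcc with h5 | h5
    · exact h5
    · exfalso
      have h6 := num_one hN h5 hcn
      have h7 := hBbg _ (hprodpos Finset.univ) ⟨nE gc, by rw [← hcn]; ring⟩ (hp13 Finset.univ)
      omega
  rw [hgc1, one_mul] at hcn
  -- one factor
  have huniq : ∀ i, i = l := by
    intro i
    by_contra hi
    have hsp : nE (ga l) * ∏ k ∈ Finset.univ.erase l, nE (ga k) = N * N + 3 - 3 * N := by
      rw [Finset.mul_prod_erase Finset.univ (fun k => nE (ga k)) (Finset.mem_univ l), hcn]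
    have hmem : i ∈ Finset.univ.erase l := Finset.mem_erase.mpr ⟨hi, Finset.mem_univ i⟩
    have h5 : 3 ≤ ∏ k ∈ Finset.univ.erase l, nE (ga k) :=
      (h3le i).trans (Nat.le_of_dvd (hprodpos _) (Finset.dvd_prod_of_mem _ hmem))
    have h6 := num_two hN (h3le l) h5 hsp
    have h7 := hBbg _ (hprodpos (Finset.univ.erase l)) ⟨nE (ga l), by rw [← hsp]; ring⟩
      (Or.inr h5)
    have h8 : Bev (nE (ga l)) = Nat.sqrt (4 * nE (ga l)) := bev_dvd hN (h3le l) ⟨_, hsp.symm⟩
    have h9 := hsum' (Finset.univ.erase l)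
    have h10 := Finset.add_sum_erase Finset.univ (fun k => Bev (nE (ga k))) (Finset.mem_univ l)
    omega
  have hprodG : ∏ i, G i = G l := by
    rw [Finset.prod_eq_single l]
    · intro i _ hi
      exact absurd (huniq i) hi
    · intro hi
      exact absurd (Finset.mem_univ l) hi
  have hVG : cl (co phi j) b hj u H = cst c * G l := by rw [fd.eq, hprodG]
  have hsup : supp (cl (co phi j) b hj u H) = supp (G l) := by
    rw [hVG, H78.supp_cst_mul fd.c0]
  have hDDl : DD (phO phi b j) (G l) := dd_facO hI fd l (by rw [← hsup, hfull])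
  have hNc : Nc = 1 := by
    have h5 : ((nE gc : ℕ) : ℝ) = Nc ^ 2 := by rw [nE_cast, hgc]
    rw [hgc1] at h5
    have h6 := h1.1
    push_cast at h5
    nlinarith
  have hc1 : ClassV 1 c := by rw [← hNc]; exact h1
  have hgl : nE (ga l) = N * N + 3 - 3 * N := by
    rw [← hcn]
    symm
    rw [Finset.prod_eq_single l]
    · intro i _ hi
      exact absurd (huniq i) hi
    · intro hi
      exact absurd (Finset.mem_univ l) hi
  have hZ : ZFree (G l) := by
    refine zfree_ext hFcl hEv hEvm hDDl (ga := ga l) ?_ (by omega) ?_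
    · rw [hga l]
      exact h3 l (Finset.mem_univ l)
    · rw [bev_dvd hN (h3le l) (by rw [hgl]), hgl, sqrt_n2 hN]
      omega
  have hPr : Prim (G l) := (hE2 Eis P _ _ (G l) hDDl (by omega)).2.2.2.1
  refine ⟨G l, hDDl, hZ, hPr, hVG, hc1, ?_⟩
  by_cases hcu : IsUnit c
  · left
    refine ⟨hcu, ?_⟩
    rw [← hal]
    -- the apex is a monomial
    obtain ⟨q, l', n', hq, hl'⟩ := hZ
    have hprod0 : H.coeff 0 + (u : RO Eis) * H.coeff b = c * (G l).coeff 0 := by
      rw [fd.v00, Finset.prod_eq_single l]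
      · intro i _ hi
        exact absurd (huniq i) hi
      · intro hi
        exact absurd (Finset.mem_univ l) hi
    obtain ⟨cu, rfl⟩ := hcu
    have hm : ∃ g0 : Eis, (G l).coeff 0 = LaurentPolynomial.C g0 * LaurentPolynomial.T n' := by
      refine ⟨((G l).coeff 0).coeff n', ?_⟩
      apply AddMonoidAlgebra.ext
      apply Finsupp.ext
      intro k
      rw [← LaurentPolynomial.single_eq_C_mul_T, AddMonoidAlgebra.coeff_single,
        Finsupp.single_apply]
      split_ifs with h5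
      · rw [h5]
      · by_contra h6
        have h7 := hl' 0 k h6
        rw [map_zero, zero_add] at h7
        have hq' : (q : ℤ) ≠ 0 := by exact_mod_cast hq.ne'
        exact h5 (mul_left_cancel₀ hq' h7).symm
    obtain ⟨g0, hg0⟩ := hm
    rw [hprod0, hg0, ← mul_assoc] at hap
    obtain ⟨k, s, hsu, hks⟩ := (hU Eis _).mp (w * cu).isUnit
    rw [Units.val_mul] at hks
    rw [hks] at hap
    have h5 : (LaurentPolynomial.T 0 : RO Eis) * toLaurent (v - bt) =
        LaurentPolynomial.T (k + n') * toLaurent (C (s * g0)) := by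
      rw [LaurentPolynomial.T_zero, one_mul, ← hap, toLaurent_C, map_mul,
        LaurentPolynomial.T_add]
      ring
    have h6 : s * g0 ≠ 0 := by
      intro h7
      rw [h7, map_zero, map_zero, mul_zero, LaurentPolynomial.T_zero, one_mul] at h5
      have h8 := toLaurent_injective (h5.trans (map_zero _).symm)
      rw [h8, coeff_zero] at hap0
      exact hal0 hap0.symm
    obtain ⟨-, h7⟩ := H09.nf_unique 0 (k + n') (v - bt) (C (s * g0)) (by rw [hap0]; exact hal0)
      (by rw [coeff_C_zero]; exact h6) h5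
    rw [h7, coeff_C_zero] at hap0
    rw [h7, hap0]
  · right
    have hdif : v.coeff 0 - bt.coeff 0 = al := by rw [← coeff_sub, hap0]
    obtain ⟨d, s, G', R, hd, hA, hB, hw', hZ', hP', hG0', hR'⟩ :=
      hCno Eis P L phi H b j hj u c (G l) NV v bt w fd.cc.dd fd.cc.two fd.cc.ray hVG hZ hPr hc1
        hcu hcv hv hb hv0ne (by rw [hdif]; exact hal0) (by
          rw [hdif]
          have h5 : (Coef.emb (v.coeff 0) : ℂ) = Coef.emb al + 1 := by
            rw [hv0, hal, map_sub, map_sub, map_sub, map_one]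
            ring
          have h6 : (Coef.emb al : ℂ) ≠ 0 := by
            rw [← norm_pos_iff]
            linarith
          have h7 : (Coef.emb (v.coeff 0) : ℂ) / Coef.emb al = 1 + 1 / Coef.emb al := by
            rw [h5]
            field_simp
          rw [h7, Complex.add_re, Complex.one_re]
          have h8 := Complex.re_le_norm (1 / (Coef.emb al : ℂ))
          rw [norm_div, norm_one] at h8
          have h9 : (Coef.emb al : ℂ).re = (N : ℝ) - 3 / 2 := by
            rw [hal, map_sub, map_sub, embN, map_one, Complex.sub_re, Complex.sub_re, he.re,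
              Complex.one_re, Complex.intCast_re]
            push_cast
            ring
          have h10 : ‖(Coef.emb al : ℂ)‖ ^ 2 = (N : ℝ) * N - 3 * N + 3 := by
            rw [← nE_cast, hnE]
            have h11 : 3 * N ≤ N * N + 3 := by nlinarith
            rw [Nat.cast_sub h11]
            push_cast
            ring
          have h11 : (1 / (Coef.emb al : ℂ)).re = ((N : ℝ) - 3 / 2) / ((N : ℝ) * N - 3 * N + 3) := by
            rw [one_div, Complex.inv_re, h9, Complex.normSq_eq_norm_sq, h10]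
          rw [h11]
          have h12 : ((N : ℝ) - 3 / 2) / ((N : ℝ) * N - 3 * N + 3) ≤ 1 / 2 := by
            rw [div_le_div_iff₀ (by nlinarith) (by norm_num)]
            nlinarith [mul_nonneg (by linarith : (0 : ℝ) ≤ (N : ℝ) - 2)
              (by linarith : (0 : ℝ) ≤ (N : ℝ) - 3)]
          linarith)
    rw [hdif] at hA hG0'
    exact ⟨d, s, G', R, hd, by rw [← hal]; exact hA, hB, hw', hZ', hP', by rw [← hal]; exact hG0',
      hR'⟩

end

/-! ## The mutual case: binomials -/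

/-- the components of `p - (1 + eta) g`. -/
theorem bin_of_et {et : Eis} (he : Et et) {p g : ℤ[X]} {N : ℕ} {d : ℕ} (hd : 1 ≤ d)
    (hp0 : p.coeff 0 = N) (hg0 : g.coeff 0 = 1)
    (h : ∀ k, k ≠ 0 → k ≠ d → (pE p - C et * pE g - pE g).coeff k = 0) :
    ∃ (k : ℕ) (t r : ℤ), 1 ≤ k ∧ p = C (N : ℤ) + C t * X ^ k ∧ g = 1 + C r * X ^ k := by
  have key : ∀ k, k ≠ 0 → k ≠ d → p.coeff k = 0 ∧ g.coeff k = 0 := by
    intro k h1 h2
    have h3 := h k h1 h2
    rw [coeff_sub, coeff_sub, coeff_C_mul, pE_coeff, pE_coeff] at h3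
    have h4 : (((p.coeff k - g.coeff k : ℤ)) : Eis) - et * ((g.coeff k : ℤ) : Eis) = 0 := by
      push_cast
      linear_combination h3
    have h5 := BP90.et_zero he h4
    rw [h5] at h4
    have h6 : ((p.coeff k - 0 : ℤ) : Eis) = 0 := by
      rw [← h4]
      push_cast
      ring
    have h7 := congrArg (Coef.emb : Eis →+* ℂ) h6
    rw [embN, map_zero] at h7
    have h8 : p.coeff k - 0 = 0 := by exact_mod_cast h7
    exact ⟨by omega, h5⟩
  refine ⟨d, p.coeff d, g.coeff d, hd, ?_, ?_⟩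
  · ext k
    rw [coeff_add, coeff_C_mul, coeff_X_pow, coeff_C]
    by_cases h1 : k = 0
    · subst h1
      rw [hp0, if_pos rfl, if_neg (by omega), mul_zero, add_zero]
    · by_cases h2 : k = d
      · subst h2
        rw [if_neg h1, if_pos rfl, mul_one, zero_add]
      · rw [if_neg h1, if_neg h2, (key k h1 h2).1, mul_zero, add_zero]
  · ext k
    rw [coeff_add, coeff_C_mul, coeff_X_pow, coeff_one]
    by_cases h1 : k = 0
    · subst h1
      rw [hg0, if_pos rfl, if_neg (by omega), mul_zero, add_zero]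
    · by_cases h2 : k = d
      · subst h2
        rw [if_neg h1, if_pos rfl, mul_one, zero_add]
      · rw [if_neg h1, if_neg h2, (key k h1 h2).2, mul_zero, add_zero]

/-- the pair `(p - eta g, g)`: binomials. -/
theorem bin_of_t2n {et : Eis} (he : Et et) {p g : ℤ[X]} {N : ℕ}
    (hp0 : p.coeff 0 = N) (hg0 : g.coeff 0 = 1) {a : Eis}
    (h : pE p - C et * pE g - pE g = C a ∨ ∃ (d : ℕ) (s : Eisˣ), 1 ≤ d ∧
      pE p - C et * pE g - pE g = C a * (1 - C (s : Eis) * X ^ d)) :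
    ∃ (k : ℕ) (t r : ℤ), 1 ≤ k ∧ p = C (N : ℤ) + C t * X ^ k ∧ g = 1 + C r * X ^ k := by
  rcases h with h | ⟨d, s, hd, h⟩
  · refine bin_of_et he le_rfl hp0 hg0 fun k h1 _ => ?_
    rw [h, coeff_C, if_neg h1]
  · refine bin_of_et he hd hp0 hg0 fun k h1 h2 => ?_
    rw [h, coeff_C_mul, coeff_sub, coeff_one, if_neg h1, coeff_C_mul, coeff_X_pow, if_neg h2,
      mul_zero, sub_zero, mul_zero]

end Pool.Agent.B5.BP57
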