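import Pool.Agent.Lib.MP_b5021c_nt.BP.H57.Gw

/-!
# Board b5, BpS: row BPR_IN (helper57)
-/

namespace Pool.Agent.B5.BP57

open scoped LaurentPolynomial
open Polynomial Pool.Agent.B5 Pool.Agent.B5.BPR

/-- (BPR_IN) -/
theorem inS (hG0 : G0S) (hC0 : Coeff0S) (hMm : MmulS) (hE1 : E1S) (hMV : MVS) (hM1 : M1S)
    (hU : UnitRS) (hE2 : E2S) (hVZ : VZS) (hW : WWfS) (hRF : RayFacS) (hR : ResWDS)
    (hRS : ResStS) (hRk : RkS) (hFD : FDS) (hSm : SmallS) (hK : KmuS) : InS := by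
  intro P L _ _ _ _ _ phi E N p g T i e h x w mu b hRd hT hNb hx hw hmu hk hone
  have hX := hRd.toXt
  have hN := hX.n3
  obtain ⟨c, n, G, fd⟩ := hFD ℤ P L phi E T i e h (gl_cc hE2 hVZ hU hX hT)
  have hI : ImS phi T := by
    refine hRd.ims T ⟨hT.ray, -e, ?_⟩
    rw [Units.val_neg, neg_mul, hT.eq, neg_neg]
  have hrk := one_of_kw hK hRk hX.dd h hmu hk hone
  obtain ⟨P', L', x1, x2, x3, x4, x5, phi', E', S', w', w1', hD', hc', hr', hR', h0', hp', h1'⟩ :=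
    ind_dd hG0 hC0 hMm hE1 hMV hM1 hU hE2 hVZ hW hRF hR hRS hRk fd hI (snp_of_nb hSm fd hNb) hN
      hX.cv hX.rkL (w := 1) (p := p) (g := g) (by rw [Units.val_one, one_mul, hX.e0]) hX.p0
      (by rw [Units.val_one, one_mul, hT.eq]) hRd.g0 hrk hx hw
  have hC := hRd.ih P' L' phi' E' S' w' w1' (p - g) g hD' hc' hr'
    (fun K hKl => hRd.bnk K (by omega)) hR' h0' hp' h1' hRd.g0
  have hN1 : N = (N - 1) + 1 := by omega
  refine ⟨fun hg => ?_, fun hg => ?_⟩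
  · rw [hN1]
    exact bpx_succ (hC.1 hg)
  · rw [hN1]
    have h2 := hC.2 hg
    rw [hg] at h2
    exact bqx_succ h2

end Pool.Agent.B5.BP57
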