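import Pool.Agent.Lib.MP_b5021c_nt.E.H67.Rfc
import Pool.Agent.Lib.MP_b5021c_nt.E.H19.Tsf
import Pool.Agent.Lib.MP_b5021c_nt.IfaceKV
import Pool.Agent.Lib.MP_b5021c_nt.E.H78.Fcl
import Pool.Agent.Lib.MP_b5021c_nt.B.H07.Cro
import Pool.Agent.Lib.MP_b5021c_nt.B.H09.E2Psz
import Pool.Agent.Lib.MP_b5021c_nt.B.H40.LoadBase

/-!
# Board b5, BpS: one factor (any coefficient ring), small factors and drops (any coefficient ring)
-/

namespace Pool.Agent.B5.BP57

open scoped LaurentPolynomial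
open Polynomial Pool.Agent.B5

section

variable {O : Type} [CommRing O] [IsDomain O] [IsPrincipalIdealRing O] [Coef O]
  {P L : Type} [Fintype P] [DecidableEq P] [AddCommGroup L] [Module.Free ℤ L]
  [Module.Finite ℤ L] {phi : L →+ (P → ℤ)} {D : AO O L} {S : L} {i0 : P} {eta : (RO O)ˣ}
  {h : co phi i0 S = 1} {c : RO O} {n : ℕ} {G : Fin n → AO O (Ker (co phi i0))}

omit [Module.Free ℤ L] [Module.Finite ℤ L] in
/-- The kernel meets the line of `S` trivially. -/
theorem key_imO (hI : ImS phi S) (h : co phi i0 S = 1) (a : Ker (co phi i0))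
    (ha : ∀ j, phi S j = 0 → phi (a : L) j = 0) : a = 0 := by
  obtain ⟨k, hk⟩ := hI (a : L) ha
  have h1 : co phi i0 (a : L) = 0 := a.2
  rw [hk, map_zsmul, h, smul_eq_mul, mul_one] at h1
  apply Subtype.ext
  rw [hk, h1, zero_smul]
  rfl

omit [Module.Free ℤ L] [Module.Finite ℤ L] [IsDomain O] [IsPrincipalIdealRing O] in
theorem nopureO (hI : ImS phi S) (fd : FD phi D S i0 eta h c n G) (l : Fin n) :
    ¬ Pure phi S i0 (G l) := by
  intro hl
  obtain ⟨a, ha, b, hb, hab⟩ := fd.wd l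
  apply hab
  have h1 : a = 0 := key_imO hI h a fun j hj => hl a ha j (by
    unfold OO
    exact Finset.mem_filter.mpr ⟨Finset.mem_univ _, hj⟩)
  have h2 : b = 0 := key_imO hI h b fun j hj => hl b hb j (by
    unfold OO
    exact Finset.mem_filter.mpr ⟨Finset.mem_univ _, hj⟩)
  rw [h1, h2]

omit [Module.Free ℤ L] [Module.Finite ℤ L] [IsDomain O] [IsPrincipalIdealRing O] in
/-- No small non-pure factor: all factors are big. -/
theorem bigO (hI : ImS phi S) (fd : FD phi D S i0 eta h c n G) (hs : snp phi S i0 G = ∅)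
    (i : Fin n) : 1 < M ((G i).coeff 0) := by
  classical
  by_contra hcon
  have h1 : i ∈ snp phi S i0 G := by
    unfold snp
    exact Finset.mem_filter.mpr ⟨Finset.mem_univ i, hcon, nopureO hI fd i⟩
  rw [hs] at h1
  exact absurd h1 (Finset.notMem_empty i)

omit [Module.Free ℤ L] [Module.Finite ℤ L] in
theorem injO (hI : ImS phi S) (h : co phi i0 S = 1) : Function.Injective (phO phi S i0) := by
  rw [injective_iff_map_eq_zero]
  intro a ha
  apply key_imO hI h
  intro j hj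
  have h4 : phO phi S i0 a j = 0 := by rw [ha]; rfl
  change (if phi S j = 0 then phi (a : L) j else 0) = 0 at h4
  rw [if_pos hj] at h4
  exact h4

omit [Module.Free ℤ L] [Module.Finite ℤ L] in
theorem binO (a : Ker (co phi i0))
    (ha : WW (phK phi (co phi i0)) (II phi S i0) (OO phi S) a) : Bin (phO phi S i0) a := by
  intro j
  change (if phi S j = 0 then phi (a : L) j else 0) = 0 ∨
    (if phi S j = 0 then phi (a : L) j else 0) = 1
  by_cases hj : phi S j = 0
  · rw [if_pos hj]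
    exact ha.1 j (by
      unfold OO
      exact Finset.mem_filter.mpr ⟨Finset.mem_univ _, hj⟩)
  · left
    rw [if_neg hj]

/-- The kernel of a port of `S`. -/
theorem finrank_kerO (hRk : RkS) (h : co phi i0 S = 1) :
    Module.finrank ℤ (Ker (co phi i0)) + 1 = Module.finrank ℤ L := by
  have hk0 : co phi i0 ≠ 0 := by
    intro h0
    rw [h0] at h
    exact absurd h (by simp)
  exact (hRk L L).1 (co phi i0) hk0

/-- A factor on the kernel, of full rank. -/
theorem dd_facO (hI : ImS phi S) (fd : FD phi D S i0 eta h c n G) (l : Fin n)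
    (hrk : rk (supp (G l)) = Module.finrank ℤ (Ker (co phi i0))) :
    DD (phO phi S i0) (G l) :=
  ⟨injO hI h, fun a ha => binO a (fd.ww l a ha), fd.st l, fd.un l, fd.irr l, hrk⟩

/-- A divisor in a class `V` of an element with a unit lowest coefficient: class `V(1)`. -/
theorem low_classVO (hU : UnitRS) {x y : RO O} {w : (RO O)ˣ} {r : O[X]} {N : ℝ}
    (h : (w : RO O) * (x * y) = toLaurent r) (hr : ‖(Coef.emb (r.coeff 0) : ℂ)‖ = 1)
    (hx : ClassV N x) : N = 1 := by
  obtain ⟨hN, n, q, hq, hqN, -⟩ := hx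
  have hr0 : r.coeff 0 ≠ 0 := by
    intro h0
    rw [h0, map_zero, norm_zero] at hr
    exact zero_ne_one hr
  have hy : y ≠ 0 := by
    rintro rfl
    rw [mul_zero, mul_zero] at h
    have h1 := toLaurent_injective (h.symm.trans (map_zero _).symm)
    rw [h1, coeff_zero] at hr0
    exact hr0 rfl
  obtain ⟨m, g, hg, hg0⟩ := H40.exists_normal y hy
  obtain ⟨k, u, hu, h1⟩ := (hU O _).mp w.isUnit
  have hq0 : q.coeff 0 ≠ 0 := by
    intro h2
    rw [h2, map_zero, norm_zero] at hqN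
    linarith
  have hu0 : u ≠ 0 := hu.ne_zero
  have h2 : (LaurentPolynomial.T 0 : RO O) * toLaurent r =
      LaurentPolynomial.T (k + n + m) * toLaurent (C u * q * g) := by
    rw [LaurentPolynomial.T_zero, one_mul, ← h, h1, hq, hg, map_mul, map_mul, toLaurent_C,
      LaurentPolynomial.T_add, LaurentPolynomial.T_add]
    ring
  have hne : (C u * q * g).coeff 0 ≠ 0 := by
    rw [mul_coeff_zero, mul_coeff_zero, coeff_C_zero]
    exact mul_ne_zero (mul_ne_zero hu0 hq0) hg0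
  obtain ⟨-, h3⟩ := H09.nf_unique 0 (k + n + m) r (C u * q * g) hr0 hne h2
  have h4 := congrArg (fun f : O[X] => ‖(Coef.emb (f.coeff 0) : ℂ)‖) h3
  simp only [mul_coeff_zero, coeff_C_zero, map_mul, norm_mul] at h4
  rw [hr, hqN] at h4
  have h5 := Coef.one_le u hu0
  have h6 := Coef.one_le (g.coeff 0) hg0
  have h7 : (1 : ℝ) ≤ ‖(Coef.emb u : ℂ)‖ * N := one_le_mul_of_one_le_of_one_le h5 hN
  nlinarith

/-- A ray of the closing is an exponent of one factor. -/
theorem ray_split (hG0 : G0S) (hC0 : Coeff0S) (hW : WWfS) (hRF : RayFacS)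
    (fd : FD phi D S i0 eta h c n G) (hI : ImS phi S) {R : Ker (co phi i0)}
    (hR : Ray (cl (co phi i0) S h eta D) R) :
    ∃ l : Fin n, (cl (co phi i0) S h eta D).coeff R =
        (G l).coeff R * (c * ∏ i ∈ Finset.univ.erase l, (G i).coeff 0) ∧
      D.coeff 0 + (eta : RO O) * D.coeff S =
        (c * ∏ i ∈ Finset.univ.erase l, (G i).coeff 0) * (G l).coeff 0 := by
  classical
  have inj := injO (i0 := i0) hI h
  have hG00 : ∀ i, (G i).coeff 0 ≠ 0 := fun i => (fd.st i).1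
  obtain ⟨l, hl⟩ := hRF O P L phi D S i0 eta h c n G fd R hR
  set H : AO O (Ker (co phi i0)) := cst c * ∏ i ∈ Finset.univ.erase l, G i with hH
  have hsplit : cl (co phi i0) S h eta D = G l * H := by
    rw [fd.eq, hH, ← Finset.mul_prod_erase Finset.univ G (Finset.mem_univ l)]
    ring
  have hG0s := hG0 O P L phi D S i0 eta h fd.cc
  obtain ⟨-, lam, hpos, -⟩ := id hG0s.1
  have hGpos : ∀ i, Pos lam (G i) := fun i => (fd.full i lam hpos).2.1
  have hprod0 := fun s : Finset (Fin n) => H29.prod_coeff_zero hC0 G lam hGpos s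
  have hH0 : H.coeff 0 = c * ∏ i ∈ Finset.univ.erase l, (G i).coeff 0 := by
    rw [hH, H56.cstm, (hprod0 _).1]
  have hP0 : ∏ i ∈ Finset.univ.erase l, (G i).coeff 0 ≠ 0 :=
    Finset.prod_ne_zero_iff.mpr fun i _ => hG00 i
  have hH00 : H.coeff 0 ≠ 0 := by
    rw [hH0]
    exact mul_ne_zero fd.c0 hP0
  have hbinV : ∀ a ∈ supp (G l * H), Bin (phO phi S i0) a := by
    intro a ha
    rw [← hsplit] at ha
    exact binO a (hG0s.2.2.2.1 a ha)
  refine ⟨l, ?_, ?_⟩
  · rw [← hH0, hsplit]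
    exact H67.coeff_disj hW (phO phi S i0) inj (G l) H hbinV (hG00 l) hH00 R hl
  · rw [fd.v00, ← Finset.mul_prod_erase Finset.univ (fun i => (G i).coeff 0)
      (Finset.mem_univ l)]
    ring

/-- A factor with the other factors of measure one is the only one. -/
theorem uniq_fac (hMm : MmulS) (fd : FD phi D S i0 eta h c n G) (hI : ImS phi S)
    (hs : snp phi S i0 G = ∅) {l : Fin n}
    (hMH : M (c * ∏ i ∈ Finset.univ.erase l, (G i).coeff 0) = 1) :
    (∀ i, i = l) ∧ M c = 1 ∧ cl (co phi i0) S h eta D = cst c * G l := by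
  classical
  obtain ⟨mm1, mm2, mm3⟩ := hMm O
  have hbig := bigO hI fd hs
  have hG00 : ∀ i, (G i).coeff 0 ≠ 0 := fun i => (fd.st i).1
  have hP0 : ∏ i ∈ Finset.univ.erase l, (G i).coeff 0 ≠ 0 :=
    Finset.prod_ne_zero_iff.mpr fun i _ => hG00 i
  rw [mm1 _ _ fd.c0 hP0] at hMH
  have hc1 := mm2 c
  have hp1 := mm2 (∏ i ∈ Finset.univ.erase l, (G i).coeff 0)
  have hMc : M c = 1 := by nlinarith
  rw [hMc, one_mul] at hMH
  have huniq : ∀ i, i = l := by
    intro i
    by_contra hi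
    have hmem : i ∈ Finset.univ.erase l := Finset.mem_erase.mpr ⟨hi, Finset.mem_univ i⟩
    rw [← Finset.mul_prod_erase (Finset.univ.erase l) (fun i => (G i).coeff 0) hmem] at hMH
    rw [mm1 _ _ (hG00 i) (Finset.prod_ne_zero_iff.mpr fun i _ => hG00 i)] at hMH
    have h1 := hbig i
    have h2 := mm2 (∏ x ∈ (Finset.univ.erase l).erase i, (G x).coeff 0)
    nlinarith
  have hprod : ∏ i, G i = G l := by
    rw [Finset.prod_eq_single l]
    · intro i _ hi
      exact absurd (huniq i) hi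
    · intro hi
      exact absurd (Finset.mem_univ l) hi
  exact ⟨huniq, hMc, by rw [fd.eq, hprod]⟩

/-- ONE FACTOR, any content: a closing of class `V` without small factors, with a ray whose
coefficient has a unit lowest coefficient, has one factor. -/
theorem one_facC (hG0 : G0S) (hC0 : Coeff0S) (hMm : MmulS) (hE1 : E1S) (hMV : MVS) (hU : UnitRS)
    (hW : WWfS) (hRF : RayFacS) (fd : FD phi D S i0 eta h c n G) (hI : ImS phi S)
    (hs : snp phi S i0 G = ∅) {N : ℝ} (hV : ClassV N (D.coeff 0 + (eta : RO O) * D.coeff S))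
    {R : Ker (co phi i0)} (hR : Ray (cl (co phi i0) S h eta D) R) {w : (RO O)ˣ} {r : O[X]}
    (hr : (w : RO O) * (cl (co phi i0) S h eta D).coeff R = toLaurent r)
    (hr0 : ‖(Coef.emb (r.coeff 0) : ℂ)‖ = 1) :
    M c = 1 ∧ ∃ l, (∀ i, i = l) ∧ cl (co phi i0) S h eta D = cst c * G l := by
  classical
  obtain ⟨l, hco, hV0⟩ := ray_split hG0 hC0 hW hRF fd hI hR
  rw [hV0] at hV
  obtain ⟨N1, -, hN1, -, -⟩ := (hE1 O).1 _ _ _ hV
  have hN1' : N1 = 1 := by
    refine low_classVO hU (w := w) (y := (G l).coeff R) ?_ hr0 hN1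
    rw [← hr, hco, mul_comm ((G l).coeff R)]
  have hMH : M (c * ∏ i ∈ Finset.univ.erase l, (G i).coeff 0) = 1 := by
    rw [((hMV O).1 _ _ hN1).2, hN1']
  obtain ⟨h1, h2, h3⟩ := uniq_fac hMm fd hI hs hMH
  exact ⟨h2, l, h1, h3⟩

/-- ONE FACTOR: a closing of class `V` without small factors and without content, with a
ray whose coefficient has a unit lowest coefficient, has one factor. -/
theorem one_fac0 (hG0 : G0S) (hC0 : Coeff0S) (hMm : MmulS) (hE1 : E1S) (hMV : MVS) (hU : UnitRS)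
    (hW : WWfS) (hRF : RayFacS) (fd : FD phi D S i0 eta h c n G) (hI : ImS phi S)
    (hs : snp phi S i0 G = ∅) {N : ℝ} (hV : ClassV N (D.coeff 0 + (eta : RO O) * D.coeff S))
    {R : Ker (co phi i0)} (hR : Ray (cl (co phi i0) S h eta D) R) {w : (RO O)ˣ} {r : O[X]}
    (hr : (w : RO O) * (cl (co phi i0) S h eta D).coeff R = toLaurent r)
    (hr0 : ‖(Coef.emb (r.coeff 0) : ℂ)‖ = 1)
    (hc : ∀ x : RO O, (∀ a, x ∣ (cl (co phi i0) S h eta D).coeff a) → IsUnit x) :
    IsUnit c ∧ ∃ l, (∀ i, i = l) ∧ cl (co phi i0) S h eta D = cst c * G l := by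
  refine ⟨?_, (one_facC hG0 hC0 hMm hE1 hMV hU hW hRF fd hI hs hV hR hr hr0).2⟩
  apply hc
  intro a
  rw [fd.eq, H78.cstm]
  exact dvd_mul_right _ _

/-- ONE FACTOR: a closing without small factors, with a ray whose coefficient is prime to the
constant coefficient. -/
theorem one_facP (hG0 : G0S) (hC0 : Coeff0S) (hMm : MmulS) (hW : WWfS) (hRF : RayFacS)
    (fd : FD phi D S i0 eta h c n G) (hI : ImS phi S) (hs : snp phi S i0 G = ∅)
    {R : Ker (co phi i0)} (hR : Ray (cl (co phi i0) S h eta D) R)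
    (hc : ∀ x : RO O, x ∣ (cl (co phi i0) S h eta D).coeff 0 →
      x ∣ (cl (co phi i0) S h eta D).coeff R → IsUnit x) :
    IsUnit c ∧ ∃ l, (∀ i, i = l) ∧ cl (co phi i0) S h eta D = cst c * G l := by
  classical
  obtain ⟨l, hco, hV0⟩ := ray_split hG0 hC0 hW hRF fd hI hR
  have hcl0 := (hG0 O P L phi D S i0 eta h fd.cc).2.2.1
  have hu : IsUnit (c * ∏ i ∈ Finset.univ.erase l, (G i).coeff 0) := by
    apply hc
    · rw [hcl0, hV0]; exact dvd_mul_right _ _
    · rw [hco]; exact dvd_mul_left _ _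
  obtain ⟨h1, -, h3⟩ := uniq_fac hMm fd hI hs ((hMm O).2.2 _ hu)
  exact ⟨(IsUnit.mul_iff.mp hu).1, l, h1, h3⟩

/-- ONE FACTOR, full rank: the closing is in `DD`. -/
theorem one_facO (hG0 : G0S) (hC0 : Coeff0S) (hMm : MmulS) (hE1 : E1S) (hMV : MVS) (hU : UnitRS)
    (hW : WWfS) (hRF : RayFacS) (fd : FD phi D S i0 eta h c n G) (hI : ImS phi S)
    (hrk : rk (supp (cl (co phi i0) S h eta D)) = Module.finrank ℤ (Ker (co phi i0)))
    (hs : snp phi S i0 G = ∅) {N : ℝ} (hV : ClassV N (D.coeff 0 + (eta : RO O) * D.coeff S))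
    {R : Ker (co phi i0)} (hR : Ray (cl (co phi i0) S h eta D) R) {w : (RO O)ˣ} {r : O[X]}
    (hr : (w : RO O) * (cl (co phi i0) S h eta D).coeff R = toLaurent r)
    (hr0 : ‖(Coef.emb (r.coeff 0) : ℂ)‖ = 1)
    (hc : ∀ x : RO O, (∀ a, x ∣ (cl (co phi i0) S h eta D).coeff a) → IsUnit x) :
    IsUnit c ∧ DD (phO phi S i0) (cl (co phi i0) S h eta D) := by
  obtain ⟨hcu, l, -, hVG⟩ :=
    one_fac0 hG0 hC0 hMm hE1 hMV hU hW hRF fd hI hs hV hR hr hr0 hc
  have h3 : supp (cl (co phi i0) S h eta D) = supp (G l) := by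
    rw [hVG, H78.supp_cst_mul fd.c0]
  refine ⟨hcu, ?_⟩
  rw [hVG]
  refine H78.dd_cst hcu (fun z => (hcu.map (evR z)).ne_zero) (dd_facO hI fd l ?_)
  rw [← h3, hrk]

/-- A factor restricted to its own lattice. -/
theorem res_facO (hR : ResWDS) (hRS : ResStS) (hI : ImS phi S)
    (fd : FD phi D S i0 eta h c n G) (l : Fin n) :
    ∃ U : Submodule ℤ (Ker (co phi i0)), (∀ a ∈ supp (G l), a ∈ U) ∧
      Module.finrank ℤ U = rk (supp (G l)) ∧ DD ((phO phi S i0).comp (incl U)) (res U (G l)) := by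
  obtain ⟨U, hsat, hU, hUr, hirr, hun, hrk⟩ := hR O (Ker (co phi i0)) (G l) (fd.irr l).ne_zero
  exact ⟨U, hU, hUr, (injO hI h).comp fun _ _ hh => Subtype.ext hh,
    fun a ha => binO (a : Ker (co phi i0)) (fd.ww l _ ha),
    (hRS O (Ker (co phi i0)) (G l) U hsat hU).mp (fd.st l), hun (fd.un l),
      hirr (fd.irr l), by rw [hrk, hUr]⟩

/-- A small factor at `eta`, a drop at `eta'`: `TsgS` over any coefficient ring. -/
theorem tsgO (hqst : QstS) (h2 : QraS) (h3 : MinS) (h4 : Coeff0S) (h5 : B5aS)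
    (h6 : RkS) (hk : KmuS) (hqc : Qc3S) (hdv : Dv3S) {eta' : (RO O)ˣ} {m : ℤ} {v : O[X]}
    (fd : FD phi D S i0 eta h c n G) (hMc : M c = 1) (hsnp : (snp phi S i0 G).Nonempty)
    (hfull' : rk (supp (cl (co phi i0) S h eta D)) = Module.finrank ℤ (Ker (co phi i0)))
    (hne : eta' ≠ eta)
    (hdrop' : rk (supp (cl (co phi i0) S h eta' D)) < Module.finrank ℤ (Ker (co phi i0)))
    (hV : D.coeff 0 + (eta : RO O) * D.coeff S = LaurentPolynomial.T m * toLaurent v)
    (hnod : ∀ z0 : ℂ, ‖z0‖ = 1 → ¬ (X - C z0) ^ 2 ∣ v.map (Coef.emb : O →+* ℂ)) :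
    ∃ t : RO O, t ≠ 0 ∧ NnR t ∧ D.coeff 0 + (eta' : RO O) * D.coeff S =
        (1 - (eta' : RO O) * ((eta⁻¹ : (RO O)ˣ) : RO O)) *
          (t * (D.coeff 0 + (eta : RO O) * D.coeff S)) := by
  classical
  obtain ⟨mu, hmu, hmuV⟩ := hk _ _ hdrop'
  have hGne : ∀ i, (G i).coeff 0 ≠ 0 := fun i => (fd.st i).1
  -- the quotient
  obtain ⟨l, b, j, e', hj, q', hqc'⟩ := hqc O P L phi D S i0 eta h c n G fd hsnp
  have sp := hqc'.sp
  obtain ⟨q'', hq0, hX, -, hsym, -⟩ := hqst O P L phi D S i0 eta h c n G fd l b j e' sp hj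
  have hqq : q'' = q' := by
    have hUne : (∏ i ∈ Finset.univ.erase l, res (Ker (co (phK phi (co phi i0)) j)) (G i)) ≠ 0 := by
      refine Finset.prod_ne_zero_iff.2 fun i _ h0 => hGne i ?_
      have h9 := congrArg (fun F => F.coeff 0) h0
      exact h9
    have h7 := hqc'.xe
    rw [hX] at h7
    exact mul_right_cancel₀ hUne h7
  subst hqq
  obtain ⟨hqs, -, hstar, -⟩ := H19.star h2 h3 h4 h5 h6 fd sp hj q'' hq0 hX hsym hfull' eta' hne mu
    hmu hmuV
  obtain ⟨F, hF, hFn⟩ := hdv O P L phi D S i0 eta h c n G l b j e' hj q'' hqc' hMc m v hV hnod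
  have hgne : c * (G l).coeff 0 ≠ 0 := mul_ne_zero fd.c0 (hGne l)
  -- the mass is a constant
  have hF0 : q''.coeff 0 = (c * (G l).coeff 0) * F.coeff 0 := by
    conv_lhs => rw [hF]
    rw [H71.cst_mul_coeff]
  have hFc : F = cst (F.coeff 0) := by
    apply AddMonoidAlgebra.ext
    apply Finsupp.ext
    intro x
    rw [cst, AddMonoidAlgebra.coeff_single, Finsupp.single_apply]
    split_ifs with h0
    · rw [← h0]
    · have h7 : q''.coeff x = 0 := by
        rw [hqs, cst, AddMonoidAlgebra.coeff_single, Finsupp.single_apply, if_neg h0]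
      rw [hF, H71.cst_mul_coeff] at h7
      exact (mul_eq_zero.1 h7).resolve_left hgne
  obtain ⟨t, ht⟩ : ∃ t, t = F.coeff 0 := ⟨_, rfl⟩
  rw [← ht] at hF0 hFc
  refine ⟨t, ?_, ?_, ?_⟩
  · intro h0
    rw [h0, mul_zero] at hF0
    rw [hF0] at hqs
    apply hq0
    rw [hqs]
    simp [cst]
  · intro z
    have h7 := hFn z 1
    rw [hFc, cst, H71.ev_single] at h7
    simpa using h7
  · rw [hstar, hF0, fd.v00, ← Finset.mul_prod_erase Finset.univ (fun i => (G i).coeff 0)
      (Finset.mem_univ l)]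
    ring

end

end Pool.Agent.B5.BP57
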