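import Pool.Agent.Lib.MP_b5021c_nt.BP.H57.Pzg
import Pool.Agent.Lib.MP_b5021c_nt.BP.H90.Tys
import Pool.Agent.Lib.MP_b5021c_nt.BP.H12.Pb

/-!
# Board b5, BpS: row BPR_PZ (helper57)
-/

namespace Pool.Agent.B5.BP57

open scoped LaurentPolynomial
open Polynomial Pool.Agent.B5 Pool.Agent.B5.BPR
open Pool.Agent.MP_b5021c_nt (Eis)
open Pool.Agent.MP_b5021c_nt.Ire (bc)
open Pool.Agent.B5.H25.Bch
open Pool.Agent.B5.BP90 (Et pE pE_inj embN et_im_ne et_zero)
open Pool.Agent.B5.H40 (uT uT_val)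
open Pool.Agent.B5.Tl

section

variable {P L : Type} [Fintype P] [DecidableEq P] [AddCommGroup L] [Module.Free ℤ L]
  [Module.Finite ℤ L] {phi : L →+ (P → ℤ)} {E : AO ℤ L} {N : ℕ} {p g f F : ℤ[X]} {b T R : L}
  {i iT iR : P} {e eT : (RO ℤ)ˣ} {mu nu : L →+ ℤ} {sb sT : ℤˣ} {mb mT : ℤ} {kk : ℕ} {r : ℤ}
  {nuT : ℤ × L →+ ℤ}

/-- NO BINOMIAL DIVISOR at the third ray, pattern 1. -/
theorem third_nb (hFD : FDS) (hG0 : G0S) (hUA : UnitAS) (hMin : MinS) (hC1 : C1bS)
    (hMm : MmulS) (hSm : SmallS) (hU : UnitRS) (hE2 : E2S) (hVZ : VZS)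
    (h0 : P0 N phi E p g f b T iT sb sT mb mT F kk r nuT)
    (heT : eT = uT sT mT) (hX : Xt N p phi E)
    (hT : Gl phi E T iT eT f) (hf1 : f ≠ 1)
    (hRT : co phi iT R = 0) (hTR : co phi iR T = 0) (hNT : Nb phi E T iT eT)
    (hpat : (eT : RO ℤ) * E.coeff (R + T) = -E.coeff R)
    {sR : ℤˣ} {m s : ℤ} (hR : Gl phi E R iR (uT sR (-s)) (C m)) (hI : ImS phi R)
    (hs : nuT (s, R) ≠ 0) : Nb phi E R iR (uT sR (-s)) := by
  intro hh b' e' hb' hd
  have hD := hX.dd
  have hN := hX.n3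
  obtain ⟨eR, heR⟩ : ∃ eR : (RO ℤ)ˣ, eR = uT sR (-s) := ⟨_, rfl⟩
  have hR0 := hR
  rw [← heR] at hR0
  obtain ⟨c, n, G, fd⟩ := hFD ℤ P L phi E R iR eR hh (gl_cc hE2 hVZ hU hX hR0)
  rw [← heR] at hd
  obtain ⟨j, hj⟩ := BP90.small_of_bin hG0 hUA hMin hC1 hMm fd hb' hd
  obtain ⟨-, ⟨b2, hb2, hsup, e2, hG⟩, -⟩ := hSm ℤ P L phi E R iR eR hh c n G fd j hj
  obtain ⟨V, hV⟩ : ∃ V : AO ℤ (Ker (co phi iR)), V = cl (co phi iR) R hh eR E := ⟨_, rfl⟩
  have hdv : (1 - AddMonoidAlgebra.single b2 ((e2⁻¹ : (RO ℤ)ˣ) : RO ℤ)) ∣ V := by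
    rw [hV, fd.eq]
    refine Dvd.dvd.mul_left ?_ _
    refine dvd_trans ?_ (Finset.dvd_prod_of_mem G (Finset.mem_univ j))
    rw [hG]
    exact dvd_mul_left _ _
  have hbinV : ∀ a ∈ supp V, co phi iT (a : L) = 0 ∨ co phi iT (a : L) = 1 := by
    intro a ha
    have h1 : V.coeff a ≠ 0 := ha
    rw [hV, H47.cl_coeff_bin (co phi iR) R hh eR E (fun x hx => hD.bin x hx iR)] at h1
    by_cases h2 : E.coeff (a : L) = 0
    · rw [h2, zero_add] at h1
      have h3 : co phi iT ((a : L) + R) = 0 ∨ co phi iT ((a : L) + R) = 1 :=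
        hD.bin _ (right_ne_zero_of_mul h1) iT
      rw [map_add, hRT, add_zero] at h3
      exact h3
    · exact hD.bin _ h2 iT
  -- `b2 = T`
  have hb2T : (b2 : L) = T := by
    have h1 := BP80.lev_core hU (co phi iT) (co phi iR) T R hT.po hh hRT hTR sT sR mT (-s) E
      (fun a ha => hD.bin a ha iT) (fun a ha => hD.bin a ha iR) nuT h0.kt
      (by rw [neg_neg]; exact hs) b2 e2⁻¹ (by rw [← heR, ← hV]; exact hdv)
    rcases h1 with h1 | ⟨b3, e3, h3, h4⟩
    · have h5 : Bin (phO phi R iR) b2 := binO b2 (fd.ww j b2 (by rw [hsup]; right; rfl))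
      have h6 : co phi iT (b2 : L) = 0 ∨ co phi iT (b2 : L) = 1 := by
        have h7 := h5 iT
        have h8 : phi R iT = 0 := hRT
        change (if phi R iT = 0 then phi (b2 : L) iT else 0) = 0 ∨
          (if phi R iT = 0 then phi (b2 : L) iT else 0) = 1 at h7
        rw [if_pos h8] at h7
        exact h7
      rcases h6 with h6 | h6
      · exfalso
        apply hb2
        apply Subtype.ext
        rw [h1, h6, zero_smul]
        rfl
      · rw [h1, h6, one_smul]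
    · exact absurd h4 (by rw [← heT]; exact hNT hT.po b3 e3 h3)
  -- close `V` at `T`
  have hpo : co (phO phi R iR) iT b2 = 1 := by
    change (if phi R iT = 0 then phi (b2 : L) iT else 0) = 1
    have h8 : phi R iT = 0 := hRT
    rw [if_pos h8, hb2T]
    exact hT.po
  have hz : cl (co (phO phi R iR) iT) b2 hpo e2 V = 0 := by
    obtain ⟨W, hW⟩ := hdv
    rw [hW, map_mul, map_sub, map_one, cl_single]
    have h1 : prj (co (phO phi R iR) iT) b2 hpo b2 = 0 := by
      apply Subtype.ext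
      rw [prj_coe, hpo, one_smul, sub_self]
      rfl
    rw [h1, hpo, zpow_one, Units.inv_mul]
    change (1 - (1 : AO ℤ _)) * _ = 0
    rw [sub_self, zero_mul]
  have h1 := H47.cl_coeff_bin (co (phO phi R iR) iT) b2 hpo e2 V (fun a ha => by
    have h8 : phi R iT = 0 := hRT
    change (if phi R iT = 0 then phi (a : L) iT else 0) = 0 ∨
      (if phi R iT = 0 then phi (a : L) iT else 0) = 1
    rw [if_pos h8]
    exact hbinV a ha) 0
  rw [hz, Submodule.coe_zero, zero_add] at h1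
  have h2 : V.coeff 0 = toLaurent (p - C m) := by
    rw [hV, H47.cl_coeff_bin (co phi iR) R hh eR E (fun x hx => hD.bin x hx iR),
      Submodule.coe_zero, zero_add]
    exact gl_apex hX hR0
  have h3 : (eT : RO ℤ) * V.coeff b2 = toLaurent (C m - f) := by
    rw [hV, H47.cl_coeff_bin (co phi iR) R hh eR E (fun x hx => hD.bin x hx iR), hb2T, map_sub]
    have h4 : T + R = R + T := add_comm _ _
    rw [h4]
    linear_combination hT.eq + (eR : RO ℤ) * hpat - hR0.eq
  have h4 : toLaurent (p - C m) = ((e2 * eT⁻¹ : (RO ℤ)ˣ) : RO ℤ) * toLaurent (f - C m) := by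
    have h5 : V.coeff b2 = ((eT⁻¹ : (RO ℤ)ˣ) : RO ℤ) * toLaurent (C m - f) := by
      rw [← h3, ← mul_assoc, Units.inv_mul, one_mul]
    have h6 : (0 : RO ℤ) = V.coeff 0 + (e2 : RO ℤ) * V.coeff b2 := h1
    rw [h2, h5] at h6
    rw [Units.val_mul]
    have h7 : toLaurent (C m - f) = -toLaurent (f - C m) := by
      rw [← map_neg, neg_sub]
    rw [h7] at h6
    linear_combination -h6
  have hm1 : 1 ≤ m := by
    have := hR.pos
    rw [coeff_C_zero] at this
    exact this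
  have hmN : m < N := by
    have := gl_lt hE2 hVZ hU hX hR
    rw [coeff_C_zero] at this
    exact this
  have hFn : F ≠ 0 := by
    intro h5
    apply hf1
    rw [h0.hf, h5, add_zero]
  refine assoc_no hU hN hm1 hmN h0.f0 hFn (u := e2 * eT⁻¹) ?_
  have h5 : p - C m = C ((N : ℤ) - m) + F := by
    rw [h0.hp, C_sub]
    ring
  have h6 : f - C m = C (1 - m) + F := by
    rw [h0.hf, C_sub, C_1]
    ring
  rw [← h5, ← h6]
  exact h4

/-- the easy ends. -/
theorem pz_easy (h0 : P0 N phi E p g f b T iT sb sT mb mT F kk r nuT)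
    (h : g = 1 ∨ f = 1 ∨ r = 0) : Cn N p g := by
  have hN := h0.bff.1
  by_cases hg : g = 1
  · refine ⟨fun h1 => absurd hg h1, fun _ => Or.inl ⟨kk, r, h0.k1, ?_⟩⟩
    have h1 := h0.fg
    rw [hg, h0.hf] at h1
    rw [h0.hp]
    linear_combination h1
  · refine ⟨fun _ => ?_, fun h1 => absurd h1 hg⟩
    rcases h with h | h | h
    · exact absurd h hg
    · refine Or.inl ⟨kk, 0, -r, h0.k1, ?_, ?_⟩
      · have h1 := h0.hf
        rw [h] at h1
        rw [h0.hp, C_0, zero_mul]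
        linear_combination -h1
      · have h1 := h0.fg
        rw [h] at h1
        rw [C_neg]
        linear_combination -h1
    · refine Or.inr ⟨0, N, F, rfl, h0.bff, ?_, ?_⟩
      · rw [h0.hp]
        simp
      · have h1 := h0.fg
        rw [h, C_0, zero_mul, h0.hf] at h1
        linear_combination -h1

end

/-- (BPR_PZ) -/
theorem pzS (hLev : LevS) (hCnt : CntS) (hCtb : CtbS) (hMc : BP12.McOneS) (hUf : UfgS)
    (hGen : GenS) (hF2 : F2S) (hVco : VcoS) (hFD : FDS) (hE2 : E2S) (hVZ : VZS) (hU : UnitRS)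
    (hMV : MVS) (hE1 : E1S) (hM1 : M1S) (hMm : MmulS) (hG0 : G0S) (hC0 : Coeff0S) (hW : WWfS)
    (hRF : RayFacS) (hQst : QstS) (hQra : QraS) (hMin : MinS) (hB5 : B5aS) (hRk : RkS)
    (hKm : KmuS) (hQc : Qc3S) (hDv : Dv3S) (hNd : Nd3vS) (hD3 : D3S) (hG1 : G1pS)
    (hR : ResWDS) (hRS : ResStS) (hEv : EvS) (hEvR : EvRS) (hEvm : EvmS) (hFcl : FclS)
    (hCno : Cno.CnoS) (hQm : Qm3S) (hNr : Nr3S) (hHp : HpgS) (hTa : Ta3S) (hUm : Um3vS)
    (hSt : St3S) (hSw : Sw3S) (hZf : ZfinS) (hNn : Nn3S) (hSm : SmallS) (hV1 : V1S)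
    (hUA : UnitAS) (hC1 : C1bS) : PzS := by
  intro P L _ _ _ _ _ phi E N p g f b i e T iT eT mu hT' c n G hRd hb hT hadj hkw hmT hNb hNT hf0
    hfullT hZ hc
  classical
  have hX := hRd.toXt
  have hN := hX.n3
  have hD := hX.dd
  have hg0 := hRd.g0
  have hdis : ∀ q, phi T q = 0 ∨ phi b q = 0 :=
    BP12.dis_of_ou hVco hF2 hD.inj hD.bin hb.ray hT.ray hb.po ⟨mu, hkw, hmT⟩
  obtain ⟨hTi, hbT⟩ := port_dis hdis hb.po hT.po
  obtain ⟨sb, mb, hesb⟩ := unit_uT hU e
  obtain ⟨sT, mT, hesT⟩ := unit_uT hU eT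
  obtain ⟨F, kk, r, nuT, h0⟩ := pz_zero hUf hU hX (hRd.bnk (2 * N - 2) (by omega)) hb hT hf0 hg0
    hdis hkw hmT hfullT hZ hc hesb hesT hRk hKm
  by_cases hg1 : g = 1
  · exact pz_easy h0 (Or.inl hg1)
  by_cases hf1 : f = 1
  · exact pz_easy h0 (Or.inr (Or.inl hf1))
  by_cases hr : r = 0
  · exact pz_easy h0 (Or.inr (Or.inr hr))
  have hIb : ImS phi b := hRd.ims b (BP12.gray_of_gl hb)
  have hfct : ∀ lam : L →+ ℤ, FacF (supp E) lam → lam b = 0 →
      ∃ (i : P) (m : ℤ), 0 < m ∧ ∀ a, lam a = m * phi a i :=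
    fun lam h1 h2 => hRd.fct lam b h1 (BP12.gray_of_gl hb) h2
  obtain ⟨et, he⟩ : ∃ et : Eis, Et et := ⟨_, BP90.et_g6⟩
  obtain ⟨eu, heu⟩ : IsUnit et := IsUnit.of_mul_eq_one _ (et_mul he)
  obtain ⟨k0, hk0⟩ : ∃ k0 : (RO Eis)ˣ, (k0 : RO Eis) = LaurentPolynomial.C et * bcR (e : RO ℤ) :=
    ⟨Units.map (LaurentPolynomial.C : Eis →+* RO Eis) eu * bcU e, by
      rw [Units.val_mul, H09.bcU_val]
      change LaurentPolynomial.C ((eu : Eisˣ) : Eis) * _ = _
      rw [heu]⟩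
  obtain ⟨k1, hk1⟩ : ∃ k1 : (RO Eis)ˣ, (k1 : RO Eis) = LaurentPolynomial.C et * bcR (eT : RO ℤ) :=
    ⟨Units.map (LaurentPolynomial.C : Eis →+* RO Eis) eu * bcU eT, by
      rw [Units.val_mul, H09.bcU_val]
      change LaurentPolynomial.C ((eu : Eisˣ) : Eis) * _ = _
      rw [heu]⟩
  obtain ⟨c2, v2, bt2, H, T', pd⟩ := pd_ex hFD hE2 hVZ hU hMV hE1 hMm hG0 hC0 hW hRF hQst hQra
    hMin hB5 hRk hKm hQc hDv hNd hD3 he hk0 hk1 hX hb hg0 hT hf0 hIb hdis hadj hfct hkw hmT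
  have hrkle := (hRk (Ker (co (phO phi b i) iT)) (Ker (co (phO phi b i) iT))).2.2.1
    (supp (cl (co (phO phi b i) iT) T' pd.po k1 H))
  have hfF : ∀ k, |f.coeff k| ≤ 1 := by
    intro k
    rw [h0.hf, coeff_add, coeff_one]
    by_cases hk : k = 0
    · rw [if_pos hk, hk, h0.f0]
      norm_num
    · rw [if_neg hk, zero_add]
      exact h0.f1 k
  have hpf : p - f = C ((N : ℤ) - 1) := by
    rw [h0.hp, h0.hf, C_sub, C_1]
    ring
  by_cases hfull : rk (supp (cl (co (phO phi b i) iT) T' pd.po k1 H)) =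
      Module.finrank ℤ (Ker (co (phO phi b i) iT))
  · -- the double closing is full
    obtain ⟨h1, h2⟩ := pz_full hFD hMc hG1 hR hRS hEv hEvm hFcl hE1 hMV hMm hU hE2 hVZ hRk hCno hQc
      hNd hDv hQm hNr hHp hTa hUm hSt hSw hEvR hZf hNn hM1 hV1 he pd hN hX.rkL hfull hpf hf0 hfF
      hf1 (kk := kk) (by have := h0.k1; omega) (by
        intro k hk
        have h1 := congrArg (fun q : ℤ[X] => q.coeff k) h0.fg
        simp only [coeff_sub, coeff_C_mul, coeff_X_pow, if_neg hk, mul_zero] at h1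
        omega)
    exact ⟨fun _ => Or.inl ⟨kk, _, _, h0.k1, h1, h2⟩, fun h => absurd h hg1⟩
  · obtain ⟨nu, hn⟩ := kn_ex hKm he hk0 hk1 pd hD hbT (lt_of_le_of_ne hrkle hfull)
    obtain ⟨R, hRay, hnR, hRo, hadR, hadTR⟩ := third hGen hD hb hT hdis hadj hn hkw hmT
    have hRs : R ∈ supp E := hRay.1
    have hRi : co phi i R = 0 := by
      rcases hRo i with h1 | h1
      · exact h1
      · have h2 : phi b i = 1 := hb.po
        rw [h2] at h1
        exact absurd h1.1 one_ne_zero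
    have hRT : co phi iT R = 0 := by
      rcases hRo iT with h1 | h1
      · exact h1
      · have h2 : phi T iT = 1 := hT.po
        rw [h2] at h1
        exact absurd h1.2 one_ne_zero
    obtain ⟨iR, hiR⟩ := BP12.ex_port hD.inj (hD.bin R hRs) hRay.2.1
    have hRdT : co phi iR T = 0 := by
      rcases hRo iR with h1 | h1
      · rw [hiR] at h1; exact absurd h1 one_ne_zero
      · exact h1.2
    have hRdis : ∀ q, phi R q = 0 ∨ phi b q = 0 := fun q => (hRo q).imp id fun h => h.1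
    obtain ⟨s, s0, hEs, hs0, hsn⟩ := third_mono h0 hesb hesT hn hkw hmT hTi hbT hRs hRi hRT hnR
    obtain ⟨sR, m, hm, hGR⟩ := third_gl hRay hEs hs0 hiR
    have hfullR : ∀ muR : L →+ ℤ, Kw phi E R iR (uT sR (-s)) muR → muR = 0 := fun muR hk =>
      third_full h0 hesb hesT hD hb hT hf0 hf1 hg0 hg1 hr hn hkw hmT hTi hbT hRs hRo hnR hfullT
        hGR hsn hk
    have hIR : ImS phi R := BP12.ims_adj hD3 hRk hRd (BP12.gray_of_gl hb) hRay hadR hRdis
    have hNR : Cn N p g ∨ Nb phi E R iR (uT sR (-s)) := by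
      by_cases hmR : mu R = 0
      · right
        have hpat : (eT : RO ℤ) * E.coeff (R + T) = -E.coeff R := by
          rcases (kn_pat hn hkw hmT hTi hRi hRT hnR).2 with ⟨-, -, h1⟩ | ⟨h1, -⟩
          · exact h1
          · exact absurd hmR h1
        exact third_nb hFD hG0 hUA hMin hC1 hMm hSm hU hE2 hVZ h0 hesT hX hT hf1 hRT hRdT hNT hpat
          hGR hIR (by
            rw [hsn hmR]
            exact neg_ne_zero.mpr (h0.nb hr))
      · exact hLev P L phi E N p g (C m) b i e R iR _ mu hRd hb hGR hadR hkw hmR hNb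
    rcases hNR with h1 | hNR
    · exact h1
    obtain ⟨hm1, c', n', G', hZ'⟩ := hCnt P L phi E N p (C m) R iR _ hiR hX hGR hIR hNR hfullR
    rw [coeff_C_zero] at hm1
    by_cases hcu : IsUnit c'
    · exfalso
      have hZV : ZFree (cl (co phi iR) R hiR (uT sR (-s)) E) := by
        rw [hZ'.eq]
        exact zfree_unit hU hcu hZ'.zf
      obtain ⟨q, l, n'', hq, hl⟩ := hZV
      have hq0 : (q : ℤ) ≠ 0 := by exact_mod_cast hq.ne'
      have hV0 : (cl (co phi iR) R hiR (uT sR (-s)) E).coeff 0 = toLaurent (p - C m) := by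
        rw [H47.cl_coeff_bin (co phi iR) R hiR _ E (fun x hx => hD.bin x hx iR),
          Submodule.coe_zero, zero_add]
        exact gl_apex hX hGR
      have hex : ∀ k : ℕ, (p - C m).coeff k ≠ 0 → (q : ℤ) * k = q * n'' := by
        intro k hk
        have h1 := hl 0 (k : ℤ) (by rw [hV0, Cno.tl_coeff_nonneg]; exact hk)
        rw [map_zero, zero_add] at h1
        exact h1
      apply hf1
      rw [h0.hf]
      have hFz : F = 0 := by
        ext k
        rw [coeff_zero]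
        by_cases hk : k = 0
        · rw [hk, h0.f0]
        · by_contra h1
          have h2 := hex k (by
            rw [h0.hp, coeff_sub, coeff_add, coeff_C, coeff_C, if_neg hk, if_neg hk]
            simpa using h1)
          have h3 := hex 0 (by
            rw [h0.hp, coeff_sub, coeff_add, coeff_C_zero, coeff_C_zero, h0.f0]
            omega)
          rw [← h3] at h2
          have h4 := mul_left_cancel₀ hq0 h2
          exact hk (by exact_mod_cast h4)
      rw [hFz, add_zero]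
    · exact BP12.cn_of_allB hU hX hb hg0 (hCtb P L phi E N p (C m) R iR _ hiR c' n' G' hX hGR
        (by rw [coeff_C_zero]; exact hm1) hZ' hcu)

end Pool.Agent.B5.BP57
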