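import Pool.Agent.Lib.MP_b5021c_nt.BP.H57.T2n

/-!
# Board b5, BpS, row PZ (a partner of type Z): one variable

`p = N - 1 + h`, the pair `(p - eta g, h)` over `Eis` divided by a content `c2`.
-/

namespace Pool.Agent.B5.BP57

open scoped LaurentPolynomial ComplexConjugate
open Polynomial Pool.Agent.B5
open Pool.Agent.MP_b5021c_nt (Eis)
open Pool.Agent.B5.BP90 (Et pE pE_inj embN et_im_ne)

theorem evalZ_conj (g : ℤ[X]) (z : ℂ) :
    (g.map (Coef.emb : ℤ →+* ℂ)).eval ((starRingEnd ℂ) z) =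
      (starRingEnd ℂ) ((g.map (Coef.emb : ℤ →+* ℂ)).eval z) := by
  have h1 : (Coef.emb : ℤ →+* ℂ) = Int.castRingHom ℂ := RingHom.ext_int _ _
  rw [h1, eval_map, eval_map, eval₂_eq_sum_range, eval₂_eq_sum_range, map_sum]
  refine Finset.sum_congr rfl fun i _ => ?_
  rw [map_mul, map_pow]
  congr 1
  change ((g.coeff i : ℤ) : ℂ) = (starRingEnd ℂ) ((g.coeff i : ℤ) : ℂ)
  rw [map_intCast]

theorem natDegree_embZ (h : ℤ[X]) : (h.map (Coef.emb : ℤ →+* ℂ)).natDegree = h.natDegree :=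
  natDegree_map_eq_of_injective emb_inj h

theorem eq_one_of_deg {h : ℤ[X]} (h0 : h.coeff 0 = 1) (hd : h.natDegree = 0) : h = 1 := by
  rw [eq_C_of_natDegree_eq_zero hd, h0, C_1]

/-- a real divisor of `N - 1 - eta g` is constant. -/
theorem ar_root {et : Eis} (he : Et et) {N : ℕ} (hN : 2 ≤ N) {g h : ℤ[X]} (h0 : h.coeff 0 = 1)
    (hd : pE h ∣ C (((N : ℤ) : Eis) - 1) - C et * pE g) : h = 1 := by
  by_contra hne
  have hdeg : h.natDegree ≠ 0 := fun h1 => hne (eq_one_of_deg h0 h1)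
  have hdeg2 : (h.map (Coef.emb : ℤ →+* ℂ)).degree ≠ 0 := by
    intro h1
    apply hdeg
    rw [← natDegree_embZ]
    exact natDegree_eq_of_degree_eq_some h1
  obtain ⟨z, hz⟩ := IsAlgClosed.exists_root _ hdeg2
  have key : ∀ z : ℂ, (h.map (Coef.emb : ℤ →+* ℂ)).eval z = 0 →
      (N : ℂ) - 1 = Coef.emb et * (g.map (Coef.emb : ℤ →+* ℂ)).eval z := by
    intro z hz
    obtain ⟨x, hx⟩ := hd
    have h1 := congrArg (fun f : Eis[X] => (f.map (Coef.emb : Eis →+* ℂ)).eval z) hx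
    simp only [Polynomial.map_sub, Polynomial.map_mul, map_C, eval_sub, eval_mul, eval_C] at h1
    rw [pE_eval, pE_eval, hz, zero_mul, map_sub, map_one, embN, Int.cast_natCast] at h1
    exact sub_eq_zero.mp h1
  have k1 := key z hz
  have k2 := key ((starRingEnd ℂ) z) (by
    rw [evalZ_conj]
    have : (h.map (Coef.emb : ℤ →+* ℂ)).eval z = 0 := hz
    rw [this, map_zero])
  rw [evalZ_conj] at k2
  obtain ⟨G, hG⟩ : ∃ G : ℂ, G = (g.map (Coef.emb : ℤ →+* ℂ)).eval z := ⟨_, rfl⟩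
  rw [← hG] at k1 k2
  have het : (Coef.emb et : ℂ) ≠ 0 := by
    rw [← norm_pos_iff, et_norm he]
    exact one_pos
  have h3 : G = (starRingEnd ℂ) G := mul_left_cancel₀ het (k1.symm.trans k2)
  have h4 : G.im = 0 := Complex.conj_eq_iff_im.mp h3.symm
  have h5 := congrArg Complex.im k1
  simp only [Complex.sub_im, Complex.natCast_im, Complex.one_im, Complex.mul_im, h4, mul_zero,
    zero_add, sub_zero] at h5
  have h6 : G.re = 0 := by
    rcases mul_eq_zero.mp h5.symm with h7 | h7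
    · exact absurd h7 (et_im_ne he)
    · exact h7
  have h7 : G = 0 := Complex.ext h6 h4
  rw [h7, mul_zero] at k1
  have h8 : (N : ℝ) - 1 = 0 := by exact_mod_cast congrArg Complex.re k1
  have h9 : (2 : ℝ) ≤ N := by exact_mod_cast hN
  linarith

/-- `|g_k| ≥ 2` or `g_k = 0` for `N - 1 - eta g` divisible by `N - 1 - eta`. -/
theorem ar_small {et : Eis} (he : Et et) {N : ℕ} (hN : 3 ≤ N) {g : ℤ[X]} {x : Eis[X]}
    (hx : C (((N : ℤ) : Eis) - 1) - C et * pE g = C (((N : ℤ) : Eis) - et - 1) * x) {k : ℕ}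
    (hk : k ≠ 0) (hg : |g.coeff k| ≤ 1) : g.coeff k = 0 := by
  by_contra hne
  have h1 := congrArg (fun f : Eis[X] => (Coef.emb (f.coeff k) : ℂ)) hx
  simp only [coeff_sub, coeff_C_mul, coeff_C, if_neg hk, zero_sub] at h1
  rw [pE_coeff, map_neg, map_mul, map_mul, embN] at h1
  have h2 := congrArg (fun z : ℂ => ‖z‖) h1
  simp only [norm_neg, norm_mul] at h2
  rw [et_norm he, one_mul, Complex.norm_intCast] at h2
  have h3 : |((g.coeff k : ℤ) : ℝ)| ≤ 1 := by exact_mod_cast hg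
  have hxk : x.coeff k ≠ 0 := by
    intro h4
    rw [h4, map_zero, norm_zero, mul_zero, abs_eq_zero] at h2
    exact hne (by exact_mod_cast h2)
  have h4 := Coef.one_le (x.coeff k) hxk
  have h5 := Complex.re_le_norm (Coef.emb (((N : ℤ) : Eis) - et - 1) : ℂ)
  rw [map_sub, map_sub, embN, map_one, Complex.sub_re, Complex.sub_re, he.re, Complex.one_re,
    Complex.intCast_re, Int.cast_natCast] at h5
  have h6 : (3 : ℝ) ≤ N := by exact_mod_cast hN
  rw [map_sub, map_sub, embN, map_one] at h2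
  nlinarith

/-- the pair `(1 - u X^d, n - (n - 1) u X^d)` for `(h, N - 1 - eta g)`: `h` is constant. -/
theorem ar_deg {et : Eis} (he : Et et) {N : ℕ} (hN : 3 ≤ N) {g h : ℤ[X]} (h0 : h.coeff 0 = 1)
    {c2 : Eis[X]} {u : Eis} (hu : ‖(Coef.emb u : ℂ)‖ = 1) {d : ℕ} (hd : 1 ≤ d)
    (h1 : c2 * (1 - C u * X ^ d) = pE h)
    (h2 : c2 * (C (((N : ℤ) : Eis) - et - 1) - C ((((N : ℤ) : Eis) - et - 2) * u) * X ^ d) =
      C (((N : ℤ) : Eis) - 1) - C et * pE g) : h = 1 := by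
  apply eq_one_of_deg h0
  rw [← natDegree_embZ]
  have conjZ : ∀ f : ℤ[X], (f.map (Coef.emb : ℤ →+* ℂ)).map (starRingEnd ℂ) =
      f.map (Coef.emb : ℤ →+* ℂ) := by
    intro f
    rw [Polynomial.map_map]
    congr 1
    exact RingHom.ext_int _ _
  have pEmb : ∀ f : ℤ[X], (pE f).map (Coef.emb : Eis →+* ℂ) = f.map (Coef.emb : ℤ →+* ℂ) := by
    intro f
    rw [pE, Polynomial.map_map]
    congr 1
    exact RingHom.ext_int _ _
  obtain ⟨U, hU⟩ : ∃ U : ℂ, U = Coef.emb u := ⟨_, rfl⟩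
  obtain ⟨E, hE⟩ : ∃ E : ℂ, E = Coef.emb et := ⟨_, rfl⟩
  obtain ⟨hC, hhC⟩ : ∃ hC : ℂ[X], hC = h.map (Coef.emb : ℤ →+* ℂ) := ⟨_, rfl⟩
  obtain ⟨gC, hgC⟩ : ∃ gC : ℂ[X], gC = g.map (Coef.emb : ℤ →+* ℂ) := ⟨_, rfl⟩
  obtain ⟨c, hc⟩ : ∃ c : ℂ[X], c = c2.map (Coef.emb : Eis →+* ℂ) := ⟨_, rfl⟩
  have m1 : c * (1 - C U * X ^ d) = hC := by
    have h3 := congrArg (Polynomial.map (Coef.emb : Eis →+* ℂ)) h1
    rw [Polynomial.map_mul, Polynomial.map_sub, Polynomial.map_one, Polynomial.map_mul, map_C,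
      Polynomial.map_pow, map_X, pEmb, ← hc, ← hU, ← hhC] at h3
    exact h3
  have e2 : (Coef.emb (2 : Eis) : ℂ) = 2 := by
    have := embN 2
    push_cast at this
    exact this
  have m2 : c * (C ((N : ℂ) - E - 1) - C (((N : ℂ) - E - 2) * U) * X ^ d) =
      C ((N : ℂ) - 1) - C E * gC := by
    have h3 := congrArg (Polynomial.map (Coef.emb : Eis →+* ℂ)) h2
    have v1 : (Coef.emb (((N : ℤ) : Eis) - et - 1) : ℂ) = (N : ℂ) - E - 1 := by
      rw [map_sub, map_sub, embN, map_one, hE, Int.cast_natCast]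
    have v2 : (Coef.emb ((((N : ℤ) : Eis) - et - 2) * u) : ℂ) = ((N : ℂ) - E - 2) * U := by
      rw [map_mul, map_sub, map_sub, embN, e2, hE, hU, Int.cast_natCast]
    have v3 : (Coef.emb (((N : ℤ) : Eis) - 1) : ℂ) = (N : ℂ) - 1 := by
      rw [map_sub, embN, map_one, Int.cast_natCast]
    rw [Polynomial.map_mul, Polynomial.map_sub, Polynomial.map_mul, map_C, map_C,
      Polynomial.map_pow, map_X, Polynomial.map_sub, Polynomial.map_mul, map_C, map_C, pEmb,
      v1, v2, v3, ← hc, ← hE, ← hgC] at h3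
    exact h3
  have k1 : hC * (C ((N : ℂ) - E - 1) - C (((N : ℂ) - E - 2) * U) * X ^ d) =
      (C ((N : ℂ) - 1) - C E * gC) * (1 - C U * X ^ d) := by
    rw [← m1, ← m2]
    ring
  obtain ⟨U', hU'⟩ : ∃ U' : ℂ, U' = (starRingEnd ℂ) U := ⟨_, rfl⟩
  obtain ⟨E', hE'⟩ : ∃ E' : ℂ, E' = (starRingEnd ℂ) E := ⟨_, rfl⟩
  have k2 : hC * (C ((N : ℂ) - E' - 1) - C (((N : ℂ) - E' - 2) * U') * X ^ d) =
      (C ((N : ℂ) - 1) - C E' * gC) * (1 - C U' * X ^ d) := by
    have h3 := congrArg (Polynomial.map (starRingEnd ℂ)) k1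
    have e3 : (starRingEnd ℂ) (2 : ℂ) = 2 := by
      have := Complex.conj_ofReal (2 : ℝ)
      simpa using this
    have v1 : (starRingEnd ℂ) ((N : ℂ) - E - 1) = (N : ℂ) - E' - 1 := by
      rw [map_sub, map_sub, map_natCast, map_one, hE']
    have v2 : (starRingEnd ℂ) (((N : ℂ) - E - 2) * U) = ((N : ℂ) - E' - 2) * U' := by
      rw [map_mul, map_sub, map_sub, map_natCast, e3, hE', hU']
    have v3 : (starRingEnd ℂ) ((N : ℂ) - 1) = (N : ℂ) - 1 := by
      rw [map_sub, map_natCast, map_one]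
    rw [Polynomial.map_mul, Polynomial.map_mul, Polynomial.map_sub, Polynomial.map_mul, map_C,
      map_C, Polynomial.map_pow, map_X, Polynomial.map_sub, Polynomial.map_mul, map_C, map_C,
      Polynomial.map_sub, Polynomial.map_one, Polynomial.map_mul, map_C, Polynomial.map_pow,
      map_X, v1, v2, v3, ← hE', ← hU'] at h3
    have c1 : hC.map (starRingEnd ℂ) = hC := by rw [hhC]; exact conjZ h
    have c2 : gC.map (starRingEnd ℂ) = gC := by rw [hgC]; exact conjZ g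
    rw [c1, c2] at h3
    exact h3
  have hEE : E * E' = 1 := by
    rw [hE', Complex.mul_conj, Complex.normSq_eq_norm_sq, hE, et_norm he]
    norm_num
  have hUU : U * U' = 1 := by
    rw [hU', Complex.mul_conj, Complex.normSq_eq_norm_sq, hU, hu]
    norm_num
  have hEne : E' - E ≠ 0 := by
    intro h3
    have h4 : (starRingEnd ℂ) E = E := by rw [← hE']; exact sub_eq_zero.mp h3
    rw [hE] at h4
    exact et_im_ne he (Complex.conj_eq_iff_im.mp h4)
  have hN3 : (3 : ℝ) ≤ N := by exact_mod_cast hN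
  have hN1 : ((N : ℂ) - 1) ≠ 0 := by
    intro h3
    have h4 := congrArg Complex.re h3
    simp at h4
    linarith
  have hN2 : ((N : ℂ) - 2) ≠ 0 := by
    intro h3
    have h4 := congrArg Complex.re h3
    simp at h4
    linarith
  obtain ⟨W, hW⟩ : ∃ W : ℂ[X], W =
      C E' * (C ((N : ℂ) - E - 1) - C (((N : ℂ) - E - 2) * U) * X ^ d) * (1 - C U' * X ^ d) -
      C E * (C ((N : ℂ) - E' - 1) - C (((N : ℂ) - E' - 2) * U') * X ^ d) *
        (1 - C U * X ^ d) := ⟨_, rfl⟩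
  have hEEC : (C E * C E' : ℂ[X]) = 1 := by rw [← C_mul, hEE, C_1]
  have hUUC : (C U * C U' : ℂ[X]) = 1 := by rw [← C_mul, hUU, C_1]
  have main : hC * W = C (((N : ℂ) - 1) * (E' - E)) * ((1 - C U * X ^ d) * (1 - C U' * X ^ d)) := by
    rw [hW]
    have h3 : hC * (C E' * (C ((N : ℂ) - E - 1) - C (((N : ℂ) - E - 2) * U) * X ^ d) *
        (1 - C U' * X ^ d) - C E * (C ((N : ℂ) - E' - 1) - C (((N : ℂ) - E' - 2) * U') * X ^ d) *
        (1 - C U * X ^ d)) =
        C E' * (1 - C U' * X ^ d) * ((C ((N : ℂ) - 1) - C E * gC) * (1 - C U * X ^ d)) -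
        C E * (1 - C U * X ^ d) * ((C ((N : ℂ) - 1) - C E' * gC) * (1 - C U' * X ^ d)) := by
      rw [← k1, ← k2]
      ring
    rw [h3, C_mul, C_sub (a := E')]
    ring
  have hWc : W = C (E' * ((N : ℂ) - E - 1) - E * ((N : ℂ) - E' - 1)) +
      C (W.coeff d) * X ^ d + C (((N : ℂ) - 2) * (E' - E)) * X ^ (2 * d) := by
    have h3 : W = C (E' * ((N : ℂ) - E - 1) - E * ((N : ℂ) - E' - 1)) +
      C (-(E' * (((N : ℂ) - E - 2) * U) + E' * ((N : ℂ) - E - 1) * U') +
        (E * (((N : ℂ) - E' - 2) * U') + E * ((N : ℂ) - E' - 1) * U)) * X ^ d +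
        C (((N : ℂ) - 2) * (E' - E)) * X ^ (2 * d) := by
      have h4 : (C (((N : ℂ) - 2) * (E' - E)) : ℂ[X]) =
          C (E' * ((N : ℂ) - E - 2) * (U * U') - E * ((N : ℂ) - E' - 2) * (U * U')) := by
        rw [hUU]
        congr 1
        linear_combination (0 : ℂ)
      rw [h4, hW]
      simp only [C_mul, C_sub, C_add, C_neg]
      ring
    have h5 : W.coeff d = -(E' * (((N : ℂ) - E - 2) * U) + E' * ((N : ℂ) - E - 1) * U') +
        (E * (((N : ℂ) - E' - 2) * U') + E * ((N : ℂ) - E' - 1) * U) := by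
      rw [h3]
      simp only [coeff_add, coeff_C_mul, coeff_X_pow, coeff_C]
      rw [if_neg (by omega : ¬ d = 0), if_pos trivial, if_neg (by omega : ¬ d = 2 * d)]
      ring
    rw [h5]
    exact h3
  have hW2 : W.coeff (2 * d) = ((N : ℂ) - 2) * (E' - E) := by
    rw [hWc]
    simp only [coeff_add, coeff_C_mul, coeff_X_pow, coeff_C]
    rw [if_neg (by omega : ¬ 2 * d = 0), if_neg (by omega : ¬ 2 * d = d), if_pos trivial]
    ring
  have hW0 : W.coeff (2 * d) ≠ 0 := by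
    rw [hW2]
    exact mul_ne_zero hN2 hEne
  have hWne : W ≠ 0 := by
    intro h3
    rw [h3, coeff_zero] at hW0
    exact hW0 rfl
  have hCne : hC ≠ 0 := by
    intro h3
    have h4 : hC.coeff 0 = 1 := by
      rw [hhC, coeff_map, h0, map_one]
    rw [h3, coeff_zero] at h4
    exact zero_ne_one h4
  have d1 := le_natDegree_of_ne_zero hW0
  have d2 := natDegree_mul hCne hWne
  have d3 : (hC * W).natDegree ≤ 2 * d := by
    rw [main]
    refine (natDegree_C_mul_le _ _).trans ((natDegree_mul_le).trans ?_)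
    have h3 : ∀ V : ℂ, (1 - C V * X ^ d : ℂ[X]).natDegree ≤ d := by
      intro V
      refine (natDegree_sub_le _ _).trans (max_le ?_ ?_)
      · rw [natDegree_one]; exact Nat.zero_le _
      · exact natDegree_C_mul_X_pow_le _ _
    have := h3 U
    have := h3 U'
    omega
  rw [← hhC]
  omega

end Pool.Agent.B5.BP57
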