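import Pool.Agent.Lib.MP_b5021c_nt.BP.H57.Gw
import Pool.Agent.Lib.MP_b5021c_nt.BP.H57.Pza
import Pool.Agent.Lib.MP_b5021c_nt.BP.H12.Wd

/-!
# Board b5, BpS, row PZ: the closing at the load `eta` without a condition on the content (helper57)
-/

namespace Pool.Agent.B5.BP57

open scoped LaurentPolynomial
open Polynomial Pool.Agent.B5 Pool.Agent.B5.BPR
open Pool.Agent.MP_b5021c_nt (Eis)
open Pool.Agent.MP_b5021c_nt.Ire (bc)
open Pool.Agent.B5.H25.Bch
open Pool.Agent.B5.BP90 (Et pE pE_inj embN et_im_ne et_zero)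

theorem bcR_co (x : RO ℤ) (k : ℤ) : (bcR x).coeff k = ((x.coeff k : ℤ) : Eis) := by
  simp [bcR]

theorem C_mul_co {O : Type} [CommRing O] (a : O) (x : RO O) (k : ℤ) :
    (LaurentPolynomial.C a * x).coeff k = a * x.coeff k := by
  rw [← LaurentPolynomial.smul_eq_C_mul, AddMonoidAlgebra.coeff_smul, Finsupp.smul_apply,
    smul_eq_mul]

/-- `1` and `eta` are independent. -/
theorem bcR_et0 {et : Eis} (he : Et et) {x y : RO ℤ}
    (h : bcR x + LaurentPolynomial.C et * bcR y = 0) : x = 0 ∧ y = 0 := by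
  have key : ∀ k : ℤ, x.coeff k = 0 ∧ y.coeff k = 0 := by
    intro k
    have h1 : (bcR x + LaurentPolynomial.C et * bcR y).coeff k = (0 : RO Eis).coeff k := by rw [h]
    rw [AddMonoidAlgebra.coeff_add, Finsupp.add_apply, C_mul_co, bcR_co, bcR_co,
      AddMonoidAlgebra.coeff_zero, Finsupp.zero_apply] at h1
    have h2 : -y.coeff k = 0 := by
      refine et_zero he (a := x.coeff k) ?_
      push_cast
      linear_combination h1
    have h3 : y.coeff k = 0 := by omega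
    refine ⟨?_, h3⟩
    rw [h3, Int.cast_zero, mul_zero, add_zero] at h1
    have h4 := congrArg (Coef.emb : Eis →+* ℂ) h1
    rw [embN, map_zero] at h4
    exact_mod_cast h4
  constructor
  · apply AddMonoidAlgebra.ext
    apply Finsupp.ext
    intro k
    rw [(key k).1]
    rfl
  · apply AddMonoidAlgebra.ext
    apply Finsupp.ext
    intro k
    rw [(key k).2]
    rfl

section

variable {P L : Type} [Fintype P] [DecidableEq P] [AddCommGroup L] [Module.Free ℤ L]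
  [Module.Finite ℤ L] {phi : L →+ (P → ℤ)} {E : AO ℤ L} {S0 : L} {i0 : P}

/-- a coefficient of the closing at the load `eta e0`. -/
theorem eta_co {et : Eis} {e0 : (RO ℤ)ˣ} {k0 : (RO Eis)ˣ}
    (hk0 : (k0 : RO Eis) = LaurentPolynomial.C et * bcR (e0 : RO ℤ)) (h0 : co phi i0 S0 = 1)
    (hD : DD phi E) (a : Ker (co phi i0)) :
    (cl (co phi i0) S0 h0 k0 (bc E)).coeff a = bcR (E.coeff (a : L)) +
      LaurentPolynomial.C et * bcR ((e0 : RO ℤ) * E.coeff ((a : L) + S0)) := by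
  rw [H47.cl_coeff_bin (co phi i0) S0 h0 k0 (bc E) (fun x hx => hD.bin x
    ((supp_bc E) ▸ hx) i0) a, bc_co, bc_co, hk0, map_mul]
  ring

/-- the support of the closing at the load `eta e0`. -/
theorem eta_supp {et : Eis} (he : Et et) {e0 : (RO ℤ)ˣ} {k0 : (RO Eis)ˣ}
    (hk0 : (k0 : RO Eis) = LaurentPolynomial.C et * bcR (e0 : RO ℤ)) (h0 : co phi i0 S0 = 1)
    (hD : DD phi E) {a : Ker (co phi i0)} (ha : a ∈ supp (cl (co phi i0) S0 h0 k0 (bc E))) :
    ∃ x ∈ supp E, (x = (a : L) ∨ x = (a : L) + S0) := by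
  by_contra hcon
  push Not at hcon
  apply ha
  rw [eta_co hk0 h0 hD]
  have h1 : E.coeff (a : L) = 0 := by
    by_contra h2
    exact (hcon (a : L) h2).1 rfl
  have h3 : E.coeff ((a : L) + S0) = 0 := by
    by_contra h2
    exact (hcon ((a : L) + S0) h2).2 rfl
  rw [h1, h3, mul_zero, map_zero, mul_zero, add_zero]

theorem prj_mem_eta {et : Eis} (he : Et et) {e0 : (RO ℤ)ˣ} {k0 : (RO Eis)ˣ}
    (hk0 : (k0 : RO Eis) = LaurentPolynomial.C et * bcR (e0 : RO ℤ)) (h0 : co phi i0 S0 = 1)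
    (hD : DD phi E) {x : L} (hx : x ∈ supp E) :
    prj (co phi i0) S0 h0 x ∈ supp (cl (co phi i0) S0 h0 k0 (bc E)) := by
  change (cl (co phi i0) S0 h0 k0 (bc E)).coeff (prj (co phi i0) S0 h0 x) ≠ 0
  rw [eta_co hk0 h0 hD, prj_coe]
  intro h1
  obtain ⟨h2, h3⟩ := bcR_et0 he h1
  rcases hD.bin x hx i0 with h4 | h4
  · have h5 : co phi i0 x = 0 := h4
    rw [h5, zero_smul, sub_zero] at h2
    exact hx h2
  · have h5 : co phi i0 x = 1 := h4
    rw [h5, one_smul, sub_add_cancel] at h3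
    exact hx ((mul_eq_zero.mp h3).resolve_left e0.ne_zero)

/-- the closing at the load `eta e0` has full rank. -/
theorem eta_full (hK : KmuS) (hRk : RkS) {et : Eis} (he : Et et) {e0 : (RO ℤ)ˣ} {k0 : (RO Eis)ˣ}
    (hk0 : (k0 : RO Eis) = LaurentPolynomial.C et * bcR (e0 : RO ℤ)) (h0 : co phi i0 S0 = 1)
    (hD : DD phi E) :
    rk (supp (cl (co phi i0) S0 h0 k0 (bc E))) = Module.finrank ℤ (Ker (co phi i0)) := by
  have h1 := (hRk (Ker (co phi i0)) (Ker (co phi i0))).2.2.1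
    (supp (cl (co phi i0) S0 h0 k0 (bc E)))
  by_contra hne
  obtain ⟨nu, hnu, hk⟩ := hK _ (supp (cl (co phi i0) S0 h0 k0 (bc E))) (lt_of_le_of_ne h1 hne)
  obtain ⟨mu, -, -, m3, m4⟩ := ext_ker h0 nu
  apply m3 hnu
  refine BP12.zero_of_supp hD fun x hx => ?_
  rw [m4]
  exact hk _ (prj_mem_eta he hk0 h0 hD hx)

/-- a content of class `V(1)`: a unit times a polynomial with the constant coefficient one. -/
theorem content_poly (hU : UnitRS) {O : Type} [CommRing O] [IsDomain O] [IsPrincipalIdealRing O]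
    [Coef O] {c : RO O} (hc : ClassV 1 c) (hun : ∀ x : O, ‖(Coef.emb x : ℂ)‖ = 1 → IsUnit x) :
    ∃ (u : (RO O)ˣ) (c2 : O[X]), c = (u : RO O) * toLaurent c2 ∧ c2.coeff 0 = 1 ∧
      ZF (c2.map Coef.emb) := by
  obtain ⟨-, m, q, hq, h0, hz⟩ := hc
  obtain ⟨s, hs⟩ := hun _ h0
  have hTu : IsUnit (LaurentPolynomial.T m * LaurentPolynomial.C (s : O) : RO O) :=
    (LaurentPolynomial.isUnit_T m).mul (s.isUnit.map LaurentPolynomial.C)
  obtain ⟨u, hu⟩ := hTu
  refine ⟨u, C ((s⁻¹ : Oˣ) : O) * q, ?_, ?_, ?_⟩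
  · rw [hu, hq, map_mul, toLaurent_C]
    have h1 : (LaurentPolynomial.C (s : O) * LaurentPolynomial.C ((s⁻¹ : Oˣ) : O) : RO O) = 1 := by
      rw [← map_mul, Units.mul_inv, map_one]
    linear_combination (-(LaurentPolynomial.T m * toLaurent q)) * h1
  · rw [coeff_C_mul, ← hs, Units.inv_mul]
  · intro z hz1
    rw [Polynomial.map_mul, map_C, eval_mul, eval_C]
    refine mul_ne_zero ?_ (hz z hz1)
    rw [← norm_pos_iff, norm_unit]
    exact one_pos

/-- ETA for any content. -/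
theorem eta_fac (hFD : FDS) (hE2 : E2S) (hVZ : VZS) (hU : UnitRS) (hMV : MVS)
    (hE1 : E1S) (hMm : MmulS) (hG0 : G0S) (hC0 : Coeff0S) (hW : WWfS) (hRF : RayFacS)
    (hQst : QstS) (hQra : QraS) (hMin : MinS) (hB5 : B5aS) (hRk : RkS) (hKm : KmuS)
    (hQc : Qc3S) (hDv : Dv3S) (hNd : Nd3vS) {h0 : co phi i0 S0 = 1} {N : ℕ} {w e0 : (RO ℤ)ˣ}
    {p g : ℤ[X]} {et : Eis} (he : Et et) {k0 : (RO Eis)ˣ}
    (hk0 : (k0 : RO Eis) = LaurentPolynomial.C et * bcR (e0 : RO ℤ)) (hD : DD phi E)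
    (hN : 2 ≤ N) (hrk2 : 2 ≤ Module.finrank ℤ L) (hcv : ClassV N (E.coeff 0)) (hS : Ray E S0)
    (hI : ImS phi S0) (hp : (w : RO ℤ) * E.coeff 0 = toLaurent p) (hp0 : p.coeff 0 = N)
    (hg : (w : RO ℤ) * ((e0 : RO ℤ) * E.coeff S0) = -toLaurent g) (hg0 : g.coeff 0 = 1)
    (hdrop : rk (supp (cl (co phi i0) S0 h0 e0 E)) < Module.finrank ℤ (Ker (co phi i0)))
    {R : Ker (co phi i0)} (hR : Ray (cl (co phi i0) S0 h0 k0 (bc E)) R) {w' : (RO Eis)ˣ}
    {r : Eis[X]} (hr : (w' : RO Eis) * (cl (co phi i0) S0 h0 k0 (bc E)).coeff R = toLaurent r)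
    (hr0 : ‖(Coef.emb (r.coeff 0) : ℂ)‖ = 1) :
    ∃ (c : RO Eis) (H : AO Eis (Ker (co phi i0))), ClassV 1 c ∧
      cl (co phi i0) S0 h0 k0 (bc E) = cst c * H ∧ DD (phO phi S0 i0) H := by
  classical
  have hpne : p.coeff 0 ≠ 0 := by rw [hp0]; exact_mod_cast (by omega : N ≠ 0)
  have hN' : (2 : ℝ) ≤ N := by exact_mod_cast hN
  have hfull := eta_full hKm hRk he hk0 h0 hD
  obtain ⟨hpz, -⟩ := zf_of_unit hU hcv hp hpne
  obtain ⟨hpcl, hle, hlt⟩ := ray_polyU hE2 hVZ hD hrk2 hS hp hg hpz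
  have hDb : DD phi (bc E) := dd_bc hD (by omega)
  have hSb : Ray (bc E) S0 := (H09.ray_bc E S0).mpr hS
  have hv0 := eta_v0 (E := E) hk0 hp hg
  obtain ⟨v, hv⟩ : ∃ v : Eis[X], v = pE p - C et * pE g := ⟨_, rfl⟩
  have hvz : ZF (v.map Coef.emb) := by rw [hv]; exact eta_zf he hlt
  rw [← hv] at hv0
  have hvc : v.coeff 0 = ((N : ℤ) : Eis) - et := by
    rw [hv, coeff_sub, coeff_C_mul, pE_coeff, pE_coeff, hp0, hg0]
    push_cast
    ring
  have hvn := eta_val he hvc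
  have hvne : v.coeff 0 ≠ 0 := by
    intro h1
    rw [h1, map_zero, norm_zero] at hvn
    linarith
  have hV := classV_of hU hv0 (by linarith) hvz
  have hne : (bc E).coeff 0 + (k0 : RO Eis) * (bc E).coeff S0 ≠ 0 := ((hMV Eis).1 _ _ hV).1
  obtain ⟨c, n, G, fd⟩ := hFD Eis P L phi (bc E) S0 i0 k0 h0 ⟨hDb, hrk2, hSb, h0, hne⟩
  -- the content has the measure one
  obtain ⟨l, hco, hV0⟩ := ray_split hG0 hC0 hW hRF fd hI hR
  have hV' := hV
  rw [hV0] at hV'
  obtain ⟨N1, -, hN1, -, -⟩ := (hE1 Eis).1 _ _ _ hV'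
  have hN1' : N1 = 1 := by
    refine low_classVO hU (w := w') (y := (G l).coeff R) ?_ hr0 hN1
    rw [← hr, hco, mul_comm ((G l).coeff R)]
  rw [hN1'] at hN1
  have hMH : M (c * ∏ i ∈ Finset.univ.erase l, (G i).coeff 0) = 1 :=
    ((hMV Eis).1 _ _ hN1).2
  have hG00 : ∀ i, (G i).coeff 0 ≠ 0 := fun i => (fd.st i).1
  have hMc : M c = 1 := by
    obtain ⟨mm1, mm2, mm3⟩ := hMm Eis
    rw [mm1 _ _ fd.c0 (Finset.prod_ne_zero_iff.mpr fun i _ => hG00 i)] at hMH
    have hc1 := mm2 c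
    have hp1 := mm2 (∏ i ∈ Finset.univ.erase l, (G i).coeff 0)
    nlinarith
  have hs : snp phi S0 i0 G = ∅ := by
    by_contra hcon
    have hsn : (snp phi S0 i0 G).Nonempty := Finset.nonempty_iff_ne_empty.mpr hcon
    obtain ⟨m, s, hnf⟩ := nf_of_unit hU hv0
    have hne' : bcU e0 ≠ k0 := by
      intro h1
      apply et_ne_one he
      have h2 : (k0 : RO Eis) = bcR (e0 : RO ℤ) := by rw [← h1]; rfl
      rw [hk0] at h2
      have h3 : (bcR (e0 : RO ℤ)) ≠ 0 := (bcU e0).ne_zero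
      have h4 : (LaurentPolynomial.C et : RO Eis) = LaurentPolynomial.C 1 := by
        rw [map_one]
        exact mul_right_cancel₀ h3 (by rw [h2, one_mul])
      exact C_injL h4
    have hdr : rk (supp (cl (co phi i0) S0 h0 (bcU e0) (bc E))) <
        Module.finrank ℤ (Ker (co phi i0)) := by
      rw [H09.cl_bc, supp_bc]
      exact hdrop
    obtain ⟨t, ht0, -, ht⟩ := tsgO hQst hQra hMin hC0 hB5 hRk hKm hQc hDv fd
      hMc hsn hfull hne' hdr hnf (by
        intro z0 hz0 hdv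
        have h1 : (C (Coef.emb (s : Eis) : ℂ) * v.map (Coef.emb : Eis →+* ℂ)) =
            (C (s : Eis) * v).map (Coef.emb : Eis →+* ℂ) := by
          rw [Polynomial.map_mul, map_C]
        rw [← h1] at hdv
        have hsu : IsUnit (C (Coef.emb (s : Eis) : ℂ)) := by
          rw [isUnit_C, isUnit_iff_ne_zero, ← norm_pos_iff, norm_unit]
          exact one_pos
        have hdv2 : (X - C z0) ^ 2 ∣ v.map (Coef.emb : Eis →+* ℂ) :=
          (hsu.dvd_mul_left).mp hdv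
        refine hNd (p.map (Coef.emb : ℤ →+* ℂ)) (v.map (Coef.emb : Eis →+* ℂ)) z0 hpcl ?_ ?_ hz0
          hdv2
        · intro z hz
          rw [hv, Polynomial.map_sub, Polynomial.map_mul, map_C, eval_sub, eval_mul, eval_C,
            pE_eval, pE_eval, sub_mul, Complex.sub_re]
          have h2 : ((p.map (Coef.emb : ℤ →+* ℂ)).eval z *
              (starRingEnd ℂ) ((p.map (Coef.emb : ℤ →+* ℂ)).eval z)).re =
              ‖(p.map (Coef.emb : ℤ →+* ℂ)).eval z‖ ^ 2 := by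
            rw [Complex.mul_conj, Complex.normSq_eq_norm_sq, Complex.ofReal_re]
          have h3 := Complex.re_le_norm (Coef.emb et * (g.map (Coef.emb : ℤ →+* ℂ)).eval z *
              (starRingEnd ℂ) ((p.map (Coef.emb : ℤ →+* ℂ)).eval z))
          rw [norm_mul, norm_mul, et_norm he, one_mul, RCLike.norm_conj] at h3
          have h4 := hle z hz
          rw [h2]
          nlinarith [norm_nonneg ((p.map (Coef.emb : ℤ →+* ℂ)).eval z),
            mul_le_mul_of_nonneg_right h4 (norm_nonneg ((p.map (Coef.emb : ℤ →+* ℂ)).eval z))]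
        · intro h2
          apply hvne
          have h3 := congrArg (fun f : ℂ[X] => f.coeff 0) h2
          simp only [coeff_map, coeff_zero] at h3
          exact emb_inj (h3.trans (map_zero _).symm))
    -- the apex at the load one
    have h5 : ((bcU w : (RO Eis)ˣ) : RO Eis) * ((bc E).coeff 0 +
        ((bcU e0 : (RO Eis)ˣ) : RO Eis) * (bc E).coeff S0) = toLaurent (pE p - pE g) := by
      have h1 := congrArg bcR hp
      have h2 := congrArg bcR hg
      rw [map_mul, bcR_L] at h1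
      rw [map_mul, map_mul, map_neg, bcR_L] at h2
      rw [H09.bcU_val, H09.bcU_val, bc_co, bc_co, map_sub]
      linear_combination h1 + h2
    obtain ⟨y, hy⟩ : ∃ y : RO Eis, y = ((bcU e0 : (RO Eis)ˣ) : RO Eis) *
        ((k0⁻¹ : (RO Eis)ˣ) : RO Eis) := ⟨_, rfl⟩
    rw [← hy] at ht
    have hy1 : LaurentPolynomial.C et * y = 1 := by
      rw [hy, H09.bcU_val, ← mul_assoc, ← hk0, Units.mul_inv]
    obtain ⟨k, τ, hτ, hτ0⟩ := H40.exists_normal t ht0
    have h6 : (LaurentPolynomial.T 0 : RO Eis) * toLaurent (C et * (pE p - pE g)) =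
        LaurentPolynomial.T k * toLaurent (C (et - 1) * τ * v) := by
      rw [LaurentPolynomial.T_zero, one_mul, map_mul, toLaurent_C, ← h5, ht, map_mul, map_mul,
        toLaurent_C, ← hv0, map_sub, map_one]
      have h7 : LaurentPolynomial.C et * (1 - y) = LaurentPolynomial.C et - 1 := by
        rw [mul_sub, hy1, mul_one]
      rw [hτ]
      linear_combination (((bcU w : (RO Eis)ˣ) : RO Eis) * (LaurentPolynomial.T k * toLaurent τ *
        ((bc E).coeff 0 + (k0 : RO Eis) * (bc E).coeff S0))) * h7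
    have e1 : (C et * (pE p - pE g)).coeff 0 = et * (((N : ℤ) : Eis) - 1) := by
      rw [coeff_C_mul, coeff_sub, pE_coeff, pE_coeff, hp0, hg0]
      push_cast
      rfl
    have e2 : (C (et - 1) * τ * v).coeff 0 = (et - 1) * τ.coeff 0 * v.coeff 0 := by
      rw [mul_coeff_zero, mul_coeff_zero, coeff_C_zero]
    have hn1 : ‖(Coef.emb (et * (((N : ℤ) : Eis) - 1)) : ℂ)‖ = (N : ℝ) - 1 := by
      rw [map_mul, norm_mul, et_norm he, one_mul, map_sub, embN, map_one]
      have h8 : ((N : ℤ) : ℂ) - 1 = (((N : ℝ) - 1 : ℝ) : ℂ) := by push_cast; ring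
      rw [h8, Complex.norm_real, Real.norm_eq_abs, abs_of_nonneg (by linarith)]
    have hne1 : (C et * (pE p - pE g)).coeff 0 ≠ 0 := by
      rw [e1]
      intro h8
      rw [h8, map_zero, norm_zero] at hn1
      linarith
    have hne2 : (C (et - 1) * τ * v).coeff 0 ≠ 0 := by
      rw [e2]
      exact mul_ne_zero (mul_ne_zero (sub_ne_zero.mpr (et_ne_one he)) hτ0) hvne
    obtain ⟨-, h8⟩ := H09.nf_unique 0 k _ _ hne1 hne2 h6
    have h9 := congrArg (fun f : Eis[X] => ‖(Coef.emb (f.coeff 0) : ℂ)‖) h8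
    simp only [e1, e2] at h9
    rw [hn1, map_mul, map_mul, norm_mul, norm_mul] at h9
    have h10 : ‖(Coef.emb (et - 1) : ℂ)‖ = 1 := by
      rw [← et_sub_norm he, ← norm_neg, ← map_neg, neg_sub]
    rw [h10, one_mul] at h9
    have h11 := Coef.one_le (τ.coeff 0) hτ0
    nlinarith
  obtain ⟨-, l', -, hVG⟩ := one_facC hG0 hC0 hMm hE1 hMV hU hW hRF fd hI hs hV hR hr hr0
  have h3 : supp (cl (co phi i0) S0 h0 k0 (bc E)) = supp (G l') := by
    rw [hVG, H78.supp_cst_mul fd.c0]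
  -- class of the content
  have hVc : ∃ Nc, ClassV Nc c := by
    rw [fd.v00] at hV
    obtain ⟨Nc, -, hNc, -, -⟩ := (hE1 Eis).1 _ _ _ hV
    exact ⟨Nc, hNc⟩
  obtain ⟨Nc, hNc⟩ := hVc
  have hNc1 : Nc = 1 := by
    rw [← ((hMV Eis).1 _ _ hNc).2, hMc]
  rw [hNc1] at hNc
  exact ⟨c, G l', hNc, hVG, dd_facO hI fd l' (by rw [← h3, hfull])⟩

end

end Pool.Agent.B5.BP57
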