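import Pool.Agent.Lib.MP_b5021c_nt.BP.H57.Pzb
import Pool.Agent.Lib.MP_b5021c_nt.UF.H83.Cno1

/-!
# Board b5, BpS, row PZ: the normalised closing at `b` and its ray `T` (helper57)
-/

namespace Pool.Agent.B5.BP57

open scoped LaurentPolynomial
open Polynomial Pool.Agent.B5 Pool.Agent.B5.BPR
open Pool.Agent.MP_b5021c_nt (Eis)
open Pool.Agent.MP_b5021c_nt.Ire (bc)
open Pool.Agent.B5.H25.Bch
open Pool.Agent.B5.BP90 (Et pE pE_inj embN et_im_ne et_zero)

/-- a quotient of polynomials in the Laurent polynomials, `c(0) = 1`. -/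
theorem poly_of_mul {O : Type} [CommRing O] [IsDomain O] [IsPrincipalIdealRing O] [Coef O]
    {c v : O[X]} {x : RO O} (hc : c.coeff 0 = 1) (hv : v.coeff 0 ≠ 0)
    (h : toLaurent c * x = toLaurent v) : ∃ y : O[X], x = toLaurent y ∧ c * y = v := by
  have hx : x ≠ 0 := by
    rintro rfl
    rw [mul_zero] at h
    have h1 := toLaurent_injective ((map_zero _).trans h)
    rw [← h1, coeff_zero] at hv
    exact hv rfl
  obtain ⟨k, y, hy, hy0⟩ := H40.exists_normal x hx
  have h1 : (LaurentPolynomial.T 0 : RO O) * toLaurent v =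
      LaurentPolynomial.T k * toLaurent (c * y) := by
    rw [LaurentPolynomial.T_zero, one_mul, ← h, hy, map_mul]
    ring
  obtain ⟨h2, h3⟩ := H09.nf_unique 0 k v (c * y) hv (by
    rw [mul_coeff_zero, hc, one_mul]; exact hy0) h1
  refine ⟨y, ?_, h3.symm⟩
  rw [hy, ← h2, LaurentPolynomial.T_zero, one_mul]

section

variable {P L : Type} [Fintype P] [DecidableEq P] [AddCommGroup L] [Module.Free ℤ L]
  [Module.Finite ℤ L]

/-- The normalised closing `H` at `b` (load `eta e`) and its ray `T`. -/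
structure Pd (N : ℕ) (phi : L →+ (P → ℤ)) (E : AO ℤ L) (b T : L) (i iT : P)
    (hb : co phi i b = 1) (k0 k1 : (RO Eis)ˣ) (et : Eis) (p g f : ℤ[X]) (c2 v2 bt2 : Eis[X])
    (H : AO Eis (Ker (co phi i))) (T' : Ker (co phi i)) : Prop where
  eqT : (T' : L) = T
  c0 : c2.coeff 0 = 1
  eq : cl (co phi i) b hb k0 (bc E) = cst (toLaurent c2) * H
  dd : DD (phO phi b i) H
  ray : Ray H T'
  im : ImS (phO phi b i) T'
  po : co (phO phi b i) iT T' = 1
  h0 : H.coeff 0 = toLaurent v2
  h1 : (k1 : RO Eis) * H.coeff T' = -toLaurent bt2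
  cv : c2 * v2 = pE p - C et * pE g
  cb : c2 * bt2 = pE f
  v0 : v2.coeff 0 = ((N : ℤ) : Eis) - et
  b0 : bt2.coeff 0 = 1
  cls : ClassV ‖(Coef.emb (((N : ℤ) : Eis) - et) : ℂ)‖ (H.coeff 0)

variable {phi : L →+ (P → ℤ)} {E : AO ℤ L} {N : ℕ} {p g f : ℤ[X]} {b T : L} {i iT : P}
  {e eT : (RO ℤ)ˣ} {mu : L →+ ℤ}

/-- disjointness at the ports. -/
theorem port_dis (hdis : ∀ q, phi T q = 0 ∨ phi b q = 0) (hb : co phi i b = 1)
    (hT : co phi iT T = 1) : co phi i T = 0 ∧ co phi iT b = 0 := by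
  constructor
  · rcases hdis i with h | h
    · exact h
    · have h2 : phi b i = 1 := hb
      rw [h2] at h
      exact absurd h one_ne_zero
  · rcases hdis iT with h | h
    · have h2 : phi T iT = 1 := hT
      rw [h2] at h
      exact absurd h one_ne_zero
    · exact h

/-- the ports outside `b` and `T` on the kernel of `b`. -/
theorem ims_ker (hD3 : D3S) (hRk : RkS) (hD : DD phi E) (hb : Ray E b) (hT : Ray E T)
    (hdis : ∀ q, phi T q = 0 ∨ phi b q = 0) (hadj : BPR.Adj E b T)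
    (hfct : ∀ lam : L →+ ℤ, FacF (supp E) lam → lam b = 0 →
      ∃ (i : P) (m : ℤ), 0 < m ∧ ∀ a, lam a = m * phi a i)
    (hbi : co phi i b = 1) {T' : Ker (co phi i)} (hTT : (T' : L) = T) :
    ImS (phO phi b i) T' := by
  obtain ⟨l, lb, lT, lp⟩ := hadj
  intro a ha
  obtain ⟨k, j, hkj⟩ := inj2g hD3 hRk hD hb hT (fun q => (hdis q).symm) lb lT lp hfct (a : L)
    (by
      intro q h1 h2
      have h3 := ha q (by
        change (if phi b q = 0 then phi (T' : L) q else 0) = 0
        rw [if_pos h1, hTT, h2])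
      change (if phi b q = 0 then phi (a : L) q else 0) = 0 at h3
      rw [if_pos h1] at h3
      exact h3)
  have hTi : co phi i T = 0 := by
    rw [← hTT]; exact T'.2
  have h4 : co phi i (a : L) = 0 := a.2
  have h5 := congrArg (co phi i) hkj
  rw [h4, map_add, map_zsmul, map_zsmul, hTi, hbi, smul_zero, add_zero, smul_eq_mul, mul_one] at h5
  refine ⟨j, Subtype.ext ?_⟩
  rw [hkj, ← h5, zero_smul, zero_add, ← hTT]
  rfl

/-- EXISTENCE of the data. -/
theorem pd_ex (hFD : FDS) (hE2 : E2S) (hVZ : VZS) (hU : UnitRS) (hMV : MVS)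
    (hE1 : E1S) (hMm : MmulS) (hG0 : G0S) (hC0 : Coeff0S) (hW : WWfS) (hRF : RayFacS)
    (hQst : QstS) (hQra : QraS) (hMin : MinS) (hB5 : B5aS) (hRk : RkS) (hKm : KmuS)
    (hQc : Qc3S) (hDv : Dv3S) (hNd : Nd3vS) (hD3 : D3S) {et : Eis} (he : Et et)
    {k0 k1 : (RO Eis)ˣ} (hk0 : (k0 : RO Eis) = LaurentPolynomial.C et * bcR (e : RO ℤ))
    (hk1 : (k1 : RO Eis) = LaurentPolynomial.C et * bcR (eT : RO ℤ)) (hX : Xt N p phi E)
    (hb : Gl phi E b i e g) (hg0 : g.coeff 0 = 1) (hT : Gl phi E T iT eT f)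
    (hf0 : f.coeff 0 = 1) (hI : ImS phi b) (hdis : ∀ q, phi T q = 0 ∨ phi b q = 0)
    (hadj : BPR.Adj E b T)
    (hfct : ∀ lam : L →+ ℤ, FacF (supp E) lam → lam b = 0 →
      ∃ (i : P) (m : ℤ), 0 < m ∧ ∀ a, lam a = m * phi a i)
    (hkw : Kw phi E b i e mu) (hmT : mu T ≠ 0) :
    ∃ (c2 v2 bt2 : Eis[X]) (H : AO Eis (Ker (co phi i))) (T' : Ker (co phi i)),
      Pd N phi E b T i iT hb.po k0 k1 et p g f c2 v2 bt2 H T' := by
  obtain ⟨hTi, hbT⟩ := port_dis hdis hb.po hT.po
  obtain ⟨T', hT'⟩ : ∃ T' : Ker (co phi i), T' = ⟨T, hTi⟩ := ⟨_, rfl⟩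
  have hTT : (T' : L) = T := by rw [hT']
  have hN := hX.n3
  have hmu : mu ≠ 0 := by
    rintro rfl
    exact hmT rfl
  have hrk2 := Xt.two hX
  have hfin := finrank_kerO hRk hb.po
  -- the ray
  obtain ⟨V, hV⟩ : ∃ V : AO Eis (Ker (co phi i)), V = cl (co phi i) b hb.po k0 (bc E) := ⟨_, rfl⟩
  have hray : Ray V T' := by
    rw [hV]
    obtain ⟨l, lb, lT, lp⟩ := hadj
    refine ⟨?_, ?_, l.comp (incl (Ker (co phi i))), ?_, ?_⟩
    · have h1 := prj_mem_eta he hk0 hb.po hX.dd hT.ray.1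
      have h2 : prj (co phi i) b hb.po T = T' := by
        apply Subtype.ext
        rw [prj_coe, hTi, zero_smul, sub_zero, hTT]
      rw [h2] at h1
      exact h1
    · intro h1
      apply hT.ray.2.1
      rw [← hTT, h1]
      rfl
    · change l (T' : L) = 0
      rw [hTT, lT]
    · intro a ha ha0 haT
      change 0 < l (a : L)
      have hai : co phi i (a : L) = 0 := a.2
      obtain ⟨x, hx, h1⟩ := eta_supp he hk0 hb.po hX.dd ha
      have hbi := hb.po
      rcases h1 with h1 | h1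
      · rw [← h1]
        refine lp x hx ?_ ?_ ?_ ?_
        · intro h2
          exact ha0 (Subtype.ext (h1.symm.trans h2))
        · intro h2
          rw [← h1, h2, hbi] at hai
          exact one_ne_zero hai
        · intro h2
          exact haT (Subtype.ext (h1.symm.trans (h2.trans hTT.symm)))
        · intro h2
          rw [← h1, h2, map_add, hbi, hTi, add_zero] at hai
          exact one_ne_zero hai
      · have h3 : 0 < l x := by
          refine lp x hx ?_ ?_ ?_ ?_
          · intro h2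
            have h4 := congrArg (co phi i) (h1.symm.trans h2)
            rw [map_add, hai, hbi, map_zero, zero_add] at h4
            exact one_ne_zero h4
          · intro h2
            have h4 : (a : L) + b = 0 + b := by rw [zero_add]; exact h1.symm.trans h2
            exact ha0 (Subtype.ext (add_right_cancel h4))
          · intro h2
            have h4 := congrArg (co phi i) (h1.symm.trans h2)
            rw [map_add, hai, hbi, hTi, zero_add] at h4
            exact one_ne_zero h4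
          · intro h2
            have h4 : (a : L) + b = T + b := by rw [add_comm T b]; exact h1.symm.trans h2
            exact haT (Subtype.ext ((add_right_cancel h4).trans hTT.symm))
        rw [h1, map_add, lb, add_zero] at h3
        exact h3
  -- the coefficient at the ray
  have hco : (k1 : RO Eis) * V.coeff T' = -toLaurent (pE f) := by
    have h1 := hkw.2 T hTi hmT
    have h2 : (e : RO ℤ) * E.coeff (T + b) = -E.coeff T := by linear_combination h1
    have h3 := congrArg bcR hT.eq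
    rw [map_mul, map_neg, bcR_L] at h3
    have h4 : LaurentPolynomial.C et * (1 - LaurentPolynomial.C et) = (1 : RO Eis) := by
      rw [← map_one LaurentPolynomial.C, ← map_sub, ← map_mul, et_mul he]
    rw [hV, eta_co hk0 hb.po hX.dd, hTT, h2, hk1, map_neg]
    linear_combination (LaurentPolynomial.C et * (1 - LaurentPolynomial.C et)) * h3 +
      (-toLaurent (pE f)) * h4
  have hfn : ‖(Coef.emb ((pE f).coeff 0) : ℂ)‖ = 1 := by
    rw [pE_coeff, hf0, embN]
    norm_num
  have hp : ((1 : (RO ℤ)ˣ) : RO ℤ) * E.coeff 0 = toLaurent p := by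
    rw [Units.val_one, one_mul, hX.e0]
  have hg : ((1 : (RO ℤ)ˣ) : RO ℤ) * ((e : RO ℤ) * E.coeff b) = -toLaurent g := by
    rw [Units.val_one, one_mul, hb.eq]
  have hdrop : rk (supp (cl (co phi i) b hb.po e E)) < Module.finrank ℤ (Ker (co phi i)) :=
    drop_of_kw hRk hX.dd hb.po hmu hkw
  obtain ⟨c, H1, hc, hcH, hDD⟩ := eta_fac hFD hE2 hVZ hU hMV hE1 hMm hG0 hC0 hW hRF hQst hQra hMin
    hB5 hRk hKm hQc hDv hNd he hk0 hX.dd (by omega) hrk2 hX.cv hb.ray hI hp hX.p0 hg hg0 hdrop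
    (R := T') (by rw [← hV]; exact hray) (w' := -k1) (r := pE f) (by
      rw [← hV, Units.val_neg]
      linear_combination -hco) hfn
  obtain ⟨u, c2, hcu, hc20, -⟩ := content_poly hU hc (fun x hx => Cno.unit_norm hx)
  obtain ⟨H, hH⟩ : ∃ H : AO Eis (Ker (co phi i)), H = cst (u : RO Eis) * H1 := ⟨_, rfl⟩
  have hVH : V = cst (toLaurent c2) * H := by
    rw [hV, hcH, hH, ← mul_assoc, H78.cst_cst, hcu, mul_comm (u : RO Eis)]
  have hc2n : (toLaurent c2 : RO Eis) ≠ 0 := by
    intro h1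
    have h2 := toLaurent_injective (h1.trans (map_zero _).symm)
    rw [h2, coeff_zero] at hc20
    exact zero_ne_one hc20
  have hDH : DD (phO phi b i) H := by
    rw [hH]
    exact H78.dd_cst u.isUnit (fun z => (u.isUnit.map (evR z)).ne_zero) hDD
  have hsup : supp V = supp H := by rw [hVH, H78.supp_cst_mul hc2n]
  have hrayH : Ray H T' := by
    obtain ⟨h1, h2, l, h3, h4⟩ := hray
    rw [hsup] at h1 h4
    exact ⟨h1, h2, l, h3, h4⟩
  -- the apex
  have hV0 : V.coeff 0 = toLaurent (pE p - C et * pE g) := by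
    have h1 := eta_v0 (E := E) (S0 := b) (w := 1) (e0 := e) hk0 hp hg
    have h2 : ((bcU (1 : (RO ℤ)ˣ) : (RO Eis)ˣ) : RO Eis) = 1 := by
      rw [H09.bcU_val, Units.val_one, map_one]
    rw [h2, one_mul] at h1
    rw [hV, H47.cl_coeff_bin (co phi i) b hb.po k0 (bc E) (fun x hx => hX.dd.bin x
      ((supp_bc E) ▸ hx) i) 0, Submodule.coe_zero, zero_add]
    exact h1
  have hvc : (pE p - C et * pE g).coeff 0 = ((N : ℤ) : Eis) - et := by
    rw [coeff_sub, coeff_C_mul, pE_coeff, pE_coeff, hX.p0, hg0]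
    push_cast
    ring
  have hvn := eta_val he hvc
  have hN3 : (3 : ℝ) ≤ N := by exact_mod_cast hN
  have hvne : (pE p - C et * pE g).coeff 0 ≠ 0 := by
    intro h1
    rw [h1, map_zero, norm_zero] at hvn
    linarith
  obtain ⟨v2, hv2, hcv2⟩ := poly_of_mul (c := c2) (x := H.coeff 0) hc20 hvne (by
    rw [← hV0, hVH, H78.cstm])
  obtain ⟨bt2, hbt2, hcb2⟩ := poly_of_mul (c := c2) (v := pE f) (x := -((k1 : RO Eis) * H.coeff T'))
    hc20 (by
      intro h1
      rw [h1, map_zero, norm_zero] at hfn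
      exact zero_ne_one hfn) (by
      have h1 : (k1 : RO Eis) * V.coeff T' = toLaurent c2 * ((k1 : RO Eis) * H.coeff T') := by
        rw [hVH, H78.cstm]
        ring
      rw [hco] at h1
      linear_combination h1)
  have hv20 : v2.coeff 0 = ((N : ℤ) : Eis) - et := by
    rw [← hvc, ← hcv2, mul_coeff_zero, hc20, one_mul]
  -- the class
  have hpne : p.coeff 0 ≠ 0 := by rw [hX.p0]; exact_mod_cast (by omega : N ≠ 0)
  obtain ⟨hpz, -⟩ := zf_of_unit hU hX.cv hp hpne
  obtain ⟨-, -, hlt⟩ := ray_polyU hE2 hVZ hX.dd hrk2 hb.ray hp hg hpz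
  have hvz := eta_zf he hlt
  have hv2z : ZF (v2.map Coef.emb) := by
    intro z hz h1
    apply hvz z hz
    rw [← hcv2, Polynomial.map_mul, eval_mul, h1, mul_zero]
  have hcl := classV_of (O := Eis) hU (w := 1) (F := H.coeff 0) (v := v2) (by
    rw [Units.val_one, one_mul, hv2]) (by rw [hv20, ← hvc]; linarith) hv2z
  rw [hv20] at hcl
  refine ⟨c2, v2, bt2, H, T', hTT, hc20, by rw [← hV]; exact hVH, hDH, hrayH,
    ims_ker hD3 hRk hX.dd hb.ray hT.ray hdis hadj hfct hb.po hTT, ?_, hv2, ?_, hcv2, hcb2, hv20,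
    ?_, hcl⟩
  · change (if phi b iT = 0 then phi (T' : L) iT else 0) = 1
    have h1 : phi b iT = 0 := hbT
    rw [if_pos h1, hTT]
    exact hT.po
  · rw [← hbt2, neg_neg]
  · have h1 := congrArg (fun q : Eis[X] => q.coeff 0) hcb2
    simp only [mul_coeff_zero, hc20, one_mul] at h1
    rw [h1, pE_coeff, hf0]
    exact Int.cast_one

end

end Pool.Agent.B5.BP57
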