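import Pool.Agent.Lib.MP_b5021c_nt.BP.H57.Pzc
import Pool.Agent.Lib.MP_b5021c_nt.BP.H12.T2m

/-!
# Board b5, BpS, row PZ: the double closing is full (helper57)
-/

namespace Pool.Agent.B5.BP57

open scoped LaurentPolynomial
open Polynomial Pool.Agent.B5 Pool.Agent.B5.BPR
open Pool.Agent.MP_b5021c_nt (Eis)
open Pool.Agent.MP_b5021c_nt.Ire (bc)
open Pool.Agent.B5.H25.Bch
open Pool.Agent.B5.BP90 (Et pE pE_inj embN et_im_ne et_zero Exh tO tO_coeff0)

/-- The exhausted case, any pair. -/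
theorem exhG (hU : UnitRS) (hM1 : M1S) (hMV : MVS) {et : Eis} (he : Et et) {t : RO Eis}
    {q v : Eis[X]} {n : ℕ} {c : ℝ} {N : ℕ} (h : Exh t q v n c) (hN : 3 ≤ N)
    (hq0 : q.coeff 0 = ((N : ℤ) : Eis) - et) (hv0 : v.coeff 0 = ((N : ℤ) : Eis) - et - 1)
    (hz : ∀ z : ℂ, ‖z‖ ≤ 1 → (q.map (Coef.emb : Eis →+* ℂ)).eval z ≠ 0) :
    v = C (((N : ℤ) : Eis) - et - 1) := by
  have ecq : (Coef.emb (q.coeff 0) : ℂ) = (N : ℂ) - Coef.emb et := by
    rw [hq0, map_sub, embN]; push_cast; rfl
  have ecv : (Coef.emb (v.coeff 0) : ℂ) = (N : ℂ) - Coef.emb et - 1 := by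
    rw [hv0, map_sub, map_sub, embN, map_one]; push_cast; rfl
  have hre := he.re
  have him := he.im
  have hN3 : N = 3 := by
    have h1 := h.eq0
    rw [← Complex.normSq_eq_norm_sq, Complex.normSq_apply, ecq, ecv] at h1
    simp only [Complex.mul_re, Complex.conj_re, Complex.conj_im, Complex.sub_re, Complex.sub_im,
      Complex.natCast_re, Complex.natCast_im, Complex.one_re, Complex.one_im, hre] at h1
    have h6 : (3 : ℝ) ≤ N := by exact_mod_cast hN
    have h7 : ((N : ℝ) - 2) * (N - 3) = 0 := by nlinarith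
    rcases mul_eq_zero.mp h7 with h8 | h8
    · linarith
    · have : (N : ℝ) = 3 := by linarith
      exact_mod_cast this
  subst hN3
  obtain ⟨be, hbe⟩ : ∃ be : Eis, be = ((3 : ℤ) : Eis) - et - 1 := ⟨_, rfl⟩
  have cq3 : q.coeff 0 = be + 1 := by rw [hq0, hbe]; push_cast; ring
  have cv3 : v.coeff 0 = be := by rw [hv0, hbe]; rfl
  have hbe0 : be ≠ 0 := by
    intro h1
    have h2 := congrArg (Coef.emb : Eis →+* ℂ) h1
    rw [hbe, map_sub, map_sub, embN, map_one, map_zero] at h2
    have h3 := congrArg Complex.im h2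
    simp at h3
    exact et_im_ne he h3
  have heq := h.eq
  -- the constant
  have hk : (3 + (c : ℂ) * Complex.I) * Coef.emb be = 2 * (Coef.emb be + 1) := by
    have h1 := congrArg (fun f : ℂ[X] => f.coeff 0) heq
    simp only [mul_coeff_zero, coeff_C_zero, coeff_add, coeff_map, tO_coeff0, map_zero, mul_zero,
      add_zero, cq3, cv3, map_add, map_one] at h1
    exact h1.symm
  have hmain : C be * q = (C (be + 1) + C be * tO t n) * v := by
    apply Polynomial.map_injective (Coef.emb : Eis →+* ℂ) emb_inj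
    rw [Polynomial.map_mul, Polynomial.map_mul, Polynomial.map_add, Polynomial.map_mul, map_C,
      map_C, map_add, map_one]
    have h2 : (C (2 : ℂ) : ℂ[X]) ≠ 0 := by rw [Ne, C_eq_zero]; exact two_ne_zero
    apply mul_left_cancel₀ h2
    have h3 : (C (Coef.emb be : ℂ) : ℂ[X]) * C (3 + (c : ℂ) * Complex.I) =
        C 2 * C ((Coef.emb be : ℂ) + 1) := by
      rw [← C_mul, ← C_mul, ← hk, mul_comm]
    calc C (2 : ℂ) * (C (Coef.emb be) * q.map (Coef.emb : Eis →+* ℂ))
        = C (Coef.emb be) * (C 2 * q.map (Coef.emb : Eis →+* ℂ)) := by ring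
      _ = (C (Coef.emb be) * C (3 + (c : ℂ) * Complex.I) +
            C 2 * (C (Coef.emb be) * (tO t n).map (Coef.emb : Eis →+* ℂ))) *
            v.map (Coef.emb : Eis →+* ℂ) := by rw [heq]; ring
      _ = _ := by rw [h3]; ring
  obtain ⟨s, hs⟩ : ∃ s : Eis[X], s = q - tO t n * v - v := ⟨_, rfl⟩
  have hC1 : (C (be + 1) : Eis[X]) = C be + 1 := by rw [C_add, C_1]
  have hvs : v = C be * s := by
    rw [hs]
    rw [hC1] at hmain
    linear_combination (-1 : Eis[X]) * hmain
  have hbC : (C be : Eis[X]) ≠ 0 := by rwa [Ne, C_eq_zero]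
  have hqs : q = (C (be + 1) + C be * tO t n) * s := by
    apply mul_left_cancel₀ hbC
    rw [hmain]
    conv_lhs => rw [hvs]
    ring
  have hs0 : s.coeff 0 = 1 := by
    rw [hs, coeff_sub, coeff_sub, mul_coeff_zero, tO_coeff0, zero_mul, cq3, cv3]
    ring
  have hs1 : s = 1 := by
    refine one_of_zf hU hM1 hMV hs0 fun z hz1 h5 => ?_
    apply hz z hz1
    rw [hqs, Polynomial.map_mul, eval_mul, h5, mul_zero]
  rw [hvs, hs1, mul_one, hbe]
  rfl

/-- the arithmetic end of the full case. -/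
theorem pz_end {et : Eis} (he : Et et) {N : ℕ} (hN : 3 ≤ N) {p g f : ℤ[X]} {x : Eis[X]}
    (hx : C (((N : ℤ) : Eis) - 1) - C et * pE g = C (((N : ℤ) : Eis) - et - 1) * x)
    (hpf : p - f = C ((N : ℤ) - 1)) (hf0 : f.coeff 0 = 1) (hF : ∀ k, |f.coeff k| ≤ 1) {k1 : ℕ}
    (hk1 : k1 ≠ 0) (hfg : ∀ k, k ≠ k1 → f.coeff k = g.coeff k) :
    p = C (N : ℤ) + C (f.coeff k1) * X ^ k1 ∧ g = 1 + C (g.coeff k1) * X ^ k1 := by
  have hg : ∀ k, k ≠ 0 → k ≠ k1 → g.coeff k = 0 := by
    intro k h1 h2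
    exact ar_small he hN hx h1 (by rw [← hfg k h2]; exact hF k)
  have hp : ∀ k, p.coeff k = f.coeff k + (C ((N : ℤ) - 1)).coeff k := by
    intro k
    rw [← hpf, coeff_sub]
    ring
  constructor
  · ext k
    rw [hp, coeff_add, coeff_C_mul, coeff_X_pow]
    by_cases h1 : k = 0
    · subst h1
      rw [hf0, coeff_C_zero, coeff_C_zero, if_neg (by omega)]
      ring
    · rw [coeff_C, coeff_C, if_neg h1, if_neg h1]
      by_cases h2 : k = k1
      · rw [h2, if_pos rfl]
        ring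
      · rw [if_neg h2, hfg k h2, hg k h1 h2]
        ring
  · ext k
    rw [coeff_add, coeff_C_mul, coeff_X_pow, coeff_one]
    by_cases h1 : k = 0
    · subst h1
      rw [← hfg 0 (Ne.symm hk1), hf0, if_pos rfl, if_neg (by omega)]
      ring
    · rw [if_neg h1]
      by_cases h2 : k = k1
      · rw [h2, if_pos rfl]
        ring
      · rw [if_neg h2, hg k h1 h2]
        ring

section

variable {P L : Type} [Fintype P] [DecidableEq P] [AddCommGroup L] [Module.Free ℤ L]
  [Module.Finite ℤ L] {phi : L →+ (P → ℤ)} {E : AO ℤ L} {N : ℕ} {p g f : ℤ[X]} {b T : L}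
  {i iT : P}

/-- THE FULL CASE. -/
theorem pz_full (hFD : FDS) (hM1c : BP12.McOneS) (hG1 : G1pS) (hR : ResWDS) (hRS : ResStS) (hEv : EvS)
    (hEvm : EvmS) (hFcl : FclS) (hE1 : E1S) (hMV : MVS) (hMm : MmulS) (hU : UnitRS) (hE2 : E2S)
    (hVZ : VZS) (hRk : RkS) (hCno : Cno.CnoS) (hQc : Qc3S) (hNd : Nd3vS) (hDv : Dv3S)
    (hQm : Qm3S) (hNr : Nr3S) (hHp : HpgS) (hTa : Ta3S) (hUm : Um3vS) (hSt : St3S) (hSw : Sw3S)
    (hEvR : EvRS) (hZ : ZfinS) (hNn : Nn3S) (hM1 : M1S) (hV1 : V1S)
    {hb : co phi i b = 1} {k0 k1 : (RO Eis)ˣ} {et : Eis} (he : Et et) {c2 v2 bt2 : Eis[X]}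
    {H : AO Eis (Ker (co phi i))} {T' : Ker (co phi i)}
    (pd : Pd N phi E b T i iT hb k0 k1 et p g f c2 v2 bt2 H T') (hN : 3 ≤ N)
    (hfin : Module.finrank ℤ L + 1 = 2 * N)
    (hfull : rk (supp (cl (co (phO phi b i) iT) T' pd.po k1 H)) =
      Module.finrank ℤ (Ker (co (phO phi b i) iT)))
    (hpf : p - f = C ((N : ℤ) - 1)) (hf0 : f.coeff 0 = 1) (hF : ∀ k, |f.coeff k| ≤ 1)
    (hf1 : f ≠ 1) {kk : ℕ} (hkk : kk ≠ 0) (hfg : ∀ k, k ≠ kk → f.coeff k = g.coeff k) :
    p = C (N : ℤ) + C (f.coeff kk) * X ^ kk ∧ g = 1 + C (g.coeff kk) * X ^ kk := by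
  have hker := finrank_kerO hRk hb
  have hfin2 : Module.finrank ℤ (Ker (co phi i)) + 2 = 2 * N := by omega
  have hN3 : (3 : ℝ) ≤ N := by exact_mod_cast hN
  have hre := he.re
  have him0 := et_im_ne he
  have ecq : (Coef.emb (((N : ℤ) : Eis) - et) : ℂ) = (N : ℂ) - Coef.emb et := by
    rw [map_sub, embN]; push_cast; rfl
  have ecv : (Coef.emb (((N : ℤ) : Eis) - et - 1) : ℂ) = (N : ℂ) - Coef.emb et - 1 := by
    rw [map_sub, ecq, map_one]
  have hal0 : (((N : ℤ) : Eis) - et - 1) ≠ 0 := by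
    intro h1
    have h2 := congrArg (Coef.emb : Eis →+* ℂ) h1
    rw [ecv, map_zero] at h2
    have h3 := congrArg Complex.im h2
    simp at h3
    exact him0 h3
  have hq : ((1 : (RO Eis)ˣ) : RO Eis) * H.coeff 0 = toLaurent v2 := by
    rw [Units.val_one, one_mul, pd.h0]
  have hg : ((1 : (RO Eis)ˣ) : RO Eis) * ((k1 : RO Eis) * H.coeff T') = -toLaurent bt2 := by
    rw [Units.val_one, one_mul, pd.h1]
  have hap : H.coeff 0 + (k1 : RO Eis) * H.coeff T' = toLaurent (v2 - bt2) := by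
    rw [pd.h0, pd.h1, map_sub, sub_eq_add_neg]
  have hap0 : (v2 - bt2).coeff 0 = ((N : ℤ) : Eis) - et - 1 := by
    rw [coeff_sub, pd.v0, pd.b0]
  obtain ⟨c, n, G, fd⟩ := hFD Eis P (Ker (co phi i)) (phO phi b i) H T' iT k1 pd.po
    ⟨pd.dd, by omega, pd.ray, pd.po, by
      rw [hap]
      intro h1
      have h2 := toLaurent_injective (h1.trans (map_zero _).symm)
      rw [h2, coeff_zero] at hap0
      exact hal0 hap0.symm⟩
  have hMc : M c = 1 := hM1c P (Ker (co phi i)) (phO phi b i) H T' iT k1 pd.po c n G et N _ 1 v2 bt2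
    fd pd.im he hN hfin2 pd.cls hq pd.v0 hg pd.b0 hfull
  -- the equation
  have hmain : ∀ y : Eis[X], v2 - bt2 = C (((N : ℤ) : Eis) - et - 1) * y →
      C (((N : ℤ) : Eis) - 1) - C et * pE g = C (((N : ℤ) : Eis) - et - 1) * (c2 * y) := by
    intro y hy
    have h1 : pE p - pE f = C (((N : ℤ) : Eis) - 1) := by
      have h2 := congrArg pE hpf
      simp only [pE, Polynomial.map_sub, map_C] at h2
      have h3 : (Int.castRingHom Eis) ((N : ℤ) - 1) = ((N : ℤ) : Eis) - 1 := by
        rw [map_sub, map_one]; rfl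
      rw [h3] at h2
      exact h2
    have h2 : c2 * (v2 - bt2) = (pE p - C et * pE g) - pE f := by
      rw [mul_sub, pd.cv, pd.cb]
    rw [hy] at h2
    linear_combination -h1 - h2
  by_cases hs : snp (phO phi b i) T' iT G = ∅
  · obtain ⟨G0, -, -, -, -, -, h1⟩ := t2n hG1 hR hRS hEv hEvm hFcl hE1 hMV hMm hU hE2 hVZ hRk hCno
      fd hs pd.im he hN hfin2 pd.cls hq pd.v0 hg pd.b0 hfull
    rcases h1 with ⟨-, h1⟩ | ⟨d, s, -, -, -, h1, -⟩
    · exact pz_end he hN (hmain 1 (by rw [h1, mul_one])) hpf hf0 hF hkk hfg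
    · exact pz_end he hN (hmain _ h1) hpf hf0 hF hkk hfg
  · obtain ⟨zp, zp1, h1⟩ := BP90.swn hQc hE2 hNd hDv hQm hNr hHp hTa hUm hSt hSw hEvR hZ hNn hU hVZ
      fd hMc (Finset.nonempty_iff_ne_empty.mpr hs) pd.cls hq hg pd.b0 (by
        rw [pd.v0]
        intro h2
        have h3 := congrArg (Coef.emb : Eis →+* ℂ) h2
        rw [ecq, map_zero] at h3
        have h4 := congrArg Complex.im h3
        simp at h4
        exact him0 h4) (by
        rw [pd.v0, ecq, ecv, ← Complex.normSq_eq_norm_sq, Complex.normSq_apply]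
        simp only [Complex.mul_re, Complex.conj_re, Complex.conj_im, Complex.sub_re,
          Complex.sub_im, Complex.natCast_re, Complex.natCast_im, Complex.one_re, Complex.one_im,
          hre]
        have him := he.im
        nlinarith [mul_nonneg (by linarith : (0 : ℝ) ≤ (N : ℝ) - 2)
          (by linarith : (0 : ℝ) ≤ (N : ℝ) - 3)]) (by
        rw [pd.v0]
        intro h2
        have h3 := congrArg (Coef.emb : Eis →+* ℂ) h2
        rw [ecq] at h3
        have h4 := congrArg Complex.im h3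
        have h5 : (Coef.emb (2 : Eis) : ℂ) = 2 := by
          have := embN 2
          push_cast at this
          exact this
        rw [h5] at h4
        simp at h4
        exact him0 h4)
    rcases h1 with ⟨zg, D1, b1, e1, hDD, hRa, hc0, hcl⟩ | ⟨t, n', c', hex⟩
    · exfalso
      apply hf1
      rcases hV1 Eis P (Ker (co phi i)) (phO phi b i) D1 b1 e1 0 v2 bt2 hDD (by omega) hRa hc0 hcl
        zp zg pd.b0 (by
          rw [pd.v0, ecq, Complex.sub_re, Complex.natCast_re, hre]
          have h2 : ((Module.finrank ℤ (Ker (co phi i)) : ℕ) : ℝ) + 2 = 2 * N := by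
            exact_mod_cast hfin2
          linarith) with h2 | ⟨d, u, hd, hu, h2, h3⟩
      · have h4 : c2 = pE f := by rw [← pd.cb, h2, mul_one]
        refine ar_root he (by omega : 2 ≤ N) hf0 (g := g) ?_
        have h5 := hmain
        have h6 : C (((N : ℤ) : Eis) - 1) - C et * pE g = pE f * (v2 - 1) := by
          have h1 : pE p - pE f = C (((N : ℤ) : Eis) - 1) := by
            have h2 := congrArg pE hpf
            simp only [pE, Polynomial.map_sub, map_C] at h2
            have h3 : (Int.castRingHom Eis) ((N : ℤ) - 1) = ((N : ℤ) : Eis) - 1 := by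
              rw [map_sub, map_one]; rfl
            rw [h3] at h2
            exact h2
          have h7 := pd.cv
          rw [h4] at h7
          linear_combination -h1 - h7
        rw [h6]
        exact dvd_mul_right _ _
      · refine ar_deg he hN hf0 (g := g) (c2 := c2) hu hd ?_ ?_
        · rw [← h2]
          exact pd.cb
        · have h1 : pE p - pE f = C (((N : ℤ) : Eis) - 1) := by
            have h2 := congrArg pE hpf
            simp only [pE, Polynomial.map_sub, map_C] at h2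
            have h3 : (Int.castRingHom Eis) ((N : ℤ) - 1) = ((N : ℤ) : Eis) - 1 := by
              rw [map_sub, map_one]; rfl
            rw [h3] at h2
            exact h2
          have h4 : c2 * (v2 - bt2) = (pE p - C et * pE g) - pE f := by
            rw [mul_sub, pd.cv, pd.cb]
          have h5 : v2 - bt2 = C (((N : ℤ) : Eis) - et - 1) -
              C ((((N : ℤ) : Eis) - et - 2) * u) * X ^ d := by
            rw [h3, h2, pd.v0]
            simp only [C_sub, C_mul, C_1]
            have h6 : (C (2 : Eis) : Eis[X]) = 2 := by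
              rw [show (2 : Eis) = 1 + 1 by norm_num, C_add, C_1]
              norm_num
            rw [h6]
            ring
          rw [← h5, h4]
          linear_combination h1
    · have h2 := exhG hU hM1 hMV he hex hN pd.v0 hap0 zp1
      exact pz_end he hN (hmain 1 (by rw [h2, mul_one])) hpf hf0 hF hkk hfg

end

end Pool.Agent.B5.BP57
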