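import Pool.Agent.Lib.MP_b5021c_nt.BP.H57.Pzd
import Pool.Agent.Lib.MP_b5021c_nt.BP.H71.Zf

/-!
# Board b5, BpS, row PZ: the data of a z-free full closing at the partner (helper57)
-/

namespace Pool.Agent.B5.BP57

open scoped LaurentPolynomial
open Polynomial Pool.Agent.B5 Pool.Agent.B5.BPR
open Pool.Agent.B5.H40 (uT uT_val)
open Pool.Agent.B5.Tl

/-- a unit is `v z^m`. -/
theorem unit_uT (hU : UnitRS) {O : Type} [CommRing O] [IsDomain O] [IsPrincipalIdealRing O]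
    [Coef O] (u : (RO O)ˣ) : ∃ (v : Oˣ) (m : ℤ), u = uT v m := by
  obtain ⟨m, s, ⟨v, hv⟩, h⟩ := (hU O _).mp u.isUnit
  refine ⟨v, m, Units.ext ?_⟩
  rw [uT_val, h, hv]

theorem zfree_unit (hU : UnitRS) {O : Type} [CommRing O] [IsDomain O] [IsPrincipalIdealRing O]
    [Coef O] {L : Type} [AddCommGroup L] {c : RO O} (hc : IsUnit c) {F : AO O L} (h : ZFree F) :
    ZFree (cst c * F) := by
  obtain ⟨u, rfl⟩ := hc
  obtain ⟨v, m, rfl⟩ := unit_uT hU u
  obtain ⟨q, l, n, hq, hl⟩ := h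
  refine ⟨q, l, n + m, hq, fun a k hk => ?_⟩
  have h1 : (F.coeff a).coeff (k - m) ≠ 0 := by
    intro h1
    apply hk
    rw [H78.cstm, uT_coeff, h1, mul_zero]
  have h2 := hl a (k - m) h1
  linear_combination h2

theorem exX (N : ℕ) : ∃ x : ℝ, 0 < x ∧ x⁻¹ - x = (N : ℝ) - 1 := by
  obtain ⟨a, ha⟩ : ∃ a : ℝ, a = (N : ℝ) - 1 := ⟨_, rfl⟩
  have h1 : |a| < Real.sqrt (a ^ 2 + 4) := by
    rw [← Real.sqrt_sq_eq_abs]
    exact Real.sqrt_lt_sqrt (sq_nonneg _) (by linarith)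
  have h2 : a < Real.sqrt (a ^ 2 + 4) := lt_of_le_of_lt (le_abs_self _) h1
  have h3 := Real.sq_sqrt (by positivity : (0 : ℝ) ≤ a ^ 2 + 4)
  refine ⟨(Real.sqrt (a ^ 2 + 4) - a) / 2, by linarith, ?_⟩
  rw [← ha]
  have h4 : (Real.sqrt (a ^ 2 + 4) - a) ≠ 0 := by linarith
  field_simp
  nlinarith

section

variable {P L : Type} [Fintype P] [DecidableEq P] [AddCommGroup L] [Module.Free ℤ L]
  [Module.Finite ℤ L]

/-- The data of step 0. -/
structure P0 (N : ℕ) (phi : L →+ (P → ℤ)) (E : AO ℤ L) (p g f : ℤ[X]) (b T : L) (iT : P)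
    (sb sT : ℤˣ) (mb mT : ℤ) (F : ℤ[X]) (kk : ℕ) (r : ℤ) (nuT : ℤ × L →+ ℤ) : Prop where
  hp : p = C (N : ℤ) + F
  hf : f = 1 + F
  f0 : F.coeff 0 = 0
  f1 : ∀ k, |F.coeff k| ≤ 1
  bff : Bff N F
  k1 : 1 ≤ kk
  fg : f - g = C r * X ^ kk
  kt : Tot.KT (pr (co phi iT)) (-mT, T) (sT : ℤ) (tc E) nuT
  nz : nuT (1, 0) ≠ 0
  nb : r ≠ 0 → nuT (-mb, b) ≠ 0

variable {phi : L →+ (P → ℤ)} {E : AO ℤ L} {N : ℕ} {p g f : ℤ[X]} {b T : L} {i iT : P}
  {e eT : (RO ℤ)ˣ} {mu : L →+ ℤ}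

theorem pz_zero (hUf : UfgS) (hU : UnitRS) (hX : Xt N p phi E) (hbnk : Bnk (2 * N - 2))
    (hb : Gl phi E b i e g) (hT : Gl phi E T iT eT f)
    (hf0 : f.coeff 0 = 1) (hg0 : g.coeff 0 = 1) (hdis : ∀ q, phi T q = 0 ∨ phi b q = 0)
    (hkw : Kw phi E b i e mu) (hmT : mu T ≠ 0)
    (hfullT : ∀ nu : L →+ ℤ, Kw phi E T iT eT nu → nu = 0) {c : RO ℤ} {n : ℕ}
    {G : Fin n → AO ℤ (Ker (co phi iT))} (hZ : Zfg phi E T iT hT.po eT c n G) (hc : IsUnit c)
    {sb sT : ℤˣ} {mb mT : ℤ} (he : e = uT sb mb) (heT : eT = uT sT mT) (hRk : RkS)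
    (hK : KmuS) :
    ∃ (F : ℤ[X]) (kk : ℕ) (r : ℤ) (nuT : ℤ × L →+ ℤ),
      P0 N phi E p g f b T iT sb sT mb mT F kk r nuT := by
  obtain ⟨hTi, hbT⟩ := port_dis hdis hb.po hT.po
  have hN := hX.n3
  obtain ⟨V, hV⟩ : ∃ V : AO ℤ (Ker (co phi iT)), V = cl (co phi iT) T hT.po eT E := ⟨_, rfl⟩
  have hVco : ∀ a : Ker (co phi iT), V.coeff a = E.coeff (a : L) +
      (eT : RO ℤ) * E.coeff ((a : L) + T) := by
    intro a
    rw [hV]
    exact H47.cl_coeff_bin (co phi iT) T hT.po eT E (fun x hx => hX.dd.bin x hx iT) a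
  have hVz : ZFree V := by
    rw [hV, hZ.eq]
    exact zfree_unit hU hc hZ.zf
  obtain ⟨q, l, n', hq, hl⟩ := id hVz
  have hq0 : (q : ℤ) ≠ 0 := by exact_mod_cast hq.ne'
  -- the apex
  have hV0 : V.coeff 0 = toLaurent (p - f) := by
    rw [hVco, Submodule.coe_zero, zero_add]
    exact gl_apex hX hT
  have hpf0 : (p - f).coeff 0 = (N : ℤ) - 1 := by rw [coeff_sub, hX.p0, hf0]
  have hn' : n' = 0 := by
    have h1 : (V.coeff 0).coeff ((0 : ℕ) : ℤ) ≠ 0 := by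
      rw [hV0, Cno.tl_coeff_nonneg, hpf0]
      omega
    have h2 := hl 0 _ h1
    rw [map_zero, zero_add, Nat.cast_zero, mul_zero] at h2
    exact (mul_eq_zero.mp h2.symm).resolve_left hq0
  have hpf : p - f = C ((N : ℤ) - 1) := by
    ext k
    rw [coeff_C]
    split_ifs with h1
    · rw [h1, hpf0]
    · by_contra h2
      have h3 : (V.coeff 0).coeff (k : ℤ) ≠ 0 := by
        rw [hV0, Cno.tl_coeff_nonneg]
        exact h2
      have h4 := hl 0 _ h3
      rw [map_zero, zero_add, hn'] at h4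
      exact h1 (by exact_mod_cast mul_left_cancel₀ hq0 h4)
  -- UF
  obtain ⟨x, hx, hx2⟩ := exX N
  have hp' : ((1 : (RO ℤ)ˣ) : RO ℤ) * E.coeff 0 = toLaurent p := by
    rw [Units.val_one, one_mul, hX.e0]
  have hf' : ((1 : (RO ℤ)ˣ) : RO ℤ) * ((eT : RO ℤ) * E.coeff T) = -toLaurent f := by
    rw [Units.val_one, one_mul, hT.eq]
  have huf := hUf P L phi E T iT hT.po eT c n G N p f 1 x hX.dd hT.ray hZ hN hX.cv hX.rkL hbnk hp'
    hf' hX.p0 hf0 hx hx2
  obtain ⟨F, hF1, hF2, hF3, hF4, hF5⟩ : ∃ F : ℤ[X], p = C (N : ℤ) + F ∧ f = 1 + F ∧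
      F.coeff 0 = 0 ∧ (∀ k, |F.coeff k| ≤ 1) ∧
        ∀ (m : ℕ) (G : ℤ[X]), 1 ≤ m → (∀ j, G.coeff j = F.coeff (m * j)) →
          (aeval x G : ℝ) ≤ x ∧ (aeval (-x) G : ℝ) ≤ x := by
    rcases huf with h1 | ⟨k, ep, hk, hep, h1, h2⟩
    · exact h1
    · exfalso
      have h3 := congrArg (fun y : ℤ[X] => y.coeff k) hpf
      simp only [h1, h2, coeff_sub, coeff_add, coeff_C, coeff_one, coeff_C_mul, coeff_X_pow,
        if_true, if_neg (by omega : ¬ k = 0)] at h3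
      have hep0 : ep ≠ 0 := by rcases hep with h | h <;> rw [h] <;> norm_num
      have h4 : ((N : ℤ) - 1) * ep = 0 := by linear_combination -h3
      rcases mul_eq_zero.mp h4 with h5 | h5
      · omega
      · exact hep0 h5
  have hbff : Bff N F := ⟨hN, hF3, hF4, x, hx, hx2, hF5⟩
  -- the class of `b`
  obtain ⟨b', hb'⟩ : ∃ b' : Ker (co phi iT), b' = ⟨b, hbT⟩ := ⟨_, rfl⟩
  have hVb : (e : RO ℤ) * V.coeff b' = toLaurent (f - g) := by
    have h1 := hkw.2 T hTi hmT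
    have h2 : (e : RO ℤ) * E.coeff (b + T) = -E.coeff T := by
      rw [add_comm b T]
      linear_combination h1
    rw [hVco, hb', map_sub]
    have h3 := hb.eq
    have h4 := hT.eq
    change (e : RO ℤ) * (E.coeff b + (eT : RO ℤ) * E.coeff (b + T)) = _
    linear_combination h3 - h4 + (eT : RO ℤ) * h2
  have hfg : ∀ k : ℕ, (f - g).coeff k ≠ 0 → (q : ℤ) * ((k : ℤ) - mb) = l b' := by
    intro k hk
    have h1 : ((e : RO ℤ) * V.coeff b').coeff (k : ℤ) ≠ 0 := by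
      rw [hVb, Cno.tl_coeff_nonneg]
      exact hk
    rw [he, uT_coeff] at h1
    have h2 := hl b' _ (right_ne_zero_of_mul h1)
    rw [hn', mul_zero, add_zero] at h2
    exact h2
  -- the total functional
  have hts0 : ((0 : ℤ), (0 : Ker (co phi iT))) ∈ ts V := by
    rw [mem_ts]
    change (V.coeff 0).coeff (((0 : ℕ) : ℤ)) ≠ 0
    rw [hV0, Cno.tl_coeff_nonneg, hpf0]
    omega
  have hfin := finrank_kerO hRk hT.po
  have hrkV : rk (supp V) = Module.finrank ℤ (Ker (co phi iT)) := by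
    rw [hV]
    exact full_of_kw hK hRk hX.dd hT.po hfullT
  have htrk : trk V = rk (supp V) := trk_zfree hVz hts0
  have hbinT : ∀ a ∈ supp E, co phi iT a = 0 ∨ co phi iT a = 1 := fun a ha => hX.dd.bin a ha iT
  obtain ⟨nuT, hnu, hkt⟩ := exists_kt (co phi iT) T hT.po sT mT E hbinT (by
    rw [← heT, ← hV, htrk, hrkV]
    omega)
  have hAS := (kt_iff (co phi iT) T hT.po sT mT E hbinT nuT).mp hkt
  rw [← heT, ← hV] at hAS
  have hval : ∀ (k : ℤ) (a : Ker (co phi iT)), (V.coeff a).coeff k ≠ 0 → nuT (k, (a : L)) = 0 := by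
    intro k a hk
    exact hAS _ (Or.inr ⟨(k, a), hk, rfl⟩)
  have hnz : nuT (1, 0) ≠ 0 := by
    intro h0
    apply hnu
    have h1 : ∀ (k : ℤ) (a : L), nuT (k, a) = nuT (0, a) := by
      intro k a
      have h2 : ((k, a) : ℤ × L) = k • ((1 : ℤ), (0 : L)) + (0, a) := by simp
      rw [h2, map_add, map_zsmul, h0, smul_zero, zero_add]
    have h3 : nuT.comp (AddMonoidHom.inr ℤ L) = 0 := by
      apply hfullT
      refine (kw_iff hX.dd hT.po _).mpr ⟨?_, fun a ha => ?_⟩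
      · change nuT (0, T) = 0
        rw [← h1 (-mT) T]
        exact hkt.1
      · rw [← hV] at ha
        obtain ⟨k, hk⟩ := exists_ts ha
        change nuT (0, (a : L)) = 0
        rw [← h1 k]
        exact hval k a hk
    apply AddMonoidHom.ext
    rintro ⟨k, a⟩
    rw [h1]
    have := congrArg (fun ψ : L →+ ℤ => ψ a) h3
    exact this
  by_cases hall : f - g = 0
  · refine ⟨F, 1, 0, nuT, hF1, hF2, hF3, hF4, hbff, le_rfl, by rw [hall]; simp, hkt, hnz,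
      fun h => absurd rfl h⟩
  · -- one exponent
    obtain ⟨kk, hkk⟩ : ∃ kk : ℕ, (f - g).coeff kk ≠ 0 := by
      by_contra hcon
      push Not at hcon
      exact hall (Polynomial.ext fun k => by rw [hcon k, coeff_zero])
    have huq : ∀ k, (f - g).coeff k ≠ 0 → k = kk := by
      intro k hk
      have h1 := hfg k hk
      have h2 := hfg kk hkk
      have h3 : (q : ℤ) * ((k : ℤ) - mb) = (q : ℤ) * ((kk : ℤ) - mb) := h1.trans h2.symm
      have h4 := mul_left_cancel₀ hq0 h3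
      omega
    have hmon : f - g = C ((f - g).coeff kk) * X ^ kk := by
      ext k
      rw [coeff_C_mul, coeff_X_pow]
      by_cases h1 : k = kk
      · rw [if_pos h1, h1, mul_one]
      · rw [if_neg h1, mul_zero]
        by_contra h2
        exact h1 (huq k h2)
    by_cases hk0 : kk = 0
    · exfalso
      apply hkk
      rw [hk0, coeff_sub, hf0, hg0, sub_self]
    · refine ⟨F, kk, (f - g).coeff kk, nuT, hF1, hF2, hF3, hF4, hbff, by omega, hmon, hkt, hnz,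
        fun _ => ?_⟩
      intro h0
      have h1 : ((e : RO ℤ) * V.coeff b').coeff (kk : ℤ) ≠ 0 := by
        rw [hVb, Cno.tl_coeff_nonneg]
        exact hkk
      rw [he, uT_coeff] at h1
      have h2 := hval _ _ (right_ne_zero_of_mul h1)
      rw [hb'] at h2
      have h3 : (((kk : ℤ) - mb, b) : ℤ × L) = (kk : ℤ) • ((1 : ℤ), (0 : L)) + (-mb, b) := by
        refine Prod.ext ?_ ?_
        · change (kk : ℤ) - mb = (kk : ℤ) • (1 : ℤ) + -mb
          rw [smul_eq_mul]; ring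
        · change b = (kk : ℤ) • (0 : L) + b
          rw [smul_zero, zero_add]
      have h4 : nuT ((kk : ℤ) - mb, b) = 0 := h2
      rw [h3, map_add, map_zsmul, h0, add_zero, smul_eq_mul] at h4
      rcases mul_eq_zero.mp h4 with h5 | h5
      · exact hk0 (by exact_mod_cast h5)
      · exact hnz h5

end

end Pool.Agent.B5.BP57
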