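import Pool.Agent.Lib.MP_b5021c_nt.BP.H57.Pze
import Pool.Agent.Lib.MP_b5021c_nt.BP.H80.Lev

/-!
# Board b5, BpS, row PZ: a functional which kills the double closing; the third ray (helper57)
-/

namespace Pool.Agent.B5.BP57

open scoped LaurentPolynomial
open Polynomial Pool.Agent.B5 Pool.Agent.B5.BPR
open Pool.Agent.MP_b5021c_nt (Eis)
open Pool.Agent.MP_b5021c_nt.Ire (bc)
open Pool.Agent.B5.H25.Bch
open Pool.Agent.B5.BP90 (Et pE pE_inj embN et_im_ne et_zero)
open Pool.Agent.B5.H40 (uT uT_val)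
open Pool.Agent.B5.Tl

section

variable {P L : Type} [Fintype P] [DecidableEq P] [AddCommGroup L] [Module.Free ℤ L]
  [Module.Finite ℤ L]

/-- `nu` kills the double closing at the loads `eta e`, `eta eT`. -/
structure Kn (phi : L →+ (P → ℤ)) (E : AO ℤ L) (b T : L) (i iT : P) (e eT : (RO ℤ)ˣ)
    (nu : L →+ ℤ) : Prop where
  ne : nu ≠ 0
  nb : nu b = 0
  nT : nu T = 0
  eq : ∀ y : L, co phi i y = 0 → co phi iT y = 0 → nu y ≠ 0 →
    E.coeff y = (e : RO ℤ) * ((eT : RO ℤ) * E.coeff (y + b + T)) ∧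
    (e : RO ℤ) * E.coeff (y + b) + (eT : RO ℤ) * E.coeff (y + T) +
      (e : RO ℤ) * ((eT : RO ℤ) * E.coeff (y + b + T)) = 0

variable {phi : L →+ (P → ℤ)} {E : AO ℤ L} {N : ℕ} {p g f : ℤ[X]} {b T : L} {i iT : P}
  {e eT : (RO ℤ)ˣ} {mu nu : L →+ ℤ}

/-- the coefficients of the double closing. -/
theorem t2_co {hb : co phi i b = 1} {k0 k1 : (RO Eis)ˣ} {et : Eis} (he : Et et)
    {c2 v2 bt2 : Eis[X]} {H : AO Eis (Ker (co phi i))} {T' : Ker (co phi i)}
    (hk0 : (k0 : RO Eis) = LaurentPolynomial.C et * bcR (e : RO ℤ))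
    (hk1 : (k1 : RO Eis) = LaurentPolynomial.C et * bcR (eT : RO ℤ))
    (pd : Pd N phi E b T i iT hb k0 k1 et p g f c2 v2 bt2 H T') (hD : DD phi E)
    (a : Ker (co (phO phi b i) iT)) :
    toLaurent c2 * (cl (co (phO phi b i) iT) T' pd.po k1 H).coeff a =
      bcR (E.coeff ((a : Ker (co phi i)) : L) -
        (e : RO ℤ) * ((eT : RO ℤ) * E.coeff (((a : Ker (co phi i)) : L) + b + T))) +
      LaurentPolynomial.C et * bcR ((e : RO ℤ) * E.coeff (((a : Ker (co phi i)) : L) + b) +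
        (eT : RO ℤ) * E.coeff (((a : Ker (co phi i)) : L) + T) +
        (e : RO ℤ) * ((eT : RO ℤ) * E.coeff (((a : Ker (co phi i)) : L) + b + T))) := by
  have h1 := H47.cl_coeff_bin (co (phO phi b i) iT) T' pd.po k1 H
    (fun x hx => pd.dd.bin x hx iT) a
  have h2 : ∀ x : Ker (co phi i), toLaurent c2 * H.coeff x = bcR (E.coeff (x : L)) +
      LaurentPolynomial.C et * bcR ((e : RO ℤ) * E.coeff ((x : L) + b)) := by
    intro x
    rw [← eta_co hk0 hb hD, pd.eq, H78.cstm]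
  have h3 := h2 (a : Ker (co phi i))
  have h4 := h2 ((a : Ker (co phi i)) + T')
  rw [Submodule.coe_add, pd.eqT] at h4
  have h5 : ((a : Ker (co phi i)) : L) + T + b = ((a : Ker (co phi i)) : L) + b + T := by abel
  rw [h5] at h4
  have h6 : (LaurentPolynomial.C et * LaurentPolynomial.C et : RO Eis) =
      LaurentPolynomial.C et - 1 := by
    rw [← map_one LaurentPolynomial.C, ← map_sub, ← map_mul]
    congr 1
    linear_combination -et_mul he
  rw [h1, mul_add, ← mul_assoc, mul_comm (toLaurent c2) (k1 : RO Eis), mul_assoc, h3, h4, hk1]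
  simp only [map_sub, map_add, map_mul]
  linear_combination (bcR (eT : RO ℤ) * (bcR (e : RO ℤ) *
    bcR (E.coeff (((a : Ker (co phi i)) : L) + b + T)))) * h6

/-- the double closing is not full. -/
theorem kn_ex (hK : KmuS) {hb : co phi i b = 1} {k0 k1 : (RO Eis)ˣ} {et : Eis} (he : Et et)
    {c2 v2 bt2 : Eis[X]} {H : AO Eis (Ker (co phi i))} {T' : Ker (co phi i)}
    (hk0 : (k0 : RO Eis) = LaurentPolynomial.C et * bcR (e : RO ℤ))
    (hk1 : (k1 : RO Eis) = LaurentPolynomial.C et * bcR (eT : RO ℤ))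
    (pd : Pd N phi E b T i iT hb k0 k1 et p g f c2 v2 bt2 H T') (hD : DD phi E)
    (hbT : co phi iT b = 0)
    (hlt : rk (supp (cl (co (phO phi b i) iT) T' pd.po k1 H)) <
      Module.finrank ℤ (Ker (co (phO phi b i) iT))) :
    ∃ nu, Kn phi E b T i iT e eT nu := by
  obtain ⟨n1, hn1, hk⟩ := hK _ (supp (cl (co (phO phi b i) iT) T' pd.po k1 H)) hlt
  obtain ⟨n2, a1, a2, a3, -⟩ := ext_ker pd.po n1
  obtain ⟨nu, b1, b2, b3, b4⟩ := ext_ker hb n2
  refine ⟨nu, b3 (a3 hn1), b1, ?_, fun y h1 h2 hne => ?_⟩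
  · rw [← pd.eqT, b2, a1]
  · obtain ⟨y1, hy1⟩ : ∃ y1 : Ker (co phi i), y1 = ⟨y, h1⟩ := ⟨_, rfl⟩
    have hy1c : (y1 : L) = y := by rw [hy1]
    have hker : co (phO phi b i) iT y1 = 0 := by
      change (if phi b iT = 0 then phi (y1 : L) iT else 0) = 0
      have h3 : phi b iT = 0 := hbT
      rw [if_pos h3, hy1c]
      exact h2
    obtain ⟨y2, hy2⟩ : ∃ y2 : Ker (co (phO phi b i) iT), y2 = ⟨y1, hker⟩ := ⟨_, rfl⟩
    have hy2c : (y2 : Ker (co phi i)) = y1 := by rw [hy2]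
    have hz : (cl (co (phO phi b i) iT) T' pd.po k1 H).coeff y2 = 0 := by
      by_contra h3
      apply hne
      have h4 := hk y2 h3
      rw [← a2, hy2c, ← b2, hy1c] at h4
      exact h4
    have h3 := t2_co he hk0 hk1 pd hD y2
    rw [hz, mul_zero, hy2c, hy1c] at h3
    obtain ⟨h4, h5⟩ := bcR_et0 he h3.symm
    exact ⟨sub_eq_zero.mp h4, h5⟩

/-- the two patterns. -/
theorem kn_pat (hn : Kn phi E b T i iT e eT nu) (hkw : Kw phi E b i e mu) (hmT : mu T ≠ 0)
    (hTi : co phi i T = 0) {y : L} (h1 : co phi i y = 0) (h2 : co phi iT y = 0)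
    (hne : nu y ≠ 0) :
    (e : RO ℤ) * ((eT : RO ℤ) * E.coeff (y + b + T)) = E.coeff y ∧
    ((mu y = 0 ∧ (e : RO ℤ) * E.coeff (y + b) = 0 ∧ (eT : RO ℤ) * E.coeff (y + T) =
      -E.coeff y) ∨
    (mu y ≠ 0 ∧ (e : RO ℤ) * E.coeff (y + b) = -E.coeff y ∧
      (eT : RO ℤ) * E.coeff (y + T) = 0)) := by
  obtain ⟨h3, h4⟩ := hn.eq y h1 h2 hne
  refine ⟨h3.symm, ?_⟩
  by_cases h5 : mu y = 0
  · left
    have h6 := hkw.2 (y + T) (by rw [map_add, h1, hTi, add_zero])
      (by rw [map_add, h5, zero_add]; exact hmT)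
    have h7 : y + T + b = y + b + T := by abel
    rw [h7] at h6
    refine ⟨h5, ?_, ?_⟩
    · linear_combination h4 - (eT : RO ℤ) * h6
    · linear_combination (eT : RO ℤ) * h6 + h3
  · right
    have h6 := hkw.2 y h1 h5
    refine ⟨h5, by linear_combination h6, ?_⟩
    linear_combination h4 + h3 - h6

/-- THE THIRD RAY. -/
theorem third (hGen : GenS) (hD : DD phi E) (hb : Gl phi E b i e g) (hT : Gl phi E T iT eT f)
    (hdis : ∀ q, phi T q = 0 ∨ phi b q = 0) (hadj : BPR.Adj E b T)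
    (hn : Kn phi E b T i iT e eT nu) (hkw : Kw phi E b i e mu) (hmT : mu T ≠ 0) :
    ∃ R, Ray E R ∧ nu R ≠ 0 ∧ (∀ q, phi R q = 0 ∨ (phi b q = 0 ∧ phi T q = 0)) ∧
      BPR.Adj E b R ∧ BPR.Adj E T R := by
  obtain ⟨hTi, hbT⟩ := port_dis hdis hb.po hT.po
  have hA : ∀ a, a ∈ E.coeff.support ↔ a ∈ supp E := fun a => Finsupp.mem_support_iff
  obtain ⟨a1, ha1, hn1⟩ : ∃ a1 ∈ supp E, nu a1 ≠ 0 := by
    by_contra hcon
    push Not at hcon
    exact hn.ne (BP12.zero_of_supp hD hcon)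
  obtain ⟨l, lb, lT, lp⟩ := hadj
  have hcl : ∀ a ∈ E.coeff.support, nu a ≠ 0 →
      ∃ a' ∈ E.coeff.support, (∀ q, phi a' q = 0 ∨ (phi b q = 0 ∧ phi T q = 0)) ∧
        ∃ i j : ℤ, a = a' + i • b + j • T := by
    intro a ha hna
    rw [hA] at ha
    obtain ⟨y, hy⟩ : ∃ y : L, y = a - co phi i a • b - co phi iT a • T := ⟨_, rfl⟩
    have y1 : co phi i y = 0 := by
      rw [hy, map_sub, map_sub, map_zsmul, map_zsmul, hb.po, hTi]
      simp
    have y2 : co phi iT y = 0 := by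
      rw [hy, map_sub, map_sub, map_zsmul, map_zsmul, hT.po, hbT]
      simp
    have y3 : nu y = nu a := by
      rw [hy, map_sub, map_sub, map_zsmul, map_zsmul, hn.nb, hn.nT]
      simp
    have y4 : a = y + co phi i a • b + co phi iT a • T := by
      rw [hy]
      abel
    obtain ⟨h1, h2⟩ := kn_pat hn hkw hmT hTi y1 y2 (by rw [y3]; exact hna)
    have hys : y ∈ supp E := by
      intro h0
      rw [h0] at h1
      have z3 : E.coeff (y + b + T) = 0 := by
        have h5 := (mul_eq_zero.mp h1).resolve_left e.ne_zero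
        exact (mul_eq_zero.mp h5).resolve_left eT.ne_zero
      have z12 : E.coeff (y + b) = 0 ∧ E.coeff (y + T) = 0 := by
        rcases h2 with ⟨-, h5, h6⟩ | ⟨-, h5, h6⟩
        · rw [h0, neg_zero] at h6
          exact ⟨(mul_eq_zero.mp h5).resolve_left e.ne_zero,
            (mul_eq_zero.mp h6).resolve_left eT.ne_zero⟩
        · rw [h0, neg_zero] at h5
          exact ⟨(mul_eq_zero.mp h5).resolve_left e.ne_zero,
            (mul_eq_zero.mp h6).resolve_left eT.ne_zero⟩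
      apply ha
      have c1 : co phi i a = 0 ∨ co phi i a = 1 := hD.bin a ha i
      have c2 : co phi iT a = 0 ∨ co phi iT a = 1 := hD.bin a ha iT
      rcases c1 with h5 | h5 <;> rcases c2 with h6 | h6 <;> rw [y4, h5, h6]
      · simpa using h0
      · simpa using z12.2
      · simpa using z12.1
      · simpa using z3
    have hDs : y + b + T ∈ supp E := by
      intro h0
      rw [h0, mul_zero, mul_zero] at h1
      exact hys h1.symm
    refine ⟨y, (hA _).mpr hys, fun q => ?_, _, _, y4⟩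
    rcases hD.bin y hys q with h5 | h5
    · exact Or.inl h5
    · right
      have h6 := hD.bin _ hDs q
      rw [map_add, map_add, Pi.add_apply, Pi.add_apply, h5] at h6
      have h7 := hD.bin b hb.ray.1 q
      have h8 := hD.bin T hT.ray.1 q
      omega
  obtain ⟨x, hxA, hxn, hxo, ⟨l1, l1x, l1p⟩, ⟨l2, l2b, l2x, l2p⟩, ⟨l3, l3T, l3x, l3p⟩, -⟩ :=
    BP12.face3 hGen hD.inj E.coeff.support (fun a ha => hD.bin a ((hA a).mp ha))
      ((hA b).mpr hb.ray.1) hb.ray.2.1 ((hA T).mpr hT.ray.1) hT.ray.2.1 hdis lb lT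
      (fun a ha => lp a ((hA a).mp ha)) hn.nb hn.nT hcl ((hA a1).mpr ha1) hn1
  rw [hA] at hxA
  have hx0 : x ≠ 0 := fun h => hxn (by rw [h, map_zero])
  exact ⟨x, ⟨hxA, hx0, l1, l1x, fun a ha => l1p a ((hA a).mpr ha)⟩, hxn, hxo,
    ⟨l2, l2b, l2x, fun a ha => l2p a ((hA a).mpr ha)⟩,
    ⟨l3, l3T, l3x, fun a ha => l3p a ((hA a).mpr ha)⟩⟩

end

end Pool.Agent.B5.BP57
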