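import Pool.Agent.Lib.MP_b5021c_nt.BP.H57.Pzf

/-!
# Board b5, BpS, row PZ: the third ray has a constant coefficient and a full closing (helper57)
-/

namespace Pool.Agent.B5.BP57

open scoped LaurentPolynomial
open Polynomial Pool.Agent.B5 Pool.Agent.B5.BPR
open Pool.Agent.B5.H40 (uT uT_val)
open Pool.Agent.B5.Tl

section

variable {P L : Type} [Fintype P] [DecidableEq P] [AddCommGroup L] [Module.Free ℤ L]
  [Module.Finite ℤ L]

theorem nu_split (nuT : ℤ × L →+ ℤ) (k : ℤ) (a : L) :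
    nuT (k, a) = k * nuT (1, 0) + nuT (0, a) := by
  have : ((k, a) : ℤ × L) = k • ((1 : ℤ), (0 : L)) + (0, a) := by simp
  rw [this, map_add, map_zsmul, smul_eq_mul]

/-- one exponent: a monomial. -/
theorem mono_of_one {F : RO ℤ} (hF : F ≠ 0) (h : ∀ k j : ℤ, F.coeff k ≠ 0 → F.coeff j ≠ 0 → k = j) :
    ∃ (s s0 : ℤ), F = LaurentPolynomial.C s0 * LaurentPolynomial.T s ∧ s0 ≠ 0 ∧
      F.coeff s ≠ 0 := by
  obtain ⟨s, hs⟩ : ∃ s, F.coeff s ≠ 0 := by
    by_contra hcon
    push Not at hcon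
    apply hF
    apply AddMonoidAlgebra.ext
    apply Finsupp.ext
    intro k
    rw [hcon k]
    rfl
  refine ⟨s, F.coeff s, ?_, hs, hs⟩
  apply AddMonoidAlgebra.ext
  apply Finsupp.ext
  intro k
  rw [← LaurentPolynomial.single_eq_C_mul_T, AddMonoidAlgebra.coeff_single, Finsupp.single_apply]
  by_cases hk : s = k
  · rw [if_pos hk, hk]
  · rw [if_neg hk]
    by_contra h1
    exact hk (h s k hs h1)

variable {phi : L →+ (P → ℤ)} {E : AO ℤ L} {N : ℕ} {p g f F : ℤ[X]} {b T R : L} {i iT iR : P}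
  {e eT : (RO ℤ)ˣ} {mu nu : L →+ ℤ} {sb sT : ℤˣ} {mb mT : ℤ} {kk : ℕ} {r : ℤ}
  {nuT : ℤ × L →+ ℤ}

/-- the exponents of the closing at `T`. -/
theorem vt_ex (h0 : P0 N phi E p g f b T iT sb sT mb mT F kk r nuT) (heT : eT = uT sT mT) {y : L}
    (hy : co phi iT y = 0) {k : ℤ}
    (hk : (E.coeff y + (eT : RO ℤ) * E.coeff (y + T)).coeff k ≠ 0) : nuT (k, y) = 0 := by
  by_contra hne
  apply hk
  have h1 := h0.kt.2 (k, y) hy hne
  rw [AddMonoidAlgebra.coeff_add, Finsupp.add_apply, heT, uT_coeff]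
  exact h1

/-- THE COEFFICIENT OF THE THIRD RAY. -/
theorem third_mono (h0 : P0 N phi E p g f b T iT sb sT mb mT F kk r nuT) (he : e = uT sb mb)
    (heT : eT = uT sT mT) (hn : Kn phi E b T i iT e eT nu) (hkw : Kw phi E b i e mu)
    (hmT : mu T ≠ 0) (hTi : co phi i T = 0) (hbT : co phi iT b = 0) (hRs : R ∈ supp E)
    (hRi : co phi i R = 0) (hRT : co phi iT R = 0) (hnR : nu R ≠ 0) :
    ∃ (s s0 : ℤ), E.coeff R = LaurentPolynomial.C s0 * LaurentPolynomial.T s ∧ s0 ≠ 0 ∧
      (mu R = 0 → nuT (s, R) = -nuT (-mb, b)) := by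
  obtain ⟨h1, h2⟩ := kn_pat hn hkw hmT hTi hRi hRT hnR
  have hnz := h0.nz
  by_cases hmR : mu R = 0
  · have h3 : (e : RO ℤ) * E.coeff (R + b) = 0 := by
      rcases h2 with ⟨-, h3, -⟩ | ⟨h3, -, -⟩
      · exact h3
      · exact absurd hmR h3
    have h4 : (e : RO ℤ) * (E.coeff (R + b) + (eT : RO ℤ) * E.coeff (R + b + T)) = E.coeff R := by
      rw [mul_add, h3, zero_add, h1]
    have h5 : ∀ k : ℤ, (E.coeff R).coeff k ≠ 0 → nuT (k, R) = -nuT (-mb, b) := by
      intro k hk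
      rw [← h4, he, uT_coeff] at hk
      have h6 := vt_ex h0 heT (y := R + b) (by rw [map_add, hRT, hbT, add_zero])
        (right_ne_zero_of_mul hk)
      have h7 : ((k - mb, R + b) : ℤ × L) = (k, R) + (-mb, b) := by
        refine Prod.ext ?_ rfl
        change k - mb = k + -mb
        ring
      rw [h7, map_add] at h6
      linear_combination h6
    obtain ⟨s, s0, h6, h7, h8⟩ := mono_of_one (F := E.coeff R) hRs (by
      intro k j hk hj
      have h6 := h5 k hk
      have h7 := h5 j hj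
      rw [nu_split] at h6 h7
      have h8 : k * nuT (1, 0) = j * nuT (1, 0) := by linear_combination h6 - h7
      exact mul_right_cancel₀ hnz h8)
    exact ⟨s, s0, h6, h7, fun _ => h5 s h8⟩
  · have h3 : (eT : RO ℤ) * E.coeff (R + T) = 0 := by
      rcases h2 with ⟨h3, -, -⟩ | ⟨-, -, h3⟩
      · exact absurd h3 hmR
      · exact h3
    have h5 : ∀ k : ℤ, (E.coeff R).coeff k ≠ 0 → nuT (k, R) = 0 := by
      intro k hk
      refine vt_ex h0 heT hRT ?_
      rw [h3, add_zero]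
      exact hk
    obtain ⟨s, s0, h6, h7, h8⟩ := mono_of_one (F := E.coeff R) hRs (by
      intro k j hk hj
      have h6 := h5 k hk
      have h7 := h5 j hj
      rw [nu_split] at h6 h7
      have h8 : k * nuT (1, 0) = j * nuT (1, 0) := by linear_combination h6 - h7
      exact mul_right_cancel₀ hnz h8)
    exact ⟨s, s0, h6, h7, fun h => absurd h hmR⟩

/-- the load of the third ray. -/
theorem third_gl (hray : Ray E R) {s s0 : ℤ}
    (hE : E.coeff R = LaurentPolynomial.C s0 * LaurentPolynomial.T s) (hs0 : s0 ≠ 0)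
    (hiR : co phi iR R = 1) :
    ∃ (sR : ℤˣ) (m : ℤ), 1 ≤ m ∧ Gl phi E R iR (uT sR (-s)) (C m) := by
  have key : ∀ sR : ℤˣ, ((uT sR (-s) : (RO ℤ)ˣ) : RO ℤ) * E.coeff R =
      LaurentPolynomial.C ((sR : ℤ) * s0) := by
    intro sR
    rw [hE, uT_val, map_mul]
    have h1 : (LaurentPolynomial.T (-s) * LaurentPolynomial.T s : RO ℤ) = 1 := by
      rw [← LaurentPolynomial.T_add, neg_add_cancel, LaurentPolynomial.T_zero]
    linear_combination (LaurentPolynomial.C (sR : ℤ) * LaurentPolynomial.C s0) * h1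
  rcases lt_or_gt_of_ne hs0 with h | h
  · refine ⟨1, -s0, by omega, hray, hiR, ?_, ?_⟩
    · rw [key, Units.val_one, one_mul, toLaurent_C, map_neg, neg_neg]
    · rw [coeff_C_zero]
      omega
  · refine ⟨-1, s0, by omega, hray, hiR, ?_, ?_⟩
    · rw [key, toLaurent_C, ← map_neg]
      congr 1
      push_cast
      ring
    · rw [coeff_C_zero]
      omega

/-- a constant coefficient is not that of `b` or `T`. -/
theorem const_ne {m : ℤ} {q : ℤ[X]} (hq0 : q.coeff 0 = 1) (hq1 : q ≠ 1) : q ≠ C m := by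
  intro h
  apply hq1
  rw [h] at hq0
  rw [coeff_C_zero] at hq0
  rw [h, hq0, C_1]

/-- THE CLOSING AT THE THIRD RAY IS FULL. -/
theorem third_full (h0 : P0 N phi E p g f b T iT sb sT mb mT F kk r nuT) (he : e = uT sb mb)
    (heT : eT = uT sT mT) (hD : DD phi E) (hb : Gl phi E b i e g) (hT : Gl phi E T iT eT f)
    (hf0 : f.coeff 0 = 1) (hf1 : f ≠ 1) (hg0 : g.coeff 0 = 1) (hg1 : g ≠ 1) (hr : r ≠ 0)
    (hn : Kn phi E b T i iT e eT nu) (hkw : Kw phi E b i e mu) (hmT : mu T ≠ 0)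
    (hTi : co phi i T = 0) (hbT : co phi iT b = 0) (hRs : R ∈ supp E)
    (hRo : ∀ q, phi R q = 0 ∨ (phi b q = 0 ∧ phi T q = 0)) (hnR : nu R ≠ 0)
    (hfullT : ∀ nu : L →+ ℤ, Kw phi E T iT eT nu → nu = 0) {sR : ℤˣ} {m s : ℤ}
    (hR : Gl phi E R iR (uT sR (-s)) (C m)) (hs : mu R = 0 → nuT (s, R) = -nuT (-mb, b))
    {muR : L →+ ℤ} (hkR : Kw phi E R iR (uT sR (-s)) muR) : muR = 0 := by
  have hRR : phi R iR = 1 := hR.po
  have hRb : co phi iR b = 0 ∧ co phi iR T = 0 := by
    rcases hRo iR with h1 | h1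
    · rw [hRR] at h1; exact absurd h1 one_ne_zero
    · exact h1
  have hRi : co phi i R = 0 := by
    rcases hRo i with h1 | h1
    · exact h1
    · have h2 : phi b i = 1 := hb.po
      rw [h2] at h1
      exact absurd h1.1 one_ne_zero
  have hRT : co phi iT R = 0 := by
    rcases hRo iT with h1 | h1
    · exact h1
    · have h2 : phi T iT = 1 := hT.po
      rw [h2] at h1
      exact absurd h1.2 one_ne_zero
  obtain ⟨h1, h2⟩ := kn_pat hn hkw hmT hTi hRi hRT hnR
  obtain ⟨eR, heR⟩ : ∃ eR : (RO ℤ)ˣ, eR = uT sR (-s) := ⟨_, rfl⟩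
  have hR' := hR.eq
  rw [← heR] at hR'
  have hkR' := hkR
  rw [← heR] at hkR'
  -- `muR T = 0`
  have hRTz : muR T = 0 := by
    by_contra hne
    have h3 := hkR'.2 T hRb.2 hne
    have h4 : (eR : RO ℤ) * ((eT : RO ℤ) * E.coeff (R + T)) = toLaurent f := by
      have h5 : T + R = R + T := add_comm _ _
      rw [h5] at h3
      linear_combination (eT : RO ℤ) * h3 - hT.eq
    rcases h2 with ⟨-, -, h5⟩ | ⟨-, -, h5⟩
    · rw [h5] at h4
      have h6 : toLaurent f = toLaurent (C m) := by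
        rw [← h4]
        linear_combination -hR'
      exact const_ne hf0 hf1 (toLaurent_injective h6)
    · rw [h5, mul_zero] at h4
      have h6 := toLaurent_injective ((map_zero _).trans h4)
      rw [← h6, coeff_zero] at hf0
      exact zero_ne_one hf0
  have hRbz : muR b = 0 := by
    by_contra hne
    have h3 := hkR'.2 b hRb.1 hne
    have h4 : (eR : RO ℤ) * ((e : RO ℤ) * E.coeff (R + b)) = toLaurent g := by
      have h5 : b + R = R + b := add_comm _ _
      rw [h5] at h3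
      linear_combination (e : RO ℤ) * h3 - hb.eq
    rcases h2 with ⟨-, h5, -⟩ | ⟨-, h5, -⟩
    · rw [h5, mul_zero] at h4
      have h6 := toLaurent_injective ((map_zero _).trans h4)
      rw [← h6, coeff_zero] at hg0
      exact zero_ne_one hg0
    · rw [h5] at h4
      have h6 : toLaurent g = toLaurent (C m) := by
        rw [← h4]
        linear_combination -hR'
      exact const_ne hg0 hg1 (toLaurent_injective h6)
  have biT : Tot.Bi (pr (co phi iT)) (tc E) := bi_of (co phi iT) E fun a ha => hD.bin a ha iT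
  have bii : Tot.Bi (pr (co phi i)) (tc E) := bi_of (co phi i) E fun a ha => hD.bin a ha i
  have biR : Tot.Bi (pr (co phi iR)) (tc E) := bi_of (co phi iR) E fun a ha => hD.bin a ha iR
  have hktR : Tot.KT (pr (co phi iR)) (-(-s), R) (sR : ℤ) (tc E) (pr muR) :=
    (BP80.kw_kt (co phi iR) R sR (-s) E muR).mp hkR
  have fin : Tot.KT (pr (co phi iT)) (-mT, T) (sT : ℤ) (tc E) (pr muR) → muR = 0 := by
    intro h3
    apply hfullT
    rw [heT]
    exact (BP80.kw_kt (co phi iT) T sT mT E muR).mpr h3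
  by_cases hmR : mu R = 0
  · apply fin
    refine Tot.inc (p := pr (co phi iT)) (q := pr (co phi iR)) (b := (-mT, T)) (T := (-(-s), R))
      biR hRT hRb.2 hR.po sR.ne_zero h0.kt ?_ hktR hRTz
    rw [neg_neg, hs hmR]
    exact neg_ne_zero.mpr (h0.nb hr)
  · -- `muR` kills the closing at `b`
    have h3 : Kw phi E b i e muR :=
      Tot.inc (p := co phi i) (q := co phi iR) (b := b) (T := R) (fun x hx => hD.bin x hx iR) hRi
        hRb.1 hR.po eR.ne_zero hkw hmR hkR' hRbz
    have h4 : Tot.KT (pr (co phi i)) (-mb, b) (sb : ℤ) (tc E) (pr muR) := by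
      rw [he] at h3
      exact (BP80.kw_kt (co phi i) b sb mb E muR).mp h3
    apply fin
    exact Tot.inc (p := pr (co phi iT)) (q := pr (co phi i)) (b := (-mT, T)) (T := (-mb, b))
      bii hbT hTi hb.po sb.ne_zero h0.kt (h0.nb hr) h4 hRTz

/-- two polynomials `N - m + F` and `1 - m + F` are not associated. -/
theorem assoc_no (hU : UnitRS) {m : ℤ} (hN : 3 ≤ N) (hm : 1 ≤ m) (hmN : m < N)
    (hF0 : F.coeff 0 = 0) (hFn : F ≠ 0) {u : (RO ℤ)ˣ}
    (h : toLaurent (C ((N : ℤ) - m) + F) = (u : RO ℤ) * toLaurent (C (1 - m) + F)) : False := by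
  obtain ⟨v, k, rfl⟩ := unit_uT hU u
  rw [uT_val] at h
  have hv : (v : ℤ) = 1 ∨ (v : ℤ) = -1 := by
    rcases Int.units_eq_one_or v with h1 | h1 <;> rw [h1]
    · left; rfl
    · right; rfl
  have hv0 : (v : ℤ) ≠ 0 := v.ne_zero
  have ha0 : (C ((N : ℤ) - m) + F).coeff 0 ≠ 0 := by
    rw [coeff_add, coeff_C_zero, hF0]
    omega
  by_cases hm1 : m = 1
  · -- `1 - m = 0`
    subst hm1
    have hFd : ∃ (t : ℕ) (F' : ℤ[X]), F = X ^ t * F' ∧ F'.coeff 0 ≠ 0 := by
      obtain ⟨t, F', h1, h2⟩ : ∃ (t : ℕ) (F' : ℤ[X]), F = X ^ t * F' ∧ ¬ X ∣ F' := by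
        obtain ⟨q, hq1, hq2⟩ := Polynomial.exists_eq_pow_rootMultiplicity_mul_and_not_dvd F hFn 0
        rw [C_0, sub_zero] at hq1 hq2
        exact ⟨_, q, hq1, hq2⟩
      exact ⟨t, F', h1, fun h3 => h2 (X_dvd_iff.mpr h3)⟩
    obtain ⟨t, F', hF', hF'0⟩ := hFd
    have ht : t ≠ 0 := by
      intro h1
      rw [h1, pow_zero, one_mul] at hF'
      rw [hF'] at hF0
      exact hF'0 hF0
    have h1 : (LaurentPolynomial.T 0 : RO ℤ) * toLaurent (C ((N : ℤ) - 1) + F) =
        LaurentPolynomial.T (k + t) * toLaurent (C (v : ℤ) * F') := by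
      rw [LaurentPolynomial.T_zero, one_mul, h, sub_self, C_0, zero_add]
      conv_lhs => rw [hF']
      rw [map_mul, map_mul, toLaurent_C, toLaurent_X_pow, LaurentPolynomial.T_add]
      ring
    obtain ⟨-, h2⟩ := H09.nf_unique _ _ _ _ ha0 (by
      rw [coeff_C_mul]; exact mul_ne_zero hv0 hF'0) h1
    have h3 := congrArg natDegree h2
    rw [natDegree_C_add, natDegree_C_mul hv0] at h3
    have hF'n : F' ≠ 0 := by
      rintro rfl
      exact hF'0 (coeff_zero 0)
    have h4 : F.natDegree = t + F'.natDegree := by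
      rw [hF', natDegree_mul (pow_ne_zero _ X_ne_zero) hF'n, natDegree_X_pow]
    omega
  · have hb0 : (C (v : ℤ) * (C (1 - m) + F)).coeff 0 ≠ 0 := by
      rw [coeff_C_mul, coeff_add, coeff_C_zero, hF0]
      exact mul_ne_zero hv0 (by omega)
    have h1 : (LaurentPolynomial.T 0 : RO ℤ) * toLaurent (C ((N : ℤ) - m) + F) =
        LaurentPolynomial.T k * toLaurent (C (v : ℤ) * (C (1 - m) + F)) := by
      rw [LaurentPolynomial.T_zero, one_mul, h, map_mul (toLaurent (R := ℤ)) (C (v : ℤ)),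
        toLaurent_C]
      ring
    obtain ⟨-, h2⟩ := H09.nf_unique _ _ _ _ ha0 hb0 h1
    rcases hv with h3 | h3
    · have h4 := congrArg (fun q : ℤ[X] => q.coeff 0) h2
      simp only [h3, C_1, one_mul, coeff_add, coeff_C_zero, hF0] at h4
      omega
    · apply hFn
      ext j
      rw [coeff_zero]
      by_cases hj : j = 0
      · rw [hj, hF0]
      · have h4 := congrArg (fun q : ℤ[X] => q.coeff j) h2
        simp only [h3, coeff_add, coeff_C_mul, coeff_C, if_neg hj] at h4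
        omega

end

end Pool.Agent.B5.BP57
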