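import Mathlib

/-!
# Board b5, BpS: one variable (Schwarz lemma with an extremal coefficient)
-/

namespace Pool.Agent.B5.BP57

open Polynomial Complex

/-- two polynomials which agree on the open disc. -/
theorem eq_of_ball {p q : ℂ[X]} (h : ∀ z : ℂ, ‖z‖ < 1 → p.eval z = q.eval z) : p = q := by
  rw [← sub_eq_zero]
  apply Polynomial.eq_zero_of_infinite_isRoot
  refine Set.Infinite.mono (s := Metric.ball (0 : ℂ) 1) ?_ ?_
  · intro z hz
    have hz' : ‖z‖ < 1 := by simpa using hz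
    rw [Set.mem_ofPred_eq, Polynomial.IsRoot.def, eval_sub, h z hz', sub_self]
  · have h3 : (nhds (0 : ℂ)).NeBot := inferInstance
    exact infinite_of_mem_nhds (0 : ℂ) (Metric.ball_mem_nhds 0 one_pos)

/-- `|X^d a'| ≤ |b|` in the disc, `b` zero-free, `|b(0)| ≤ |a'(0)|`: `a'` is a multiple of `b`. -/
theorem schwarz_poly {a' b : ℂ[X]} {d : ℕ} (hb : ∀ z : ℂ, ‖z‖ < 1 → b.eval z ≠ 0)
    (hab : ∀ z : ℂ, ‖z‖ < 1 → ‖(X ^ d * a').eval z‖ ≤ ‖b.eval z‖)
    (h0 : ‖b.eval 0‖ ≤ ‖a'.eval 0‖) : a' = C (a'.eval 0 / b.eval 0) * b := by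
  set g : ℂ → ℂ := fun z => a'.eval z / b.eval z with hg
  have hd : DifferentiableOn ℂ g (Metric.ball 0 1) := by
    intro w hw
    have hw' : ‖w‖ < 1 := by simpa using hw
    exact (a'.differentiable.differentiableAt.div b.differentiable.differentiableAt
      (hb w hw')).differentiableWithinAt
  have hle : ∀ z : ℂ, ‖z‖ < 1 → ‖g z‖ ≤ 1 := by
    intro z hz
    by_contra hcon
    push Not at hcon
    -- choose a radius
    have hev : ∀ᶠ ρ : ℝ in nhdsWithin 1 (Set.Iio 1), ‖z‖ < ρ ∧ 0 < ρ ∧ (ρ ^ d)⁻¹ < ‖g z‖ := by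
      have h1 : Filter.Tendsto (fun ρ : ℝ => (ρ ^ d)⁻¹) (nhdsWithin 1 (Set.Iio 1)) (nhds 1) := by
        have h2 : ContinuousAt (fun ρ : ℝ => (ρ ^ d)⁻¹) 1 := by
          apply ContinuousAt.inv₀
          · exact (continuous_pow d).continuousAt
          · simp
        have h3 := h2.tendsto
        simp only [one_pow, inv_one] at h3
        exact h3.mono_left nhdsWithin_le_nhds
      have h4 := h1.eventually (gt_mem_nhds hcon)
      have h5 : ∀ᶠ ρ : ℝ in nhdsWithin 1 (Set.Iio 1), ‖z‖ < ρ :=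
        (lt_mem_nhds hz).filter_mono nhdsWithin_le_nhds
      filter_upwards [h4, h5] with ρ h6 h7
      exact ⟨h7, lt_of_le_of_lt (norm_nonneg z) h7, h6⟩
    obtain ⟨ρ, ⟨hzρ, hρ0, hρ⟩, hρ1⟩ := (hev.and self_mem_nhdsWithin).exists
    have hρ1' : ρ < 1 := hρ1
    have hdc : DiffContOnCl ℂ g (Metric.ball 0 ρ) := by
      apply DifferentiableOn.diffContOnCl
      refine hd.mono ?_
      rw [closure_ball (0 : ℂ) hρ0.ne']
      exact Metric.closedBall_subset_ball hρ1'
    have h6 := Complex.norm_le_of_forall_mem_frontier_norm_le Metric.isBounded_ball hdc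
      (C := (ρ ^ d)⁻¹) (z := z) (by
        intro w hw
        rw [frontier_ball (0 : ℂ) hρ0.ne'] at hw
        have hw1 : ‖w‖ = ρ := by simpa using hw
        have hw2 : ‖w‖ < 1 := by rw [hw1]; exact hρ1'
        have h7 := hab w hw2
        rw [eval_mul, eval_pow, eval_X, norm_mul, norm_pow, hw1] at h7
        have h8 : 0 < ‖b.eval w‖ := norm_pos_iff.2 (hb w hw2)
        have h9 : 0 < ρ ^ d := pow_pos hρ0 d
        rw [hg]
        simp only [norm_div]
        rw [div_le_iff₀ h8, ← div_eq_inv_mul, le_div_iff₀ h9, mul_comm]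
        exact h7) (subset_closure (by simpa using hzρ))
    linarith
  have hg0 : 1 ≤ ‖g 0‖ := by
    have h8 : 0 < ‖b.eval 0‖ := norm_pos_iff.2 (hb 0 (by simp))
    rw [hg]
    simp only [norm_div]
    rwa [le_div_iff₀ h8, one_mul]
  have hmax : IsMaxOn (norm ∘ g) (Metric.ball (0 : ℂ) 1) 0 := by
    intro z hz
    have hz' : ‖z‖ < 1 := by simpa using hz
    exact (hle z hz').trans hg0
  have hconst := Complex.eqOn_of_isPreconnected_of_isMaxOn_norm
    (convex_ball (0 : ℂ) 1).isPreconnected Metric.isOpen_ball hd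
    (Metric.mem_ball_self one_pos) hmax
  apply eq_of_ball
  intro z hz
  have h1 : g z = g 0 := hconst (by simpa using hz)
  rw [hg] at h1
  simp only at h1
  rw [eval_mul, eval_C, ← h1, div_mul_cancel₀ _ (hb z hz)]

end Pool.Agent.B5.BP57
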