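import Pool.Agent.Lib.MP_b5021c_nt.BP.H57.Sch
import Pool.Agent.Lib.MP_b5021c_nt.E.H67.Trvo
import Pool.Agent.Lib.MP_b5021c_nt.B.H05.Pmf
import Pool.Agent.Lib.MP_b5021c_nt.B.H09.E2Psz
import Pool.Agent.Lib.MP_b5021c_nt.E1.Lin

/-!
# Board b5, BpS: closings into class `V(1)` with the maximal rank (row V1)
-/

namespace Pool.Agent.B5.BP57

open scoped LaurentPolynomial Topology
open Polynomial Pool.Agent.B5

/-- (V1) a load into class `V(1)` (`v(0) = 1`), `rank = 2 Re q(0) - 1`. -/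
def V1S : Prop := ∀ (O : Type) [CommRing O] [IsDomain O] [IsPrincipalIdealRing O] [Coef O]
  (P L : Type) [Fintype P] [DecidableEq P] [AddCommGroup L] [Module.Free ℤ L]
  [Module.Finite ℤ L] (phi : L →+ (P → ℤ)) (D : AO O L) (S : L) (eta : (RO O)ˣ) (m : ℤ)
  (q v : O[X]),
    DD phi D → 2 ≤ Module.finrank ℤ L → Ray D S →
    D.coeff 0 = LaurentPolynomial.T m * toLaurent q →
    D.coeff 0 + (eta : RO O) * D.coeff S = LaurentPolynomial.T m * toLaurent v →
    ZF (q.map Coef.emb) → ZF (v.map Coef.emb) → v.coeff 0 = 1 →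
    2 * (Coef.emb (q.coeff 0) : ℂ).re = Module.finrank ℤ L + 1 →
      v = 1 ∨ ∃ (d : ℕ) (u : O), 1 ≤ d ∧ ‖(Coef.emb u : ℂ)‖ = 1 ∧ v = 1 - C u * X ^ d ∧
        q = C (q.coeff 0) - C ((q.coeff 0 - 1) * u) * X ^ d

/-- (V1Z) the same over `ℤ`, with the form of `q` for `v = 1`. -/
def V1zS : Prop := ∀ (P L : Type) [Fintype P] [DecidableEq P] [AddCommGroup L] [Module.Free ℤ L]
  [Module.Finite ℤ L] (phi : L →+ (P → ℤ)) (D : AO ℤ L) (S : L) (eta : (RO ℤ)ˣ) (m : ℤ)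
  (q v : ℤ[X]) (N : ℕ),
    DD phi D → 2 ≤ Module.finrank ℤ L → Ray D S →
    D.coeff 0 = LaurentPolynomial.T m * toLaurent q →
    D.coeff 0 + (eta : RO ℤ) * D.coeff S = LaurentPolynomial.T m * toLaurent v →
    ZF (q.map Coef.emb) → ZF (v.map Coef.emb) → v.coeff 0 = 1 → q.coeff 0 = N →
    Module.finrank ℤ L + 1 = 2 * N →
      (v = 1 ∧ q = C (N : ℤ)) ∨
      ∃ (d : ℕ) (u : ℤ), 1 ≤ d ∧ (u = 1 ∨ u = -1) ∧
        ((v = 1 ∧ q = C (N : ℤ) + C u * X ^ d) ∨
          (v = 1 - C u * X ^ d ∧ q = C (N : ℤ) - C (((N : ℤ) - 1) * u) * X ^ d))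

section

variable {O : Type} [CommRing O] [IsDomain O] [IsPrincipalIdealRing O] [Coef O]

omit [IsDomain O] [IsPrincipalIdealRing O] in
/-- real elements are integers. -/
theorem real_int (x : O) (h : (Coef.emb x : ℂ).im = 0) : ∃ n : ℤ, x = (n : O) := by
  refine ⟨round (Coef.emb x : ℂ).re, ?_⟩
  by_contra hne
  have h1 := Coef.one_le _ (sub_ne_zero.2 hne)
  rw [map_sub, map_intCast] at h1
  have h2 : (Coef.emb x : ℂ) - ((round (Coef.emb x : ℂ).re : ℤ) : ℂ) =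
      (((Coef.emb x : ℂ).re - round (Coef.emb x : ℂ).re : ℝ) : ℂ) := by
    apply Complex.ext
    · simp
    · simp [h]
  rw [h2, Complex.norm_real, Real.norm_eq_abs] at h1
  have h3 := abs_sub_round (Coef.emb x : ℂ).re
  linarith

omit [IsDomain O] [IsPrincipalIdealRing O] in
/-- a self-adjoint element of `RO O` has an integral constant coefficient. -/
theorem self_int {p : RO O} (hp : rsh p = p) : ∃ n : ℤ, p.coeff 0 = (n : O) := by
  apply real_int
  have h1 := H05.rsh_coeff p 0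
  rw [hp, neg_zero] at h1
  have h2 := Coef.emb_conj (p.coeff 0)
  rw [← h1] at h2
  have h3 := congrArg Complex.im h2
  rw [Complex.conj_im] at h3
  linarith

/-- a polynomial with `p(0) = 1` without zeros in the closed disc. -/
theorem one_of_zf (hU : UnitRS) (hM1 : M1S) (hMV : MVS) {p : O[X]} (h0 : p.coeff 0 = 1)
    (h : ∀ z : ℂ, ‖z‖ ≤ 1 → (p.map (Coef.emb : O →+* ℂ)).eval z ≠ 0) : p = 1 := by
  have hne : p ≠ 0 := by
    rintro rfl
    rw [coeff_zero] at h0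
    exact zero_ne_one h0
  have hcl : ClassV 1 (toLaurent p : RO O) := by
    refine ⟨le_rfl, 0, p, ?_, ?_, fun z hz => h z hz.le⟩
    · rw [LaurentPolynomial.T_zero, one_mul]
    · rw [h0, map_one, norm_one]
  have hu : IsUnit (toLaurent p : RO O) := by
    apply hM1 O _ (toLaurent_ne_zero.2 hne) ((hMV O).1 _ _ hcl).2
    intro z hz
    rw [H07.evR_toLaurent] at hz
    exact h (z : ℂ) (Circle.norm_coe z).le hz
  obtain ⟨n, u, hu1, h1⟩ := (hU O _).mp hu
  have h2 : (LaurentPolynomial.T 0 : RO O) * toLaurent p =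
      LaurentPolynomial.T n * toLaurent (C u) := by
    rw [LaurentPolynomial.T_zero, one_mul, h1, toLaurent_C, mul_comm]
  have hu0 : u ≠ 0 := hu1.ne_zero
  obtain ⟨-, h3⟩ := H09.nf_unique 0 n p (C u) (by rw [h0]; exact one_ne_zero)
    (by rwa [coeff_C_zero]) h2
  rw [h3, coeff_C_zero] at h0
  rw [h3, h0, C_1]

/-- The data of a load into class `V(1)`. -/
structure MassD (O : Type) [CommRing O] [Coef O] (rL : ℕ) (q v : O[X]) (L : Type)
    [AddCommGroup L] [Module.Free ℤ L] [Module.Finite ℤ L] (n : ℕ)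
    (f : Fin n → (L →+ ℤ)) (T : ∀ i, AO O (Ker (f i))) (r : ℂ[X]) : Prop where
  T0 : ∀ i, T i ≠ 0
  Tn : ∀ i, Npos (T i)
  rank : rL ≤ 1 + ∑ i, (1 + rk (supp (T i)))
  r0 : r.coeff 0 = (Coef.emb ((∑ i, (T i).coeff 0).coeff 0) : ℂ)
  rn : ∀ k : ℕ, r.coeff (k + 1) = 2 * Coef.emb ((∑ i, (T i).coeff 0).coeff ((k : ℤ) + 1))
  pm : ∀ a : ℂ, ‖a‖ < 1 → ∑ i, pmn a ((T i).coeff 0) = (r.eval a).re
  le : ∀ a : ℂ, ‖a‖ < 1 → (r.eval a).re ≤
    2 * ((q.map (Coef.emb : O →+* ℂ)).eval a / (v.map (Coef.emb : O →+* ℂ)).eval a).re - 1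
  lt : (∃ z0 : ℂ, ‖z0‖ = 1 ∧ (v.map (Coef.emb : O →+* ℂ)).eval z0 = 0) →
    (r.eval 0).re <
      2 * ((q.map (Coef.emb : O →+* ℂ)).eval 0 / (v.map (Coef.emb : O →+* ℂ)).eval 0).re - 1
  eq : ∀ z : ℂ, ‖z‖ = 1 → (v.map (Coef.emb : O →+* ℂ)).eval z ≠ 0 → (r.eval z).re =
    2 * ((q.map (Coef.emb : O →+* ℂ)).eval z / (v.map (Coef.emb : O →+* ℂ)).eval z).re - 1
  qn : ∀ z : ℂ, ‖z‖ ≤ 1 → (q.map (Coef.emb : O →+* ℂ)).eval z ≠ 0
  vn : ∀ z : ℂ, ‖z‖ < 1 → (v.map (Coef.emb : O →+* ℂ)).eval z ≠ 0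

theorem massD (hTrg : TrgS) (hPai : PaiS) (hPav : PavS) (hHar : HarS) (hPmf : PmfS)
    (hE2 : E2S) (hEv : EvRS) {P L : Type} [Fintype P] [DecidableEq P] [AddCommGroup L]
    [Module.Free ℤ L] [Module.Finite ℤ L] {phi : L →+ (P → ℤ)} {D : AO O L} {S : L}
    {eta : (RO O)ˣ} {m : ℤ} {q v : O[X]} (hDD : DD phi D) (hrk : 2 ≤ Module.finrank ℤ L)
    (hS : Ray D S) (hq : D.coeff 0 = LaurentPolynomial.T m * toLaurent q)
    (hv : D.coeff 0 + (eta : RO O) * D.coeff S = LaurentPolynomial.T m * toLaurent v)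
    (hqz : ZF (q.map Coef.emb)) (hvz : ZF (v.map Coef.emb)) (hv0 : v.coeff 0 = 1) :
    ∃ (i0 : P) (n : ℕ) (f : Fin n → (Ker (co phi i0) →+ ℤ)) (T : ∀ i, AO O (Ker (f i)))
      (r : ℂ[X]), MassD O (Module.finrank ℤ L) q v (Ker (co phi i0)) n f T r := by
  obtain ⟨hEv1, hEv2, hEv3, hEv4⟩ := hEv O
  obtain ⟨hQ0, -, -, -, -, hray⟩ := hE2 O P L phi D hDD hrk
  obtain ⟨hle, -⟩ := hray S hS
  set Q : RO O := D.coeff 0 with hQ
  set V : RO O := D.coeff 0 + (eta : RO O) * D.coeff S with hV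
  set qc : ℂ[X] := q.map Coef.emb with hqc
  set vc : ℂ[X] := v.map Coef.emb with hvc
  have evq : ∀ z : Circle, evR z Q = (z : ℂ) ^ m * qc.eval (z : ℂ) := fun z => by
    rw [hq, map_mul, H07.evR_T, H07.evR_toLaurent, hqc, eval_map]
  have evv : ∀ z : Circle, evR z V = (z : ℂ) ^ m * vc.eval (z : ℂ) := fun z => by
    rw [hv, map_mul, H07.evR_T, H07.evR_toLaurent, hvc, eval_map]
  have hzm : ∀ z : Circle, ‖(z : ℂ) ^ m‖ = 1 := fun z => by simp
  have hzm0 : ∀ z : Circle, (z : ℂ) ^ m ≠ 0 := fun z => by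
    rw [← norm_pos_iff, hzm]; norm_num
  have mk : ∀ z : ℂ, ‖z‖ = 1 → ∃ w : Circle, (w : ℂ) = z := fun z hz =>
    ⟨⟨z, by simpa [Submonoid.unitSphere] using hz⟩, rfl⟩
  have hqn : ∀ z : ℂ, ‖z‖ ≤ 1 → qc.eval z ≠ 0 := by
    intro z hz
    rcases hz.lt_or_eq with h | h
    · exact hqz z h
    · obtain ⟨w, rfl⟩ := mk z h
      intro h0
      exact hQ0 w (by rw [evq, h0, mul_zero])
  have hlq : ∀ z : ℂ, ‖z‖ = 1 → ‖vc.eval z - qc.eval z‖ ≤ ‖qc.eval z‖ := by
    intro z hz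
    obtain ⟨w, rfl⟩ := mk z hz
    have h1 : V - Q = (eta : RO O) * D.coeff S := by rw [hV, hQ]; ring
    have h2 : ‖evR w (V - Q)‖ ≤ ‖evR w Q‖ := by
      rw [h1, map_mul, norm_mul, hEv2 w _ eta.isUnit, one_mul]
      exact hle w
    rw [map_sub, evq, evv, ← mul_sub, norm_mul, norm_mul, hzm, one_mul, one_mul] at h2
    exact h2
  have hv1 : ‖(Coef.emb (v.coeff 0) : ℂ)‖ = 1 := by rw [hv0, map_one, norm_one]
  have hCV : ClassV 1 V := ⟨le_rfl, m, v, hv, hv1, hvz⟩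
  have hquot : ∀ z : ℂ, ‖z‖ = 1 → evL z Q / evL z V = qc.eval z / vc.eval z := by
    intro z hz
    obtain ⟨w, rfl⟩ := mk z hz
    rw [hEv1, hEv1, evq, evv, mul_div_mul_left _ _ (hzm0 w)]
  have hci : CircleIntegrable (fun z => (evL z Q / evL z V).re) 0 1 := by
    refine (circleIntegrable_congr fun z hz => ?_).mpr (hPai qc vc hqn hvz hlq)
    have hz1 : ‖z‖ = 1 := by simpa using hz
    simp only [hquot z hz1]
  obtain ⟨i0, n, f, T, hT0, hTn, hrank, hsum⟩ := hTrg O P L phi D S eta hDD hrk hS hCV hci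
  have hrs : rsh (∑ i, (T i).coeff 0) = ∑ i, (T i).coeff 0 := by
    rw [map_sum]
    exact Finset.sum_congr rfl fun i _ => H65.rsh_coeff0 (T i) (hTn i).1
  obtain ⟨r, hr0, hr1, -, hrn⟩ := hPmf O (∑ i, (T i).coeff 0) 0 (by norm_num) hrs
  have hpm : ∀ a : ℂ, ‖a‖ < 1 → pmn a (∑ i, (T i).coeff 0) = (r.eval a).re := by
    intro a ha
    obtain ⟨r', hr0', -, hr2', hrn'⟩ := hPmf O (∑ i, (T i).coeff 0) a ha hrs
    have h1 : r' = r := by
      ext k
      rcases k with _ | k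
      · rw [hr0, hr0']
      · rw [hrn, hrn']
    rw [hr2', h1]
  have hr : ∀ z : ℂ, ‖z‖ = 1 → vc.eval z ≠ 0 →
      (r.eval z).re = 2 * (qc.eval z / vc.eval z).re - 1 := by
    intro z hz hvz0
    obtain ⟨w, rfl⟩ := mk z hz
    have hV0 : evR w V ≠ 0 := by
      rw [evv]; exact mul_ne_zero (hzm0 w) hvz0
    have h1 := hsum w hV0
    rw [hr1 w] at h1
    rw [h1, evq, evv, mul_div_mul_left _ _ (hzm0 w)]
  have hz := H67.pavz hPav hHar
  refine ⟨i0, n, f, T, r, hT0, hTn, hrank, hr0, hrn, fun a ha => ?_, fun a ha => ?_, fun h => ?_,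
    hr, hqn, hvz⟩
  · rw [← H65.pmn_sum hEv1 a ha, hpm a ha]
  · exact hPav qc vc r a hqn hvz hlq ha hr
  · exact (hz qc vc r 0 hqn hvz hlq (by norm_num) hr).2.2 h

theorem nrm_le {s : ℂ} (h : -1 ≤ 2 * s.re) : ‖s‖ ≤ ‖s + 1‖ := by
  rw [← sq_le_sq₀ (norm_nonneg _) (norm_nonneg _), ← Complex.normSq_eq_norm_sq,
    ← Complex.normSq_eq_norm_sq, Complex.normSq_apply, Complex.normSq_apply]
  simp only [Complex.add_re, Complex.add_im, Complex.one_re, Complex.one_im, add_zero]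
  nlinarith

/-- The conclusions of V1. -/
theorem v1 (hTrg : TrgS) (hPai : PaiS) (hPav : PavS) (hHar : HarS) (hPmf : PmfS)
    (hSnt : SntS) (hE2 : E2S) (hEv : EvRS) (hU : UnitRS) (hM1 : M1S) (hMV : MVS) : V1S := by
  intro O _ _ _ _ P L _ _ _ _ _ phi D S eta m q v hDD hrk hS hq hv hqz hvz hv0 hre
  obtain ⟨i0, n, f, T, r, h⟩ := massD hTrg hPai hPav hHar hPmf hE2 hEv hDD hrk hS hq hv hqz hvz hv0
  set qc : ℂ[X] := q.map (Coef.emb : O →+* ℂ) with hqc
  set vc : ℂ[X] := v.map (Coef.emb : O →+* ℂ) with hvc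
  have hqc0 : qc.eval 0 = (Coef.emb (q.coeff 0) : ℂ) := by
    rw [← coeff_zero_eq_eval_zero, hqc, coeff_map]
  have hvc0 : vc.eval 0 = 1 := by
    rw [← coeff_zero_eq_eval_zero, hvc, coeff_map, hv0, map_one]
  -- the sum of the means
  have hrs : rsh (∑ i, (T i).coeff 0) = ∑ i, (T i).coeff 0 := by
    rw [map_sum]
    exact Finset.sum_congr rfl fun i _ => H65.rsh_coeff0 (T i) (h.Tn i).1
  obtain ⟨t0, ht0⟩ := self_int hrs
  have hr0 : r.eval 0 = (t0 : ℂ) := by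
    rw [← coeff_zero_eq_eval_zero, h.r0, ht0, map_intCast]
  set Sg : ℕ := ∑ i, (1 + rk (supp (T i))) with hSg
  have hSgR : ∑ i, (1 + (rk (supp (T i)) : ℝ)) = (Sg : ℝ) := by
    rw [hSg]; push_cast; rfl
  have low : ∀ a : ℂ, ‖a‖ ≤ 1 / 15 → (Sg : ℝ) ≤ (r.eval a).re := by
    intro a ha
    rw [← hSgR, ← h.pm a (by linarith)]
    exact Finset.sum_le_sum fun i _ => hSnt O (Ker (f i)) (T i) (h.T0 i) (h.Tn i) a ha
  have h1 := low 0 (by norm_num)
  have h2 := h.le 0 (by norm_num)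
  have hrank := h.rank
  rw [hr0, Complex.intCast_re] at h1
  rw [hr0, Complex.intCast_re, hqc0, hvc0, div_one] at h2
  have h3 : (t0 : ℝ) ≤ Module.finrank ℤ L := by linarith
  have h3' : t0 ≤ (Module.finrank ℤ L : ℤ) := by exact_mod_cast h3
  have h1' : (Sg : ℤ) ≤ t0 := by exact_mod_cast h1
  rw [← hSg] at hrank
  by_cases hz : ∃ z0 : ℂ, ‖z0‖ = 1 ∧ vc.eval z0 = 0
  swap
  · left
    apply one_of_zf hU hM1 hMV hv0
    intro z hz1
    rcases hz1.lt_or_eq with h4 | h4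
    · exact hvz z h4
    · exact fun h5 => hz ⟨z, h4, h5⟩
  right
  have h4 := h.lt hz
  rw [hr0, Complex.intCast_re, hqc0, hvc0, div_one] at h4
  have h5 : (t0 : ℝ) < Module.finrank ℤ L := by linarith
  have h5' : t0 < (Module.finrank ℤ L : ℤ) := by exact_mod_cast h5
  have ht : t0 = (Module.finrank ℤ L : ℤ) - 1 := by omega
  have hSt : (Sg : ℤ) = t0 := by omega
  have hStR : (Sg : ℝ) = t0 := by exact_mod_cast hSt
  -- `r` is constant
  have hrc : r = C (t0 : ℂ) := by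
    have hdW : DifferentiableOn ℂ (fun z : ℂ => r.eval (z / 15) - t0) (Metric.ball 0 1) := by
      intro w _
      exact ((r.differentiable.differentiableAt.comp w
        (differentiableAt_id.div_const 15)).sub_const _).differentiableWithinAt
    have hc := H67.cst_re hdW (by
      intro z hz1
      have h6 := low (z / 15) (by
        rw [norm_div]
        have : ‖(15 : ℂ)‖ = 15 := by norm_num
        rw [this]
        have := norm_nonneg z
        linarith)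
      rw [hStR] at h6
      rw [Complex.sub_re, Complex.intCast_re]
      linarith) (by
      simp only [zero_div]
      rw [hr0, sub_self, Complex.zero_re])
    have hcomp : r.comp (C (1 / 15 : ℂ) * X) = C (t0 : ℂ) := by
      apply eq_of_ball
      intro z hz1
      have h6 := hc z hz1
      simp only [zero_div] at h6
      rw [hr0, sub_self] at h6
      rw [eval_comp, eval_mul, eval_C, eval_X, eval_C, ← sub_eq_zero, one_div_mul_eq_div]
      exact h6
    apply Polynomial.funext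
    intro z
    have h6 := congrArg (fun p : ℂ[X] => p.eval (15 * z)) hcomp
    simp only [eval_comp, eval_mul, eval_C, eval_X] at h6
    rw [← mul_assoc, one_div_mul_cancel (by norm_num), one_mul] at h6
    rw [h6, eval_C]
  -- the two polynomials
  set al : O := q.coeff 0 with hal
  set a1 : O[X] := q - C al * v with ha1
  set b1 : O[X] := q - C (al - 1) * v with hb1
  have hab : b1 = a1 + v := by rw [ha1, hb1, C_sub, C_1]; ring
  have hA : ∀ z, (a1.map (Coef.emb : O →+* ℂ)).eval z =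
      qc.eval z - Coef.emb al * vc.eval z := fun z => by
    rw [ha1, Polynomial.map_sub, Polynomial.map_mul, map_C, eval_sub, eval_mul, eval_C]
  have hB : ∀ z, (b1.map (Coef.emb : O →+* ℂ)).eval z =
      qc.eval z - (Coef.emb al - 1) * vc.eval z := fun z => by
    rw [hb1, Polynomial.map_sub, Polynomial.map_mul, map_C, eval_sub, eval_mul, eval_C, map_sub,
      map_one]
  have hle : ∀ z : ℂ, ‖z‖ < 1 → ‖(a1.map (Coef.emb : O →+* ℂ)).eval z‖ ≤
      ‖(b1.map (Coef.emb : O →+* ℂ)).eval z‖ := by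
    intro z hz1
    have h6 := h.le z hz1
    rw [hrc, eval_C, Complex.intCast_re] at h6
    have hy := hvz z hz1
    rw [hA, hB]
    set w : ℂ := qc.eval z / vc.eval z with hw
    have hx : qc.eval z = w * vc.eval z := by rw [hw, div_mul_cancel₀ _ hy]
    rw [hx, ← sub_mul, ← sub_mul, norm_mul, norm_mul]
    apply mul_le_mul_of_nonneg_right _ (norm_nonneg _)
    have h7 : w - (Coef.emb al - 1) = (w - Coef.emb al) + 1 := by ring
    rw [h7]
    apply nrm_le
    rw [Complex.sub_re]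
    have h8 : (t0 : ℝ) = Module.finrank ℤ L - 1 := by exact_mod_cast ht
    linarith
  have hbz : ∀ z : ℂ, ‖z‖ < 1 → (b1.map (Coef.emb : O →+* ℂ)).eval z ≠ 0 := by
    intro z hz1 h6
    have h7 := hle z hz1
    rw [h6, norm_zero] at h7
    have h8 := norm_le_zero_iff.mp h7
    rw [hA] at h8
    rw [hB] at h6
    exact hvz z hz1 (by linear_combination h6 - h8)
  have hb0 : b1.coeff 0 = 1 := by
    rw [hb1, coeff_sub, coeff_C_mul, hv0, ← hal]; ring
  have ha0 : a1 ≠ 0 := by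
    intro h6
    obtain ⟨z0, hz0, hvz0⟩ := hz
    apply h.qn z0 hz0.le
    have h7 := hA z0
    rw [h6, Polynomial.map_zero, eval_zero, hvz0, mul_zero, sub_zero] at h7
    exact h7.symm
  have haz : a1.coeff 0 = 0 := by
    rw [ha1, coeff_sub, coeff_C_mul, hv0, ← hal]; ring
  obtain ⟨a', ha', hnd⟩ := Polynomial.exists_eq_pow_rootMultiplicity_mul_and_not_dvd a1 ha0 0
  rw [C_0, sub_zero] at ha' hnd
  set d : ℕ := a1.rootMultiplicity 0 with hd
  have ha'0 : a'.coeff 0 ≠ 0 := fun h6 => hnd (X_dvd_iff.mpr h6)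
  have hd1 : 1 ≤ d := by
    by_contra h6
    have h7 : d = 0 := by omega
    rw [h7, pow_zero, one_mul] at ha'
    rw [ha'] at haz
    exact ha'0 haz
  have hs := schwarz_poly (a' := a'.map (Coef.emb : O →+* ℂ)) (b := b1.map (Coef.emb : O →+* ℂ))
    (d := d) hbz (by
      intro z hz1
      have h6 := hle z hz1
      rw [ha', Polynomial.map_mul, Polynomial.map_pow, map_X] at h6
      exact h6) (by
      rw [← coeff_zero_eq_eval_zero, ← coeff_zero_eq_eval_zero, coeff_map, coeff_map, hb0, map_one,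
        norm_one]
      exact Coef.one_le _ ha'0)
  rw [← coeff_zero_eq_eval_zero, ← coeff_zero_eq_eval_zero, coeff_map, coeff_map, hb0, map_one,
    div_one, ← map_C, ← Polynomial.map_mul] at hs
  have ha2 : a' = C (a'.coeff 0) * b1 := Polynomial.map_injective _ emb_inj hs
  set u : O := a'.coeff 0 with hu
  have hvw : v = (1 - C u * X ^ d) * b1 := by
    have h6 : v = b1 - a1 := by rw [hab]; ring
    rw [h6, ha', ha2]
    ring
  have hqb : q = b1 + C (al - 1) * v := by rw [hb1]; ring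
  have hvb : ∀ z, vc.eval z =
      (1 - Coef.emb u * z ^ d) * (b1.map (Coef.emb : O →+* ℂ)).eval z := fun z => by
    rw [hvc, hvw]
    simp only [Polynomial.map_mul, Polynomial.map_sub, Polynomial.map_one, Polynomial.map_pow,
      map_C, map_X, eval_mul, eval_sub, eval_one, eval_pow, eval_C, eval_X]
  have hb1one : b1 = 1 := by
    apply one_of_zf hU hM1 hMV hb0
    intro z hz1 h6
    rcases hz1.lt_or_eq with h7 | h7
    · exact hbz z h7 h6
    · apply h.qn z hz1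
      have h8 := hB z
      rw [h6] at h8
      have h9 : vc.eval z = 0 := by rw [hvb, h6, mul_zero]
      rw [h9, mul_zero, sub_zero] at h8
      exact h8.symm
  rw [hb1one, mul_one] at hvw
  have hu1 : ‖(Coef.emb u : ℂ)‖ = 1 := by
    apply le_antisymm _ (Coef.one_le _ ha'0)
    by_contra h6
    push Not at h6
    have hu0 : (Coef.emb u : ℂ) ≠ 0 := by
      rw [← norm_pos_iff]; linarith
    obtain ⟨z, hz1⟩ := IsAlgClosed.exists_pow_nat_eq ((Coef.emb u : ℂ)⁻¹) (n := d) (by omega)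
    have h7 : ‖z‖ < 1 := by
      have h8 : ‖z‖ ^ d < 1 := by
        rw [← norm_pow, hz1, norm_inv]
        exact inv_lt_one_of_one_lt₀ h6
      by_contra h9
      push Not at h9
      exact absurd (one_le_pow₀ h9 : 1 ≤ ‖z‖ ^ d) (not_le.mpr h8)
    apply hvz z h7
    rw [hvb, hz1, mul_inv_cancel₀ hu0, sub_self, zero_mul]
  refine ⟨d, u, hd1, hu1, hvw, ?_⟩
  conv_lhs => rw [hqb, hb1one, hvw]
  rw [C_mul, C_sub, C_1]
  ring

end

end Pool.Agent.B5.BP57
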